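import Mathlib

/-! Sphere packings of Euclidean space: definitions for MP_dbfdb2_gt (helper818). -/

open MeasureTheory Metric Filter

namespace Pool.Agent.H818R2

section
variable {E : Type*} [NormedAddCommGroup E] [InnerProductSpace ℝ E] [FiniteDimensional ℝ E]
  [MeasurableSpace E] [BorelSpace E]

/-- `X` is the set of centres of a sphere packing by open balls of radius `r`:
the balls `B(x,r)`, `x ∈ X`, are pairwise disjoint and `r > 0`. -/
def IsPacking (X : Set E) (r : ℝ) : Prop :=
  0 < r ∧ X.PairwiseDisjoint (fun x => ball x r)

/-- The union of the balls of the packing. -/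
def body (X : Set E) (r : ℝ) : Set E := ⋃ x ∈ X, ball x r

/-- The upper density `limsup_{R → ∞} |B(O,R) ∩ E| / |B(O,R)|` of the packing. -/
noncomputable def upperDensity (X : Set E) (r : ℝ) : ℝ :=
  limsup (fun R : ℝ => volume.real (ball (0 : E) R ∩ body X r) / volume.real (ball (0 : E) R)) atTop

variable (E) in
/-- The supremum of the upper densities of all sphere packings of the Euclidean space `E`. -/
noncomputable def optDensity : ℝ :=
  sSup {δ | ∃ (X : Set E) (r : ℝ), IsPacking X r ∧ upperDensity X r = δ}

end

/-- `ρ_d^*`, the optimal sphere packing density of `ℝ^d`. -/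
noncomputable def rho (d : ℕ) : ℝ := optDensity (EuclideanSpace ℝ (Fin d))

end Pool.Agent.H818R2
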