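import Pool.Agent.H818R2.Slice2

open MeasureTheory Metric Filter Set
open scoped Topology Pointwise

namespace Pool.Agent.H818R2

lemma vb_eq (E : Type*) [NormedAddCommGroup E] [InnerProductSpace ℝ E] [FiniteDimensional ℝ E]
    [MeasurableSpace E] [BorelSpace E] [Nontrivial E] :
    vb E = √Real.pi ^ Module.finrank ℝ E / Real.Gamma (Module.finrank ℝ E / 2 + 1) := by
  unfold vb
  rw [measureReal_def, InnerProductSpace.volume_ball, ENNReal.ofReal_one, one_pow, one_mul,
    ENNReal.toReal_ofReal]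
  have : 0 < Real.Gamma ((Module.finrank ℝ E : ℝ) / 2 + 1) := Real.Gamma_pos_of_pos (by positivity)
  positivity

/-- `x^a (1-x)^b ≤ (a/(a+b))^a (b/(a+b))^b` -/
lemma rpow_mul_le {a b x : ℝ} (ha : 0 < a) (hb : 0 < b) (hx0 : 0 ≤ x) (hx1 : x ≤ 1) :
    x ^ a * (1 - x) ^ b ≤ (a / (a + b)) ^ a * (b / (a + b)) ^ b := by
  have hab : 0 < a + b := by positivity
  have h1 := Real.geom_mean_le_arith_mean2_weighted (w₁ := a / (a + b)) (w₂ := b / (a + b))
    (p₁ := x / (a / (a + b))) (p₂ := (1 - x) / (b / (a + b))) (by positivity) (by positivity)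
    (by positivity) (div_nonneg (by linarith) (by positivity)) (by field_simp)
  have h2 : a / (a + b) * (x / (a / (a + b))) + b / (a + b) * ((1 - x) / (b / (a + b))) = 1 := by
    field_simp
    ring
  rw [h2] at h1
  have h3 := Real.rpow_le_one (by
    apply mul_nonneg
    · exact Real.rpow_nonneg (by positivity) _
    · exact Real.rpow_nonneg (div_nonneg (by linarith) (by positivity)) _) h1 hab.le
  rw [Real.mul_rpow (Real.rpow_nonneg (by positivity) _)
    (Real.rpow_nonneg (div_nonneg (by linarith) (by positivity)) _),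
    ← Real.rpow_mul (by positivity), ← Real.rpow_mul (div_nonneg (by linarith) (by positivity)),
    show a / (a + b) * (a + b) = a by field_simp, show b / (a + b) * (a + b) = b by field_simp,
    Real.div_rpow hx0 (show (0 : ℝ) ≤ a / (a + b) by positivity) a,
    Real.div_rpow (show (0 : ℝ) ≤ 1 - x by linarith) (show (0 : ℝ) ≤ b / (a + b) by positivity) b]
    at h3
  have h4 : 0 < (a / (a + b)) ^ a := Real.rpow_pos_of_pos (by positivity) _
  have h5 : 0 < (b / (a + b)) ^ b := Real.rpow_pos_of_pos (by positivity) _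
  rw [div_mul_div_comm, div_le_one (by positivity)] at h3
  exact h3

lemma gamma_bound {a b : ℝ} (ha : 0 < a) (hb : 0 < b) :
    Real.Gamma (a + 1) * Real.Gamma (b + 1) ≤
      (a + b + 1) * Real.Gamma (a + b + 1) * ((a / (a + b)) ^ a * (b / (a + b)) ^ b) := by
  have h1 := Complex.Gamma_mul_Gamma_eq_betaIntegral (s := ((a + 1 : ℝ) : ℂ))
    (t := ((b + 1 : ℝ) : ℂ)) (by simp; linarith) (by simp; linarith)
  rw [Complex.Gamma_ofReal, Complex.Gamma_ofReal, ← Complex.ofReal_add, Complex.Gamma_ofReal] at h1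
  have h2 : ‖Complex.betaIntegral ((a + 1 : ℝ) : ℂ) ((b + 1 : ℝ) : ℂ)‖ ≤
      (a / (a + b)) ^ a * (b / (a + b)) ^ b := by
    unfold Complex.betaIntegral
    have h3 := intervalIntegral.norm_integral_le_of_norm_le_const (a := (0 : ℝ)) (b := 1)
      (C := (a / (a + b)) ^ a * (b / (a + b)) ^ b)
      (f := fun x : ℝ => (x : ℂ) ^ (((a + 1 : ℝ) : ℂ) - 1) * (1 - (x : ℂ)) ^ (((b + 1 : ℝ) : ℂ) - 1)) ?_
    · simpa using h3
    · intro x hx
      rw [uIoc_of_le zero_le_one] at hx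
      have e1 : (((a + 1 : ℝ) : ℂ) - 1) = ((a : ℝ) : ℂ) := by push_cast; ring
      have e2 : (((b + 1 : ℝ) : ℂ) - 1) = ((b : ℝ) : ℂ) := by push_cast; ring
      have e3 : (1 - (x : ℂ)) = ((1 - x : ℝ) : ℂ) := by push_cast; ring
      rw [e1, e2, e3, ← Complex.ofReal_cpow hx.1.le, ← Complex.ofReal_cpow (by linarith [hx.2]),
        ← Complex.ofReal_mul, Complex.norm_real, Real.norm_of_nonneg]
      · exact rpow_mul_le ha hb hx.1.le hx.2
      · exact mul_nonneg (Real.rpow_nonneg hx.1.le _) (Real.rpow_nonneg (by linarith [hx.2]) _)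
  have h4 := congrArg (fun z => ‖z‖) h1
  simp only [norm_mul, Complex.norm_real] at h4
  have g1 : 0 < Real.Gamma (a + 1) := Real.Gamma_pos_of_pos (by linarith)
  have g2 : 0 < Real.Gamma (b + 1) := Real.Gamma_pos_of_pos (by linarith)
  have g3 : 0 < Real.Gamma (a + 1 + (b + 1)) := Real.Gamma_pos_of_pos (by linarith)
  rw [Real.norm_of_nonneg g1.le, Real.norm_of_nonneg g2.le, Real.norm_of_nonneg g3.le] at h4
  rw [h4]
  have h5 : Real.Gamma (a + 1 + (b + 1)) = (a + b + 1) * Real.Gamma (a + b + 1) := by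
    rw [← Real.Gamma_add_one (by positivity)]
    congr 1; ring
  rw [h5]
  apply mul_le_mul_of_nonneg_left h2
  have : 0 < Real.Gamma (a + b + 1) := Real.Gamma_pos_of_pos (by linarith)
  positivity

section
variable {U V : Type*} [NormedAddCommGroup U] [InnerProductSpace ℝ U] [FiniteDimensional ℝ U]
  [MeasurableSpace U] [BorelSpace U]
  [NormedAddCommGroup V] [InnerProductSpace ℝ V] [FiniteDimensional ℝ V]
  [MeasurableSpace V] [BorelSpace V]

instance [Nontrivial U] : Nontrivial (WithLp 2 (U × V)) := by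
  obtain ⟨x, y, hxy⟩ := exists_pair_ne U
  exact ⟨WithLp.toLp 2 (x, 0), WithLp.toLp 2 (y, 0), fun h => hxy (congrArg (fun p => p.fst) h)⟩

lemma vb_ratio [Nontrivial U] [Nontrivial V] :
    vb (WithLp 2 (U × V)) ≤
      ((Module.finrank ℝ U + Module.finrank ℝ V : ℝ) / 2 + 1) *
      (((Module.finrank ℝ U : ℝ) / (Module.finrank ℝ U + Module.finrank ℝ V)) ^
        ((Module.finrank ℝ U : ℝ) / 2) *
       ((Module.finrank ℝ V : ℝ) / (Module.finrank ℝ U + Module.finrank ℝ V)) ^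
        ((Module.finrank ℝ V : ℝ) / 2)) * (vb U * vb V) := by
  have hd : 0 < Module.finrank ℝ U := Module.finrank_pos
  have hk : 0 < Module.finrank ℝ V := Module.finrank_pos
  set d := Module.finrank ℝ U
  set k := Module.finrank ℝ V
  have hd' : (0 : ℝ) < d := by exact_mod_cast hd
  have hk' : (0 : ℝ) < k := by exact_mod_cast hk
  have hg := gamma_bound (a := (d : ℝ) / 2) (b := (k : ℝ) / 2) (by positivity) (by positivity)
  rw [vb_eq, vb_eq U, vb_eq V, finrank_withLp]
  change √Real.pi ^ (d + k) / Real.Gamma (((d + k : ℕ) : ℝ) / 2 + 1) ≤ _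
  have e1 : ((d + k : ℕ) : ℝ) / 2 = (d : ℝ) / 2 + (k : ℝ) / 2 := by push_cast; ring
  have e2 : (d : ℝ) / 2 / ((d : ℝ) / 2 + (k : ℝ) / 2) = d / (d + k) := by field_simp
  have e3 : (k : ℝ) / 2 / ((d : ℝ) / 2 + (k : ℝ) / 2) = k / (d + k) := by field_simp
  have e4 : ((d : ℝ) + k) / 2 = (d : ℝ) / 2 + (k : ℝ) / 2 := by ring
  rw [e2, e3] at hg
  rw [e1, e4, pow_add]
  have g1 : 0 < Real.Gamma ((d : ℝ) / 2 + 1) := Real.Gamma_pos_of_pos (by linarith)
  have g2 : 0 < Real.Gamma ((k : ℝ) / 2 + 1) := Real.Gamma_pos_of_pos (by linarith)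
  have g3 : 0 < Real.Gamma ((d : ℝ) / 2 + (k : ℝ) / 2 + 1) := Real.Gamma_pos_of_pos (by linarith)
  set M := ((d : ℝ) / (d + k)) ^ ((d : ℝ) / 2) * ((k : ℝ) / (d + k)) ^ ((k : ℝ) / 2) with hM
  rw [div_mul_div_comm, ← mul_div_assoc, div_le_div_iff₀ g3 (by positivity)]
  calc √Real.pi ^ d * √Real.pi ^ k * (Real.Gamma ((d : ℝ) / 2 + 1) * Real.Gamma ((k : ℝ) / 2 + 1))
      ≤ √Real.pi ^ d * √Real.pi ^ k * (((d : ℝ) / 2 + (k : ℝ) / 2 + 1) *
        Real.Gamma ((d : ℝ) / 2 + (k : ℝ) / 2 + 1) * M) :=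
        mul_le_mul_of_nonneg_left hg (by positivity)
    _ = _ := by ring

end

end Pool.Agent.H818R2
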