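import Pool.Agent.H818R2.Defs

/-! Exponents of sphere packings and of spherical codes: definitions for MP_dbfdb2_gt. -/

open scoped InnerProductSpace

namespace Pool.Agent.H818R2

/-- `c_d = -(1/d) log_2 ρ_d^*` -/
noncomputable def rate (d : ℕ) : ℝ := -(Real.logb 2 (rho d)) / d

/-- `P` is a spherical code of `ℝ^d` with angular distance at least `θ`. -/
def IsSphCode (d : ℕ) (θ : ℝ) (P : Finset (EuclideanSpace ℝ (Fin d))) : Prop :=
  (∀ x ∈ P, ‖x‖ = 1) ∧ ∀ x ∈ P, ∀ y ∈ P, x ≠ y → ⟪x, y⟫_ℝ ≤ Real.cos θ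

/-- `A(d, θ)`: the largest size of a spherical code of `ℝ^d` with angular distance `≥ θ`. -/
noncomputable def sphMax (d : ℕ) (θ : ℝ) : ℕ :=
  sSup {m | ∃ P : Finset (EuclideanSpace ℝ (Fin d)), IsSphCode d θ P ∧ P.card = m}

/-- normalised exponent of spherical codes: `-(1/d) log_2 (sin(θ/2)^d A(d,θ))` -/
noncomputable def sphRate (θ : ℝ) (d : ℕ) : ℝ :=
  -(Real.logb 2 (Real.sin (θ / 2) ^ d * sphMax d θ)) / d

end Pool.Agent.H818R2
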