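import Pool.Agent.H818R2.Rate
import Pool.Agent.H818R2.RateDefs

open MeasureTheory Metric Filter Set
open scoped Topology

namespace Pool.Agent.H818R2

lemma rate_mul {n : ℕ} (hn : 0 < n) : n * rate n = -(Real.logb 2 (rho n)) := by
  unfold rate
  have : (n : ℝ) ≠ 0 := by exact_mod_cast hn.ne'
  field_simp

lemma rate_nonneg (n : ℕ) : 0 ≤ rate n := by
  unfold rate
  rcases Nat.eq_zero_or_pos n with rfl | hn
  · simp
  · apply div_nonneg _ (Nat.cast_nonneg n)
    rw [neg_nonneg]
    exact Real.logb_nonpos (by norm_num) (rho_nonneg n) (rho_le_one n)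

lemma rate_le_one (n : ℕ) : rate n ≤ 1 := by
  unfold rate
  rcases Nat.eq_zero_or_pos n with rfl | hn
  · simp
  · have hn' : (0 : ℝ) < n := by exact_mod_cast hn
    rw [div_le_one hn', neg_le]
    rw [Real.le_logb_iff_rpow_le (by norm_num) (rho_pos hn), Real.rpow_neg (by norm_num),
      Real.rpow_natCast]
    have := le_rho hn
    rwa [one_div, inv_pow] at this

/-- `m c_m ≤ n c_n + log_2 (n+2)` -/
lemma rate_near_mono {m n : ℕ} (hm : 0 < m) (hmn : m ≤ n) :
    m * rate m ≤ n * rate n + Real.logb 2 (n + 2) := by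
  have hn : 0 < n := by omega
  have hn' : (0 : ℝ) < n := by exact_mod_cast hn
  rw [rate_mul hm, rate_mul hn]
  have h1 := Real.logb_le_logb_of_le (b := 2) (by norm_num) (rho_pos hn) (rho_near_mono hm hmn)
  rw [Real.logb_mul (by positivity) (rho_pos hm).ne'] at h1
  linarith

lemma rate_succ_le {n : ℕ} (hn : 0 < n) :
    (n + 1 : ℕ) * rate (n + 1) ≤ n * rate n + Real.logb 2 (4 * (n + 1)) := by
  have hn' : (0 : ℝ) < n := by exact_mod_cast hn
  rw [rate_mul hn, rate_mul (by omega)]
  have h0 := rho_pos hn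
  have h1 := Real.logb_le_logb_of_le (b := 2) (by norm_num) (by positivity) (rho_stack hn)
  rw [Real.logb_div h0.ne' (by positivity)] at h1
  linarith

lemma tendsto_logb_div : Tendsto (fun n : ℕ => Real.logb 2 (4 * ((n : ℝ) + 1)) / n) atTop (𝓝 0) := by
  have h1 : Tendsto (fun x : ℝ => Real.log x / x) atTop (𝓝 0) := by
    simpa using Real.tendsto_pow_log_div_mul_add_atTop 1 0 1 one_ne_zero
  have h2 : Tendsto (fun n : ℕ => 4 * ((n : ℝ) + 1)) atTop atTop := by
    apply Tendsto.const_mul_atTop (by norm_num)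
    exact tendsto_atTop_add_const_right _ _ tendsto_natCast_atTop_atTop
  have h3 := (h1.comp h2).const_mul (8 / Real.log 2)
  rw [mul_zero] at h3
  refine squeeze_zero' ?_ ?_ h3
  · filter_upwards with n
    apply div_nonneg _ (Nat.cast_nonneg n)
    apply Real.logb_nonneg (by norm_num)
    have : (0 : ℝ) ≤ n := Nat.cast_nonneg n
    linarith
  · filter_upwards [eventually_gt_atTop 0] with n hn
    have hn' : (1 : ℝ) ≤ n := by exact_mod_cast hn
    simp only [Function.comp, Real.logb]
    have hl2 : 0 < Real.log 2 := Real.log_pos (by norm_num)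
    have hl : 0 ≤ Real.log (4 * ((n : ℝ) + 1)) := Real.log_nonneg (by linarith)
    rw [div_div, div_mul_div_comm, div_le_div_iff₀ (by positivity) (by positivity)]
    have h5 : Real.log (4 * ((n : ℝ) + 1)) * (Real.log 2 * (4 * (↑n + 1))) ≤
        Real.log (4 * ((n : ℝ) + 1)) * (Real.log 2 * (8 * n)) := by
      apply mul_le_mul_of_nonneg_left _ hl
      apply mul_le_mul_of_nonneg_left _ hl2.le
      linarith
    refine h5.trans (le_of_eq (by ring))

lemma tendsto_err : Tendsto (fun n : ℕ => Real.logb 2 (4 * ((n : ℝ) + 1)) / n + 1 / n) atTop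
    (𝓝 0) := by
  have := tendsto_logb_div.add tendsto_one_div_atTop_nhds_zero_nat
  rwa [add_zero] at this

lemma rate_diff : Tendsto (fun n : ℕ => rate (n + 1) - rate n) atTop (𝓝 0) := by
  apply squeeze_zero_norm' _ tendsto_err
  filter_upwards [eventually_gt_atTop 0] with n hn
  have hn' : (0 : ℝ) < n := by exact_mod_cast hn
  have h1 := rate_succ_le hn
  have h2 := rate_near_mono hn (Nat.le_succ n)
  have h3 := rate_nonneg (n + 1)
  have h4 := rate_le_one (n + 1)
  have h5 : Real.logb 2 (((n + 1 : ℕ) : ℝ) + 2) ≤ Real.logb 2 (4 * ((n : ℝ) + 1)) := by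
    apply Real.logb_le_logb_of_le (by norm_num) (by positivity)
    push_cast; linarith
  simp only [Nat.succ_eq_add_one] at h2
  push_cast at h1 h2 h5
  rw [Real.norm_eq_abs, ← add_div, le_div_iff₀ hn', ← abs_of_pos hn', ← abs_mul, abs_of_pos hn',
    abs_le]
  constructor
  · nlinarith
  · nlinarith

/-- limit points of a bounded sequence with vanishing increments -/
lemma clusterPts_eq {u : ℕ → ℝ} {a b : ℝ} (ha : ∀ n, a ≤ u n) (hb : ∀ n, u n ≤ b)
    (hu : Tendsto (fun n => u (n + 1) - u n) atTop (𝓝 0)) :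
    {x | MapClusterPt x atTop u} = Icc (liminf u atTop) (limsup u atTop) := by
  have hbdd : IsBoundedUnder (· ≤ ·) atTop u := isBoundedUnder_of ⟨b, hb⟩
  have hbdd' : IsBoundedUnder (· ≥ ·) atTop u := isBoundedUnder_of ⟨a, ha⟩
  ext x
  rw [mem_ofPred_eq, mem_Icc]
  constructor
  · intro hx
    rw [mapClusterPt_iff_frequently] at hx
    constructor
    · by_contra hcon
      rw [not_le] at hcon
      obtain ⟨y, hxy, hyl⟩ := exists_between hcon
      have h1 := eventually_lt_of_lt_liminf hyl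
      have h2 := hx (Iio y) (Iio_mem_nhds hxy)
      obtain ⟨n, hn1, hn2⟩ := (h2.and_eventually h1).exists
      exact absurd hn1 (not_lt.2 hn2.le)
    · by_contra hcon
      rw [not_le] at hcon
      obtain ⟨y, hly, hyx⟩ := exists_between hcon
      have h1 := eventually_lt_of_limsup_lt hly
      have h2 := hx (Ioi y) (Ioi_mem_nhds hyx)
      obtain ⟨n, hn1, hn2⟩ := (h2.and_eventually h1).exists
      exact absurd hn1 (not_lt.2 hn2.le)
  · rintro ⟨h1, h2⟩
    rw [mapClusterPt_iff_frequently]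
    intro s hs
    obtain ⟨ε, hε, hεs⟩ := Metric.mem_nhds_iff.1 hs
    rw [frequently_atTop]
    intro N
    have h3 : ∀ᶠ n in atTop, |u (n + 1) - u n| < ε := by
      have := hu.eventually (Metric.ball_mem_nhds (0 : ℝ) hε)
      filter_upwards [this] with n hn
      rwa [Real.dist_eq, sub_zero] at hn
    obtain ⟨N', hN'⟩ := eventually_atTop.1 h3
    have h4 : ∃ᶠ n in atTop, x - ε < u n := by
      apply frequently_lt_of_lt_limsup hbdd'.isCoboundedUnder_le
      linarith
    have h5 : ∃ᶠ n in atTop, u n < x + ε := by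
      apply frequently_lt_of_liminf_lt hbdd.isCoboundedUnder_ge
      linarith
    obtain ⟨n1, hn1, hn1u⟩ := frequently_atTop.1 h4 (max N N')
    have hn1N : N ≤ n1 := (le_max_left _ _).trans hn1
    have hn1N' : N' ≤ n1 := (le_max_right _ _).trans hn1
    by_cases hlt : u n1 < x + ε
    · refine ⟨n1, hn1N, hεs ?_⟩
      rw [Metric.mem_ball, Real.dist_eq, abs_lt]
      constructor <;> linarith
    · rw [not_lt] at hlt
      obtain ⟨n2, hn2, hn2u⟩ := frequently_atTop.1 h5 n1
      classical
      have hex : ∃ m, n1 ≤ m ∧ u m < x + ε := ⟨n2, hn2, hn2u⟩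
      set m := Nat.find hex with hm
      obtain ⟨hm1, hm2⟩ := Nat.find_spec hex
      rw [← hm] at hm1 hm2
      have hm0 : n1 ≠ m := fun h => by rw [← h] at hm2; linarith
      have hm3 : n1 ≤ m - 1 := by omega
      have hm4 : x + ε ≤ u (m - 1) := by
        by_contra hcon
        exact Nat.find_min hex (m := m - 1) (by omega) ⟨hm3, not_le.1 hcon⟩
      have hm5 := hN' (m - 1) (by omega)
      rw [show m - 1 + 1 = m by omega, abs_lt] at hm5
      refine ⟨m, by omega, hεs ?_⟩
      rw [Metric.mem_ball, Real.dist_eq, abs_lt]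
      constructor <;> linarith [hm5.1, hm5.2]

/-- the limit points of the exponents form an interval -/
theorem rate_clusterPts :
    {x | MapClusterPt x atTop rate} = Icc (liminf rate atTop) (limsup rate atTop) :=
  clusterPts_eq rate_nonneg rate_le_one rate_diff

lemma exists_index {φ : ℕ → ℕ} (hφ : StrictMono φ) {J n : ℕ} (hn : φ J ≤ n) :
    ∃ j, J ≤ j ∧ φ j ≤ n ∧ n < φ (j + 1) := by
  classical
  have hex : ∃ j, n < φ (j + 1) :=
    ⟨n, lt_of_lt_of_le (Nat.lt_succ_self n) (hφ.id_le (n + 1))⟩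
  refine ⟨Nat.find hex, ?_, ?_, Nat.find_spec hex⟩
  · by_contra hcon
    rw [not_le] at hcon
    have h1 := Nat.find_spec hex
    have h2 : φ (Nat.find hex + 1) ≤ φ J := hφ.monotone hcon
    omega
  · rcases Nat.eq_zero_or_pos (Nat.find hex) with h0 | h0
    · rw [h0]
      exact (hφ.monotone (Nat.zero_le J)).trans hn
    · have := Nat.find_min hex (m := Nat.find hex - 1) (by omega)
      rw [not_lt, Nat.sub_add_cancel h0] at this
      exact this

/-- comparison of the exponents along a slowly growing sequence of dimensions -/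
lemma seq_ev {φ : ℕ → ℕ} (hφ : StrictMono φ)
    (hr : Tendsto (fun j => (φ (j + 1) : ℝ) / φ j) atTop (𝓝 1)) {ε : ℝ} (hε : 0 < ε) :
    ∀ᶠ j in atTop, ∀ n, φ j ≤ n → n < φ (j + 1) →
      rate (φ j) ≤ rate n + ε ∧ rate n ≤ rate (φ (j + 1)) + ε := by
  have hφt : Tendsto φ atTop atTop := hφ.tendsto_atTop
  have h1 := (tendsto_err.comp hφt).eventually (gt_mem_nhds (show (0 : ℝ) < ε / 4 by positivity))
  have h2 := hr.eventually (gt_mem_nhds (show (1 : ℝ) < 1 + min (ε / 4) 1 by
    have : 0 < min (ε / 4) 1 := by positivity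
    linarith))
  have h3 := hφt.eventually (eventually_gt_atTop 0)
  filter_upwards [h1, h2, h3] with j hj1 hj2 hj3 n hn1 hn2
  have hm : (0 : ℝ) < φ j := by exact_mod_cast hj3
  have hn1' : (φ j : ℝ) ≤ n := by exact_mod_cast hn1
  have hn2' : (n : ℝ) ≤ φ (j + 1) := by exact_mod_cast hn2.le
  have hn0 : (0 : ℝ) < n := by linarith
  set δ := min (ε / 4) 1 with hδ
  have hδ1 : δ ≤ ε / 4 := min_le_left _ _
  have hδ2 : δ ≤ 1 := min_le_right _ _
  rw [div_lt_iff₀ hm] at hj2
  simp only [Function.comp] at hj1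
  have hlog : Real.logb 2 (4 * ((φ j : ℝ) + 1)) ≤ ε / 4 * φ j := by
    have h4 : Real.logb 2 (4 * ((φ j : ℝ) + 1)) / (φ j) ≤ ε / 4 := by
      have : (0 : ℝ) ≤ 1 / (φ j) := by positivity
      linarith
    rwa [div_le_iff₀ hm] at h4
  have hbig : (φ (j + 1) : ℝ) + 2 ≤ 4 * ((φ j : ℝ) + 1) := by nlinarith
  have e1 : Real.logb 2 ((n : ℝ) + 2) ≤ ε / 4 * φ j := by
    refine le_trans ?_ hlog
    exact Real.logb_le_logb_of_le (by norm_num) (by positivity) (by linarith)
  have e2 : Real.logb 2 ((φ (j + 1) : ℝ) + 2) ≤ ε / 4 * φ j := by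
    refine le_trans ?_ hlog
    exact Real.logb_le_logb_of_le (by norm_num) (by positivity) hbig
  have k1 := rate_near_mono hj3 hn1
  have k2 := rate_near_mono (show 0 < n by omega) hn2.le
  have r1 := rate_nonneg n
  have r2 := rate_nonneg (φ (j + 1))
  have r3 := rate_le_one n
  have r4 := rate_le_one (φ (j + 1))
  constructor
  · -- `φ j * rate (φ j) ≤ n rate n + ...`
    have h5 : (φ j : ℝ) * rate (φ j) ≤ φ j * (rate n + ε) := by
      have h6 : (n : ℝ) * rate n ≤ φ j * rate n + δ * φ j := by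
        have : ((n : ℝ) - φ j) * rate n ≤ (n - φ j) * 1 :=
          mul_le_mul_of_nonneg_left r3 (by linarith)
        nlinarith
      nlinarith
    exact le_of_mul_le_mul_left h5 hm
  · have h5 : (n : ℝ) * rate n ≤ n * (rate (φ (j + 1)) + ε) := by
      have h6 : (φ (j + 1) : ℝ) * rate (φ (j + 1)) ≤ n * rate (φ (j + 1)) + δ * φ j := by
        have : ((φ (j + 1) : ℝ) - n) * rate (φ (j + 1)) ≤ (φ (j + 1) - n) * 1 :=
          mul_le_mul_of_nonneg_left r4 (by linarith)
        nlinarith
      nlinarith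
    exact le_of_mul_le_mul_left h5 hn0

lemma rate_bdd (f : Filter ℕ) : IsBoundedUnder (· ≤ ·) f rate :=
  isBoundedUnder_of ⟨1, rate_le_one⟩

lemma rate_bdd' (f : Filter ℕ) : IsBoundedUnder (· ≥ ·) f rate :=
  isBoundedUnder_of ⟨0, rate_nonneg⟩

theorem limsup_seq {φ : ℕ → ℕ} (hφ : StrictMono φ)
    (hr : Tendsto (fun j => (φ (j + 1) : ℝ) / φ j) atTop (𝓝 1)) :
    limsup (fun j => rate (φ j)) atTop = limsup rate atTop := by
  have hφt : Tendsto φ atTop atTop := hφ.tendsto_atTop
  have hb : IsBoundedUnder (· ≤ ·) atTop (fun j => rate (φ j)) :=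
    isBoundedUnder_of ⟨1, fun j => rate_le_one _⟩
  have hb' : IsBoundedUnder (· ≥ ·) atTop (fun j => rate (φ j)) :=
    isBoundedUnder_of ⟨0, fun j => rate_nonneg _⟩
  apply le_antisymm
  · apply le_of_forall_pos_le_add
    intro ε hε
    have h1 := eventually_lt_of_limsup_lt (show limsup rate atTop < limsup rate atTop + ε by
      linarith) (rate_bdd _)
    apply limsup_le_of_le hb'.isCoboundedUnder_le
    filter_upwards [hφt.eventually h1] with j hj using hj.le
  · apply le_of_forall_pos_le_add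
    intro ε hε
    have h1 := eventually_lt_of_limsup_lt (show limsup (fun j => rate (φ j)) atTop <
      limsup (fun j => rate (φ j)) atTop + ε / 2 by linarith) hb
    obtain ⟨J1, hJ1⟩ := eventually_atTop.1 h1
    obtain ⟨J2, hJ2⟩ := eventually_atTop.1 (seq_ev hφ hr (show 0 < ε / 2 by positivity))
    apply limsup_le_of_le (rate_bdd' _).isCoboundedUnder_le
    rw [eventually_atTop]
    refine ⟨φ (max J1 J2), fun n hn => ?_⟩
    obtain ⟨j, hj, hj1, hj2⟩ := exists_index hφ hn
    have h2 := (hJ2 j ((le_max_right _ _).trans hj) n hj1 hj2).2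
    have h3 := hJ1 (j + 1) (((le_max_left _ _).trans hj).trans (Nat.le_succ j))
    linarith

theorem liminf_seq {φ : ℕ → ℕ} (hφ : StrictMono φ)
    (hr : Tendsto (fun j => (φ (j + 1) : ℝ) / φ j) atTop (𝓝 1)) :
    liminf (fun j => rate (φ j)) atTop = liminf rate atTop := by
  have hφt : Tendsto φ atTop atTop := hφ.tendsto_atTop
  have hb : IsBoundedUnder (· ≤ ·) atTop (fun j => rate (φ j)) :=
    isBoundedUnder_of ⟨1, fun j => rate_le_one _⟩
  have hb' : IsBoundedUnder (· ≥ ·) atTop (fun j => rate (φ j)) :=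
    isBoundedUnder_of ⟨0, fun j => rate_nonneg _⟩
  apply le_antisymm
  · apply le_of_forall_pos_le_add
    intro ε hε
    rw [← sub_le_iff_le_add]
    have h1 := eventually_lt_of_lt_liminf (show liminf (fun j => rate (φ j)) atTop - ε / 2 <
      liminf (fun j => rate (φ j)) atTop by linarith) hb'
    obtain ⟨J1, hJ1⟩ := eventually_atTop.1 h1
    obtain ⟨J2, hJ2⟩ := eventually_atTop.1 (seq_ev hφ hr (show 0 < ε / 2 by positivity))
    apply le_liminf_of_le (rate_bdd _).isCoboundedUnder_ge
    rw [eventually_atTop]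
    refine ⟨φ (max J1 J2), fun n hn => ?_⟩
    obtain ⟨j, hj, hj1, hj2⟩ := exists_index hφ hn
    have h2 := (hJ2 j ((le_max_right _ _).trans hj) n hj1 hj2).1
    have h3 := hJ1 j ((le_max_left _ _).trans hj)
    linarith
  · apply le_of_forall_pos_le_add
    intro ε hε
    rw [← sub_le_iff_le_add]
    have h1 := eventually_lt_of_lt_liminf (show liminf rate atTop - ε < liminf rate atTop by
      linarith) (rate_bdd' _)
    apply le_liminf_of_le hb.isCoboundedUnder_ge
    filter_upwards [hφt.eventually h1] with j hj using hj.le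

end Pool.Agent.H818R2
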