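import Pool.Agent.H818R2.Base2

open MeasureTheory Metric Filter Set
open scoped Topology

namespace Pool.Agent.H818R2

section
variable {E : Type*} [NormedAddCommGroup E] [InnerProductSpace ℝ E] [FiniteDimensional ℝ E]
  [MeasurableSpace E] [BorelSpace E]
  {F : Type*} [NormedAddCommGroup F] [InnerProductSpace ℝ F] [FiniteDimensional ℝ F]
  [MeasurableSpace F] [BorelSpace F]

omit [FiniteDimensional ℝ E] [MeasurableSpace E] [BorelSpace E] [FiniteDimensional ℝ F]
  [MeasurableSpace F] [BorelSpace F] in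
lemma isPacking_image (g : E ≃ₗᵢ[ℝ] F) {X : Set E} {r : ℝ} (h : IsPacking X r) :
    IsPacking (g '' X) r := by
  refine ⟨h.1, ?_⟩
  rintro _ ⟨x, hx, rfl⟩ _ ⟨y, hy, rfl⟩ hxy
  have h1 : x ≠ y := fun h => hxy (by rw [h])
  have h2 := h.2 hx hy h1
  simp only [Function.onFun] at h2 ⊢
  rw [disjoint_ball_ball_iff h.1 h.1] at h2 ⊢
  rwa [g.dist_map]

omit [FiniteDimensional ℝ E] [MeasurableSpace E] [BorelSpace E] [FiniteDimensional ℝ F]
  [MeasurableSpace F] [BorelSpace F] in
lemma body_preimage (g : E ≃ₗᵢ[ℝ] F) (X : Set E) (r : ℝ) :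
    g ⁻¹' (body (g '' X) r) = body X r := by
  unfold body
  rw [preimage_iUnion₂]
  ext z
  simp only [mem_iUnion, mem_preimage, exists_prop, exists_exists_and_eq_and, mem_image, mem_ball,
    g.dist_map]

lemma upperDensity_image (g : E ≃ₗᵢ[ℝ] F) (X : Set E) (r : ℝ) :
    upperDensity (g '' X) r = upperDensity X r := by
  unfold upperDensity
  congr 1
  ext R
  have h1 : ∀ S : Set F, MeasurableSet S → volume.real S = volume.real (g ⁻¹' S) := by
    intro S hS
    rw [measureReal_def, measureReal_def, g.measurePreserving.measure_preimage hS.nullMeasurableSet]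
  have hb : IsOpen (body (g '' X) r) := isOpen_biUnion (fun x _ => isOpen_ball)
  rw [h1 _ (measurableSet_ball.inter hb.measurableSet), h1 _ measurableSet_ball, preimage_inter,
    body_preimage, LinearIsometryEquiv.preimage_ball, map_zero]

lemma optDensity_congr (g : E ≃ₗᵢ[ℝ] F) : optDensity E = optDensity F := by
  unfold optDensity
  congr 1
  ext δ
  constructor
  · rintro ⟨X, r, h1, h2⟩
    exact ⟨g '' X, r, isPacking_image g h1, by rw [upperDensity_image, h2]⟩
  · rintro ⟨X, r, h1, h2⟩
    exact ⟨g.symm '' X, r, isPacking_image g.symm h1, by rw [upperDensity_image, h2]⟩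

lemma optDensity_eq_rho {n : ℕ} (h : Module.finrank ℝ E = n) : optDensity E = rho n :=
  optDensity_congr ((stdOrthonormalBasis ℝ E).reindex (finCongr h)).repr

end

end Pool.Agent.H818R2
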