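import Pool.Agent.H818R2.Drop
import Pool.Agent.H818R2.Iso

open MeasureTheory Metric Filter Set
open scoped Topology

namespace Pool.Agent.H818R2

instance inst_nontriv (n : ℕ) [NeZero n] : Nontrivial (EuclideanSpace ℝ (Fin n)) :=
  Module.nontrivial_of_finrank_pos (R := ℝ)
    (by rw [finrank_euclideanSpace_fin]; exact Nat.pos_of_ne_zero (NeZero.ne n))

section
variable {E : Type*} [NormedAddCommGroup E] [InnerProductSpace ℝ E] [FiniteDimensional ℝ E]
  [MeasurableSpace E] [BorelSpace E]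

/-- a maximal separated set of a ball -/
lemma exists_saturated {R : ℝ} (hR : 0 ≤ R) : ∃ P : Finset E, Sep 2 P ∧ (∀ x ∈ P, ‖x‖ ≤ R) ∧
    (1 / 2) ^ Module.finrank ℝ E * R ^ Module.finrank ℝ E ≤ P.card := by
  classical
  obtain ⟨P, hP, hPG, hmax⟩ := exists_max (E := E) (G := closedBall 0 R) hR subset_rfl
  refine ⟨P, hP, fun x hx => mem_closedBall_zero_iff.1 (hPG hx), ?_⟩
  have h1 : closedBall (0 : E) R ⊆ ⋃ x ∈ P, ball x 2 := by
    intro z hz
    by_contra hcon
    simp only [mem_iUnion, mem_ball, not_exists, not_lt, exists_prop, not_and] at hcon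
    have hzP : z ∉ P := fun h => by
      have := hcon z h
      rw [dist_self] at this; norm_num at this
    have h2 := hmax (insert z P) ?_ ?_
    · rw [Finset.card_insert_of_notMem hzP] at h2
      omega
    · intro x hx y hy hxy
      rw [Finset.mem_insert] at hx hy
      rcases hx with rfl | hx <;> rcases hy with rfl | hy
      · exact absurd rfl hxy
      · exact hcon y hy
      · rw [dist_comm]; exact hcon x hx
      · exact hP x hx y hy hxy
    · rw [Finset.coe_insert]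
      exact insert_subset hz hPG
  have h2 : volume.real (closedBall (0 : E) R) ≤ ∑ x ∈ P, volume.real (ball x (2 : ℝ)) := by
    refine (measureReal_mono h1 ?_).trans (measureReal_biUnion_finset_le _ _)
    refine ((measure_biUnion_lt_top (Finset.finite_toSet _) ?_)).ne
    intro i _; exact measure_ball_lt_top
  rw [vol_closedBall _ hR, Finset.sum_congr rfl (fun x _ => vol_ball x two_pos), Finset.sum_const,
    nsmul_eq_mul, ← mul_assoc] at h2
  have h3 := le_of_mul_le_mul_right h2 vb_pos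
  rw [one_div, inv_pow, inv_mul_le_iff₀ (by positivity), mul_comm]
  exact h3

lemma le_optDensity_half [Nontrivial E] : (1 / 2) ^ Module.finrank ℝ E ≤ optDensity E :=
  glue (R0 := 0) (fun _ hR => exists_saturated hR)

lemma optDensity_le_one : optDensity E ≤ 1 := by
  refine csSup_le (s := {δ | ∃ (X : Set E) (r : ℝ), IsPacking X r ∧ upperDensity X r = δ})
    ⟨upperDensity (∅ : Set E) 1, ∅, 1, isPacking_empty, rfl⟩ ?_
  rintro δ ⟨X, r, -, rfl⟩
  exact upperDensity_le_one X r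

/-- stacking layers -/
lemma stack [Nontrivial E] {n : ℕ} (hn : Module.finrank ℝ E = n) :
    optDensity E / (4 * (n + 1)) ≤ optDensity (WithLp 2 (E × ℝ)) := by
  classical
  have hn0 : 0 < n := by rw [← hn]; exact Module.finrank_pos
  have hn' : (0 : ℝ) < n := by exact_mod_cast hn0
  have hfin : Module.finrank ℝ (WithLp 2 (E × ℝ)) = n + 1 := by
    rw [finrank_withLp, hn, Module.finrank_self]
  apply glue (R0 := 1)
  intro R hR
  have hR0 : 0 < R := by linarith
  set α : ℝ := √((n : ℝ) / (n + 1)) with hα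
  have hα2 : α ^ 2 = (n : ℝ) / (n + 1) := Real.sq_sqrt (by positivity)
  have hα0 : 0 < α := Real.sqrt_pos.2 (by positivity)
  set L : ℝ := R / √(n + 1) with hL
  have hL0 : 0 < L := by positivity
  have hL2 : L ^ 2 = R ^ 2 / (n + 1) := by
    rw [hL, div_pow, Real.sq_sqrt (by positivity)]
  obtain ⟨P, hP, hPG, hPc⟩ := exists_large (E := E) (G := closedBall 0 (α * R))
    measurableSet_closedBall (a := α * R) (by positivity) subset_rfl (by
      rw [vol_closedBall _ (by positivity)]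
      have := vb_pos (E := E)
      positivity)
  rw [vol_closedBall _ (by positivity), ← mul_assoc] at hPc
  have hPc := le_of_mul_le_mul_right hPc vb_pos
  rw [hn] at hPc
  set J : Finset ℕ := Finset.range (⌊L / 2⌋₊ + 1) with hJ
  set F : Finset (WithLp 2 (E × ℝ)) := (P ×ˢ J).image (fun p => WithLp.toLp 2 (p.1, 2 * (p.2 : ℝ)))
    with hF
  have hinj : Function.Injective (fun p : E × ℕ => WithLp.toLp 2 (p.1, 2 * (p.2 : ℝ))) := by
    rintro ⟨x, i⟩ ⟨y, j⟩ h
    have h1 : x = y := congrArg (fun p => p.fst) h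
    have h2 : 2 * (i : ℝ) = 2 * (j : ℝ) := congrArg (fun p => p.snd) h
    have h3 : (i : ℝ) = j := by linarith
    rw [h1, Nat.cast_inj.1 h3]
  refine ⟨F, ?_, ?_, ?_⟩
  · intro x hx y hy hxy
    obtain ⟨⟨u, i⟩, hui, rfl⟩ := Finset.mem_image.1 hx
    obtain ⟨⟨v, j⟩, hvj, rfl⟩ := Finset.mem_image.1 hy
    have h1 : dist (WithLp.toLp 2 (u, 2 * (i : ℝ))) (WithLp.toLp 2 (v, 2 * (j : ℝ))) ^ 2 =
        dist u v ^ 2 + dist (2 * (i : ℝ)) (2 * (j : ℝ)) ^ 2 :=
      dist_sq (WithLp.toLp 2 (u, 2 * (i : ℝ))) (WithLp.toLp 2 (v, 2 * (j : ℝ)))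
    have h0 : (0 : ℝ) ≤ dist (WithLp.toLp 2 (u, 2 * (i : ℝ)))
      (WithLp.toLp 2 (v, 2 * (j : ℝ))) := dist_nonneg
    by_cases hij : i = j
    · subst hij
      have huv : u ≠ v := fun h => hxy (by rw [h])
      have h2 := hP u (Finset.mem_product.1 hui).1 v (Finset.mem_product.1 hvj).1 huv
      rw [dist_self] at h1
      simp only
      nlinarith [dist_nonneg (x := u) (y := v)]
    · have h2 : (2 : ℝ) ≤ dist (2 * (i : ℝ)) (2 * (j : ℝ)) := by
        rw [Real.dist_eq, ← mul_sub, abs_mul, abs_two]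
        have : (1 : ℝ) ≤ |(i : ℝ) - j| := by
          have h3 : (1 : ℤ) ≤ |(i : ℤ) - j| := Int.one_le_abs (by omega)
          exact_mod_cast h3
        linarith
      simp only
      nlinarith [sq_nonneg (dist u v)]
  · intro x hx
    obtain ⟨⟨u, i⟩, hui, rfl⟩ := Finset.mem_image.1 hx
    have h1 := dist_sq (WithLp.toLp 2 (u, 2 * (i : ℝ))) 0
    rw [show (0 : WithLp 2 (E × ℝ)).fst = 0 from rfl, show (0 : WithLp 2 (E × ℝ)).snd = 0 from rfl]
      at h1
    simp only [dist_zero_right] at h1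
    have h2 : ‖u‖ ≤ α * R := mem_closedBall_zero_iff.1 (hPG (Finset.mem_product.1 hui).1)
    have h3 : 2 * (i : ℝ) ≤ L := by
      have h4 := Finset.mem_range.1 (Finset.mem_product.1 hui).2
      have h5 : (i : ℝ) ≤ ⌊L / 2⌋₊ := by exact_mod_cast Nat.lt_succ_iff.1 h4
      have h6 := Nat.floor_le (show 0 ≤ L / 2 by positivity)
      linarith
    have h4 : ‖2 * (i : ℝ)‖ ≤ L := by
      rw [Real.norm_of_nonneg (by positivity)]; exact h3
    have h5 : ‖u‖ ^ 2 ≤ α ^ 2 * R ^ 2 := by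
      rw [← mul_pow]; exact pow_le_pow_left₀ (norm_nonneg _) h2 2
    have h6 : ‖2 * (i : ℝ)‖ ^ 2 ≤ L ^ 2 := pow_le_pow_left₀ (norm_nonneg _) h4 2
    have h7 : α ^ 2 * R ^ 2 + L ^ 2 = R ^ 2 := by
      rw [hα2, hL2]; field_simp
    apply le_of_sq_le_sq _ hR0.le
    have h8 : ‖WithLp.toLp 2 (u, 2 * (i : ℝ))‖ ^ 2 = ‖u‖ ^ 2 + ‖2 * (i : ℝ)‖ ^ 2 := h1
    simp only
    rw [h8]; linarith
  · rw [hF, Finset.card_image_of_injective _ hinj, Finset.card_product, hJ, Finset.card_range, hfin]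
    push_cast
    have h1 : L / 2 ≤ (⌊L / 2⌋₊ : ℝ) + 1 := (Nat.lt_floor_add_one _).le
    have h2 : optDensity E * (α * R) ^ n * (L / 2) ≤ (P.card : ℝ) * ((⌊L / 2⌋₊ : ℝ) + 1) :=
      mul_le_mul hPc h1 (by positivity) (by positivity)
    refine le_trans ?_ h2
    have h3 : (1 : ℝ) / 2 ≤ α ^ n := by
      apply le_of_sq_le_sq _ (by positivity)
      have e1 : (α ^ n) ^ 2 = ((n : ℝ) / (n + 1)) ^ n := by
        rw [← hα2]; ring
      rw [e1]
      have h4 : (1 + 1 / (n : ℝ)) ^ n ≤ 4 := by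
        have h5 : (1 + 1 / (n : ℝ)) ≤ Real.exp (1 / n) := by
          have := Real.add_one_le_exp (1 / (n : ℝ)); linarith
        have h6 : (1 + 1 / (n : ℝ)) ^ n ≤ Real.exp 1 := by
          calc (1 + 1 / (n : ℝ)) ^ n ≤ (Real.exp (1 / n)) ^ n :=
                pow_le_pow_left₀ (by positivity) h5 n
            _ = Real.exp 1 := by
                rw [← Real.exp_nat_mul]; congr 1; field_simp
        have := Real.exp_one_lt_d9
        linarith
      have h5 : ((n : ℝ) / (n + 1)) ^ n = ((1 + 1 / (n : ℝ)) ^ n)⁻¹ := by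
        rw [← inv_pow]; congr 1; field_simp
      rw [h5]
      calc ((1 : ℝ) / 2) ^ 2 = 4⁻¹ := by norm_num
        _ ≤ _ := inv_anti₀ (by positivity) h4
    have h4 : √((n : ℝ) + 1) ≤ n + 1 := by
      rw [Real.sqrt_le_left (by positivity)]; nlinarith
    have h5 : 1 / ((n : ℝ) + 1) ≤ 1 / √((n : ℝ) + 1) :=
      one_div_le_one_div_of_le (by positivity) h4
    have ho := optDensity_nonneg (E := E)
    calc optDensity E / (4 * (n + 1)) * R ^ (n + 1) =
        optDensity E * R ^ (n + 1) * (1 / 4) * (1 / (n + 1)) := by field_simp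
      _ ≤ optDensity E * R ^ (n + 1) * (α ^ n / 2) * (1 / √((n : ℝ) + 1)) := by
          apply mul_le_mul _ h5 (by positivity) (by positivity)
          apply mul_le_mul_of_nonneg_left (by linarith) (by positivity)
      _ = _ := by rw [hL, mul_pow, pow_succ]; field_simp

end

lemma rho_nonneg (n : ℕ) : 0 ≤ rho n := optDensity_nonneg

lemma rho_le_one (n : ℕ) : rho n ≤ 1 := optDensity_le_one

lemma le_rho {n : ℕ} (hn : 0 < n) : (1 / 2) ^ n ≤ rho n := by
  have : NeZero n := ⟨hn.ne'⟩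
  have h := le_optDensity_half (E := EuclideanSpace ℝ (Fin n))
  rwa [finrank_euclideanSpace_fin] at h

lemma rho_pos {n : ℕ} (hn : 0 < n) : 0 < rho n := lt_of_lt_of_le (by positivity) (le_rho hn)

lemma rho_drop {n k : ℕ} (hk : 1 ≤ k) (hkn : k < n) :
    rho n ≤ (n + 2) *
      (1 - (512 * (n : ℝ) ^ 2 * 2 ^ ((n : ℝ) / 2)) ^ (-(2 : ℝ) / k)) ^ ((k : ℝ) / 2) *
      rho (n - k) := by
  obtain ⟨d, rfl⟩ : ∃ d, n = d + k := ⟨n - k, by omega⟩
  have hd : 0 < d := by omega
  rw [Nat.add_sub_cancel]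
  have : NeZero d := ⟨hd.ne'⟩
  have : NeZero k := ⟨by omega⟩
  have h := drop (U := EuclideanSpace ℝ (Fin d)) (V := EuclideanSpace ℝ (Fin k)) (n := d + k)
    finrank_euclideanSpace_fin finrank_euclideanSpace_fin rfl
  rw [optDensity_eq_rho (n := d + k) (by
    rw [finrank_withLp, finrank_euclideanSpace_fin, finrank_euclideanSpace_fin])] at h
  exact h

/-- near-monotonicity -/
lemma rho_near_mono {m n : ℕ} (hm : 0 < m) (hmn : m ≤ n) : rho n ≤ (n + 2) * rho m := by
  rcases hmn.eq_or_lt with rfl | hlt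
  · have := rho_nonneg m
    nlinarith [(Nat.cast_nonneg m : (0 : ℝ) ≤ m)]
  · have h := rho_drop (n := n) (k := n - m) (by omega) (by omega)
    rw [show n - (n - m) = m by omega] at h
    refine h.trans ?_
    apply mul_le_mul_of_nonneg_right _ (rho_nonneg m)
    have h1 : (1 - (512 * (n : ℝ) ^ 2 * 2 ^ ((n : ℝ) / 2)) ^ (-(2 : ℝ) / (n - m : ℕ))) ^
        (((n - m : ℕ) : ℝ) / 2) ≤ 1 := by
      have hn1 : (1 : ℝ) ≤ n := by
        have : 1 ≤ n := by omega
        exact_mod_cast this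
      have hM1 : 1 ≤ 512 * (n : ℝ) ^ 2 * 2 ^ ((n : ℝ) / 2) := by
        have h1 : (1 : ℝ) ≤ 2 ^ ((n : ℝ) / 2) := Real.one_le_rpow (by norm_num) (by positivity)
        have h2 : 1 ≤ 512 * (n : ℝ) ^ 2 := by nlinarith
        nlinarith
      apply Real.rpow_le_one
      · have : (512 * (n : ℝ) ^ 2 * 2 ^ ((n : ℝ) / 2)) ^ (-(2 : ℝ) / (n - m : ℕ)) ≤ 1 := by
          apply Real.rpow_le_one_of_one_le_of_nonpos hM1
          apply div_nonpos_of_nonpos_of_nonneg (by norm_num) (Nat.cast_nonneg _)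
        linarith
      · have : 0 < (512 * (n : ℝ) ^ 2 * 2 ^ ((n : ℝ) / 2)) ^ (-(2 : ℝ) / (n - m : ℕ)) := by
          positivity
        linarith
      · positivity
    nlinarith [(Nat.cast_nonneg n : (0 : ℝ) ≤ n)]

lemma rho_stack {n : ℕ} (hn : 0 < n) : rho n / (4 * (n + 1)) ≤ rho (n + 1) := by
  have : NeZero n := ⟨hn.ne'⟩
  have h := stack (E := EuclideanSpace ℝ (Fin n)) finrank_euclideanSpace_fin
  rwa [optDensity_eq_rho (E := WithLp 2 (EuclideanSpace ℝ (Fin n) × ℝ)) (n := n + 1) (by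
    rw [finrank_withLp, finrank_euclideanSpace_fin, Module.finrank_self])] at h

end Pool.Agent.H818R2
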