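import Pool.Agent.H818R2.Defs

open MeasureTheory Metric Filter Set
open scoped Topology

namespace Pool.Agent.H818R2

/-- volume of the unit ball -/
noncomputable def vb (E : Type*) [NormedAddCommGroup E] [InnerProductSpace ℝ E]
    [FiniteDimensional ℝ E] [MeasurableSpace E] [BorelSpace E] : ℝ := volume.real (ball (0 : E) 1)

/-- `c`-separated finite sets -/
def Sep {E : Type*} [PseudoMetricSpace E] (c : ℝ) (P : Finset E) : Prop :=
  ∀ x ∈ P, ∀ y ∈ P, x ≠ y → c ≤ dist x y

lemma Sep.mono {E : Type*} [PseudoMetricSpace E] {c : ℝ} {P Q : Finset E} (hP : Sep c P)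
    (h : Q ⊆ P) : Sep c Q :=
  fun x hx y hy => hP x (h hx) y (h hy)

section
variable {E : Type*} [NormedAddCommGroup E] [InnerProductSpace ℝ E] [FiniteDimensional ℝ E]
  [MeasurableSpace E] [BorelSpace E]

lemma vb_pos : 0 < vb E := by
  unfold vb
  rw [measureReal_def, ENNReal.toReal_pos_iff]
  exact ⟨measure_ball_pos _ _ one_pos, measure_ball_lt_top⟩

lemma vol_ball (x : E) {R : ℝ} (hR : 0 < R) :
    volume.real (ball x R) = R ^ Module.finrank ℝ E * vb E := by
  rw [measureReal_def, Measure.addHaar_ball_of_pos _ _ hR, ENNReal.toReal_mul,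
    ENNReal.toReal_ofReal (by positivity), vb, measureReal_def]

lemma vol_closedBall (x : E) {R : ℝ} (hR : 0 ≤ R) :
    volume.real (closedBall x R) = R ^ Module.finrank ℝ E * vb E := by
  rw [measureReal_def, Measure.addHaar_closedBall _ _ hR, ENNReal.toReal_mul,
    ENNReal.toReal_ofReal (by positivity), vb, measureReal_def]

lemma disj_of_sep {x y : E} (h : 2 ≤ dist x y) : Disjoint (ball x 1) (ball y 1) := by
  rw [disjoint_ball_ball_iff one_pos one_pos]; linarith

lemma card_le {P : Finset E} (hP : Sep 2 P) {c : E} {R : ℝ} (hR : 0 ≤ R)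
    (hPR : ∀ x ∈ P, dist x c ≤ R) : (P.card : ℝ) ≤ (R + 1) ^ Module.finrank ℝ E := by
  have h1 : volume.real (⋃ x ∈ P, ball x 1) = ∑ x ∈ P, volume.real (ball x (1 : ℝ)) := by
    apply measureReal_biUnion_finset
    · intro x hx y hy hxy
      exact disj_of_sep (hP x hx y hy hxy)
    · intro b _; exact measurableSet_ball
    · intro b _; exact measure_ball_lt_top.ne
  have h2 : volume.real (⋃ x ∈ P, ball x 1) ≤ volume.real (ball c (R + 1)) := by
    apply measureReal_mono
    · apply iUnion₂_subset
      intro x hx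
      apply ball_subset_ball'
      linarith [hPR x hx]
    · exact measure_ball_lt_top.ne
  rw [h1, vol_ball c (by linarith)] at h2
  have h3 : ∀ x ∈ P, volume.real (ball x (1 : ℝ)) = vb E := by
    intro x _; rw [vol_ball x one_pos]; simp
  rw [Finset.sum_congr rfl h3, Finset.sum_const, nsmul_eq_mul] at h2
  exact le_of_mul_le_mul_right h2 vb_pos

/-- Averaging: a separated set in a ball is controlled by the maximal size of separated sets in a
region `G`. -/
lemma region_count {G : Set E} (hGm : MeasurableSet G) {a : ℝ} (ha : 0 ≤ a)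
    (hG : G ⊆ closedBall 0 a) {N : ℕ}
    (hN : ∀ P : Finset E, Sep 2 P → (P : Set E) ⊆ G → P.card ≤ N)
    {F : Finset E} (hF : Sep 2 F) {T : ℝ} (hT : 0 ≤ T) (hFT : ∀ x ∈ F, ‖x‖ ≤ T) :
    F.card * volume.real G ≤ N * ((T + a) ^ Module.finrank ℝ E * vb E) := by
  classical
  have hfin : volume G ≠ ⊤ :=
    ((measure_mono hG).trans_lt measure_closedBall_lt_top).ne
  have key : ∑ x ∈ F, ∫⁻ z, indicator {z | x - z ∈ G} (fun _ => (1 : ENNReal)) z
      ≤ ∫⁻ z, indicator (closedBall (0 : E) (T + a)) (fun _ => (N : ENNReal)) z := by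
    rw [← lintegral_finsetSum]
    · apply lintegral_mono
      intro z
      have e1 : ∑ x ∈ F, indicator {z | x - z ∈ G} (fun _ => (1 : ENNReal)) z
          = ((F.filter (fun x => x - z ∈ G)).card : ENNReal) := by
        rw [Finset.card_filter, Nat.cast_sum]
        apply Finset.sum_congr rfl
        intro x _
        by_cases h : x - z ∈ G <;> simp [indicator, h]
      simp only [e1]
      by_cases hz : z ∈ closedBall (0 : E) (T + a)
      · rw [indicator_of_mem hz]
        have : (F.filter (fun x => x - z ∈ G)).card ≤ N := by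
          have h2 := hN ((F.filter (fun x => x - z ∈ G)).image (fun x => x - z)) ?_ ?_
          · rwa [Finset.card_image_of_injective _ (sub_left_injective)] at h2
          · intro u hu v hv huv
            simp only [Finset.mem_image, Finset.mem_filter] at hu hv
            obtain ⟨x, ⟨hx, -⟩, rfl⟩ := hu
            obtain ⟨y, ⟨hy, -⟩, rfl⟩ := hv
            rw [dist_sub_right]
            exact hF x hx y hy (fun h => huv (by rw [h]))
          · intro u hu
            simp only [Finset.coe_image, Finset.coe_filter, mem_image, mem_ofPred_eq] at hu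
            obtain ⟨x, ⟨-, hx⟩, rfl⟩ := hu
            exact hx
        exact_mod_cast this
      · have : F.filter (fun x => x - z ∈ G) = ∅ := by
          apply Finset.filter_eq_empty_iff.2
          intro x hx hxz
          apply hz
          have h3 := hG hxz
          rw [mem_closedBall_zero_iff] at h3 ⊢
          have h4 := hFT x hx
          calc ‖z‖ = ‖x - (x - z)‖ := by congr 1; abel
            _ ≤ ‖x‖ + ‖x - z‖ := norm_sub_le _ _
            _ ≤ T + a := by linarith
        rw [this]; simp
    · intro x _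
      apply Measurable.indicator measurable_const
      exact (measurable_const.sub measurable_id) hGm
  have e2 : ∀ x ∈ F, ∫⁻ z, indicator {z | x - z ∈ G} (fun _ => (1 : ENNReal)) z = volume G := by
    intro x _
    have hm : MeasurableSet {z : E | x - z ∈ G} := (measurable_const.sub measurable_id) hGm
    rw [lintegral_indicator_const hm, one_mul]
    exact (Measure.measurePreserving_sub_left volume x).measure_preimage hGm.nullMeasurableSet
  rw [Finset.sum_congr rfl e2, Finset.sum_const, lintegral_indicator_const measurableSet_closedBall,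
    nsmul_eq_mul] at key
  have h5 := ENNReal.toReal_mono (by
    exact ENNReal.mul_ne_top (ENNReal.natCast_ne_top N) measure_closedBall_lt_top.ne) key
  rw [ENNReal.toReal_mul, ENNReal.toReal_mul, ENNReal.toReal_natCast, ENNReal.toReal_natCast,
    ← measureReal_def, ← measureReal_def, vol_closedBall _ (by linarith)] at h5
  exact h5


lemma sep_of_packing {X : Set E} (hX : IsPacking X 1) {x y : E} (hx : x ∈ X) (hy : y ∈ X)
    (hxy : x ≠ y) : 2 ≤ dist x y := by
  have h := hX.2 hx hy hxy
  simp only [Function.onFun] at h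
  rw [disjoint_ball_ball_iff one_pos one_pos] at h
  linarith

lemma finite_inter {X : Set E} (hX : IsPacking X 1) (T : ℝ) : (X ∩ closedBall 0 T).Finite := by
  by_contra hinf
  have hinf : (X ∩ closedBall 0 T).Infinite := hinf
  obtain ⟨m, hm⟩ := exists_nat_gt ((max T 0 + 1) ^ Module.finrank ℝ E)
  obtain ⟨P, hP, hPm⟩ := hinf.exists_subset_card_eq m
  have h1 : Sep 2 P := fun x hx y hy hxy => sep_of_packing hX (hP hx).1 (hP hy).1 hxy
  have h2 := card_le h1 (c := 0) (R := max T 0) (le_max_right _ _)
    (fun x hx => (mem_closedBall.1 (hP hx).2).trans (le_max_left _ _))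
  rw [hPm] at h2
  linarith

lemma body_le {X : Set E} (hX : IsPacking X 1) (R : ℝ) :
    volume.real (ball (0 : E) R ∩ body X 1)
      ≤ ((finite_inter hX (R + 1)).toFinset.card : ℝ) * vb E := by
  have h2 : volume.real (ball (0 : E) R ∩ body X 1)
      ≤ volume.real (⋃ x ∈ (finite_inter hX (R + 1)).toFinset, ball x (1 : ℝ)) := by
    apply measureReal_mono
    · rintro z ⟨hz, hzX⟩
      simp only [body, mem_iUnion, exists_prop] at hzX
      obtain ⟨x, hx, hxz⟩ := hzX
      simp only [mem_iUnion, exists_prop]
      refine ⟨x, ?_, hxz⟩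
      simp only [Finite.mem_toFinset, mem_inter_iff, mem_closedBall_zero_iff]
      refine ⟨hx, ?_⟩
      rw [mem_ball_zero_iff] at hz
      rw [mem_ball, dist_comm, dist_eq_norm] at hxz
      calc ‖x‖ = ‖z + (x - z)‖ := by congr 1; abel
        _ ≤ ‖z‖ + ‖x - z‖ := norm_add_le _ _
        _ ≤ R + 1 := by linarith
    · refine ((measure_biUnion_lt_top (Finset.finite_toSet _) ?_)).ne
      intro i _; exact measure_ball_lt_top
  refine h2.trans ((measureReal_biUnion_finset_le _ _).trans ?_)
  rw [Finset.sum_congr rfl (fun x _ => vol_ball x one_pos)]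
  simp

lemma le_body {X : Set E} (hX : IsPacking X 1) {T : ℝ} {F : Finset E} (hF : ↑F ⊆ X)
    (hFT : ∀ x ∈ F, ‖x‖ ≤ T) :
    (F.card : ℝ) * vb E ≤ volume.real (ball (0 : E) (T + 1) ∩ body X 1) := by
  have h1 : volume.real (⋃ x ∈ F, ball x (1 : ℝ)) = ∑ x ∈ F, volume.real (ball x (1 : ℝ)) := by
    apply measureReal_biUnion_finset
    · intro x hx y hy hxy
      exact disj_of_sep (sep_of_packing hX (hF hx) (hF hy) hxy)
    · intro b _; exact measurableSet_ball
    · intro b _; exact measure_ball_lt_top.ne
  rw [Finset.sum_congr rfl (fun x _ => vol_ball x one_pos)] at h1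
  simp only [one_pow, one_mul, Finset.sum_const, nsmul_eq_mul] at h1
  rw [← h1]
  apply measureReal_mono
  · apply iUnion₂_subset
    intro x hx
    apply subset_inter
    · apply ball_subset_ball'
      rw [dist_zero_right]
      linarith [hFT x hx]
    · exact subset_biUnion_of_mem (u := fun x => ball x (1 : ℝ)) (hF hx)
  · exact ((measure_mono inter_subset_left).trans_lt measure_ball_lt_top).ne

lemma ratio_nonneg (X : Set E) (r R : ℝ) :
    0 ≤ volume.real (ball (0 : E) R ∩ body X r) / volume.real (ball (0 : E) R) := by positivity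

lemma ratio_le_one (X : Set E) (r R : ℝ) :
    volume.real (ball (0 : E) R ∩ body X r) / volume.real (ball (0 : E) R) ≤ 1 := by
  apply div_le_one_of_le₀
  · exact measureReal_mono inter_subset_left measure_ball_lt_top.ne
  · positivity

lemma ratio_bdd (X : Set E) (r : ℝ) : IsBoundedUnder (· ≤ ·) atTop
    (fun R : ℝ => volume.real (ball (0 : E) R ∩ body X r) / volume.real (ball (0 : E) R)) :=
  isBoundedUnder_of ⟨1, fun R => ratio_le_one X r R⟩

lemma ratio_cobdd (X : Set E) (r : ℝ) : IsCoboundedUnder (· ≤ ·) atTop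
    (fun R : ℝ => volume.real (ball (0 : E) R ∩ body X r) / volume.real (ball (0 : E) R)) :=
  (isBoundedUnder_of ⟨0, fun R => ratio_nonneg X r R⟩ :
    IsBoundedUnder (· ≥ ·) atTop _).isCoboundedUnder_le

lemma upperDensity_le_one (X : Set E) (r : ℝ) : upperDensity X r ≤ 1 :=
  limsup_le_of_le (ratio_cobdd X r) (Eventually.of_forall fun R => ratio_le_one X r R)

lemma upperDensity_nonneg (X : Set E) (r : ℝ) : 0 ≤ upperDensity X r :=
  le_limsup_of_frequently_le (Eventually.of_forall fun R => ratio_nonneg X r R).frequently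
    (ratio_bdd X r)

lemma bddAbove_dens : BddAbove {δ | ∃ (X : Set E) (r : ℝ), IsPacking X r ∧ upperDensity X r = δ} := by
  refine ⟨1, ?_⟩
  rintro δ ⟨X, r, -, rfl⟩
  exact upperDensity_le_one X r

lemma isPacking_empty : IsPacking (∅ : Set E) 1 := ⟨one_pos, by simp [Set.PairwiseDisjoint]⟩

lemma optDensity_nonneg : 0 ≤ optDensity E :=
  le_csSup_of_le bddAbove_dens ⟨∅, 1, isPacking_empty, rfl⟩ (upperDensity_nonneg _ _)

lemma upperDensity_le {X : Set E} (hX : IsPacking X 1) {G : Set E} (hGm : MeasurableSet G)
    {a : ℝ} (ha : 0 ≤ a) (hG : G ⊆ closedBall 0 a) (hG0 : 0 < volume.real G) {N : ℕ}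
    (hN : ∀ P : Finset E, Sep 2 P → (P : Set E) ⊆ G → P.card ≤ N) :
    upperDensity X 1 ≤ N * vb E / volume.real G := by
  set n := Module.finrank ℝ E with hn
  have h1 : ∀ᶠ R : ℝ in atTop,
      volume.real (ball (0 : E) R ∩ body X 1) / volume.real (ball (0 : E) R)
      ≤ N * vb E / volume.real G * ((R + 1 + a) / R) ^ n := by
    filter_upwards [eventually_gt_atTop 0] with R hR
    have h2 := body_le hX R
    have h3 := region_count hGm ha hG hN (F := (finite_inter hX (R + 1)).toFinset)
      (fun x hx y hy hxy => by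
        simp only [Finite.mem_toFinset] at hx hy
        exact sep_of_packing hX hx.1 hy.1 hxy) (T := R + 1) (by linarith)
      (fun x hx => by
        simp only [Finite.mem_toFinset, mem_inter_iff, mem_closedBall_zero_iff] at hx
        exact hx.2)
    rw [vol_ball 0 hR]
    have h4 : ((finite_inter hX (R + 1)).toFinset.card : ℝ)
        ≤ N * ((R + 1 + a) ^ n * vb E) / volume.real G := by
      rw [le_div_iff₀ hG0]; exact h3
    calc volume.real (ball (0 : E) R ∩ body X 1) / (R ^ n * vb E)
        ≤ (N * ((R + 1 + a) ^ n * vb E) / volume.real G * vb E) / (R ^ n * vb E) := by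
          apply div_le_div_of_nonneg_right _ (by have := vb_pos (E := E); positivity)
          exact h2.trans (mul_le_mul_of_nonneg_right h4 vb_pos.le)
      _ = N * vb E / volume.real G * ((R + 1 + a) / R) ^ n := by
          have := (vb_pos (E := E)).ne'
          rw [div_pow]; field_simp
  have h5 : Tendsto (fun R : ℝ => N * vb E / volume.real G * ((R + 1 + a) / R) ^ n) atTop
      (𝓝 (N * vb E / volume.real G * 1 ^ n)) := by
    apply Tendsto.const_mul
    apply Tendsto.pow
    have : Tendsto (fun R : ℝ => 1 + (1 + a) / R) atTop (𝓝 (1 + 0)) :=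
      tendsto_const_nhds.add (tendsto_const_nhds.div_atTop tendsto_id)
    rw [add_zero] at this
    refine this.congr' ?_
    filter_upwards [eventually_gt_atTop 0] with R hR
    field_simp
    ring
  rw [one_pow, mul_one] at h5
  calc upperDensity X 1 ≤ limsup (fun R : ℝ => N * vb E / volume.real G * ((R + 1 + a) / R) ^ n)
        atTop := limsup_le_limsup h1 (ratio_cobdd X 1) h5.isBoundedUnder_le
    _ = _ := h5.limsup_eq

end

end Pool.Agent.H818R2
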