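import Pool.Agent.H818R2.Base

open MeasureTheory Metric Filter Set
open scoped Topology Pointwise

namespace Pool.Agent.H818R2

section
variable {E : Type*} [NormedAddCommGroup E] [InnerProductSpace ℝ E] [FiniteDimensional ℝ E]
  [MeasurableSpace E] [BorelSpace E]

lemma smul_ball_eq {c : ℝ} (hc : 0 < c) (x : E) (r : ℝ) :
    ball (c • x) (c * r) = c • ball x r := by
  rw [_root_.smul_ball hc.ne', Real.norm_of_nonneg hc.le]

lemma isPacking_smul {X : Set E} {r c : ℝ} (hX : IsPacking X r) (hc : 0 < c) :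
    IsPacking (c • X) (c * r) := by
  refine ⟨mul_pos hc hX.1, ?_⟩
  rintro u hu v hv huv
  obtain ⟨x, hx, rfl⟩ := mem_smul_set.1 hu
  obtain ⟨y, hy, rfl⟩ := mem_smul_set.1 hv
  have hxy : x ≠ y := fun h => huv (by rw [h])
  have := hX.2 hx hy hxy
  simp only [Function.onFun] at this ⊢
  rw [smul_ball_eq hc, smul_ball_eq hc]
  rw [Set.disjoint_iff_inter_eq_empty] at this ⊢
  rw [← Set.smul_set_inter₀ hc.ne', this, smul_set_empty]

lemma body_smul {X : Set E} {r c : ℝ} (hc : 0 < c) : body (c • X) (c * r) = c • body X r := by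
  unfold body
  ext z
  simp only [mem_iUnion, exists_prop]
  constructor
  · rintro ⟨u, hu, hz⟩
    obtain ⟨x, hx, rfl⟩ := mem_smul_set.1 hu
    rw [smul_ball_eq hc] at hz
    obtain ⟨w, hw, rfl⟩ := mem_smul_set.1 hz
    exact mem_smul_set.2 ⟨w, by simp only [mem_iUnion, exists_prop]; exact ⟨x, hx, hw⟩, rfl⟩
  · intro hz
    obtain ⟨w, hw, rfl⟩ := mem_smul_set.1 hz
    simp only [mem_iUnion, exists_prop] at hw
    obtain ⟨x, hx, hw⟩ := hw
    refine ⟨c • x, smul_mem_smul_set hx, ?_⟩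
    rw [smul_ball_eq hc]
    exact smul_mem_smul_set hw

lemma upperDensity_smul {X : Set E} {r c : ℝ} (hc : 0 < c) :
    upperDensity (c • X) (c * r) = upperDensity X r := by
  unfold upperDensity
  have h1 : (fun R : ℝ => volume.real (ball (0 : E) R ∩ body X r) / volume.real (ball (0 : E) R))
      = (fun R : ℝ => volume.real (ball (0 : E) R ∩ body (c • X) (c * r)) /
        volume.real (ball (0 : E) R)) ∘ (fun R => R * c) := by
    funext R
    simp only [Function.comp]
    rw [body_smul hc, show ball (0 : E) (R * c) = c • ball (0 : E) R by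
      rw [← smul_ball_eq hc, smul_zero, mul_comm], ← Set.smul_set_inter₀ hc.ne',
      measureReal_def, measureReal_def, measureReal_def, measureReal_def,
      Measure.addHaar_smul, Measure.addHaar_smul, ENNReal.toReal_mul, ENNReal.toReal_mul]
    rw [mul_div_mul_left]
    rw [ENNReal.toReal_ofReal (abs_nonneg _)]
    positivity
  rw [h1]
  conv_rhs => rw [limsup, ← Filter.map_map]
  have h2 : Filter.map (fun R : ℝ => R * c) atTop = atTop :=
    OrderIso.map_atTop (OrderIso.mulRight₀ c hc)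
  rw [h2]; rfl

/-- it is enough to consider radius one -/
lemma exists_radius_one {X : Set E} {r : ℝ} (hX : IsPacking X r) :
    ∃ Y : Set E, IsPacking Y 1 ∧ upperDensity Y 1 = upperDensity X r := by
  refine ⟨r⁻¹ • X, ?_, ?_⟩
  · have := isPacking_smul hX (inv_pos.2 hX.1)
    rwa [inv_mul_cancel₀ hX.1.ne'] at this
  · have := upperDensity_smul (X := X) (r := r) (inv_pos.2 hX.1)
    rwa [inv_mul_cancel₀ hX.1.ne'] at this

lemma le_optDensity {X : Set E} {r : ℝ} (hX : IsPacking X r) : upperDensity X r ≤ optDensity E :=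
  le_csSup bddAbove_dens ⟨X, r, hX, rfl⟩

lemma optDensity_le {G : Set E} (hGm : MeasurableSet G)
    {a : ℝ} (ha : 0 ≤ a) (hG : G ⊆ closedBall 0 a) (hG0 : 0 < volume.real G) {N : ℕ}
    (hN : ∀ P : Finset E, Sep 2 P → (P : Set E) ⊆ G → P.card ≤ N) :
    optDensity E ≤ N * vb E / volume.real G := by
  refine csSup_le (s := {δ | ∃ (X : Set E) (r : ℝ), IsPacking X r ∧ upperDensity X r = δ})
    ⟨upperDensity (∅ : Set E) 1, ∅, 1, isPacking_empty, rfl⟩ ?_
  rintro δ ⟨X, r, hX, rfl⟩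
  obtain ⟨Y, hY, hYX⟩ := exists_radius_one hX
  rw [← hYX]
  exact upperDensity_le hY hGm ha hG hG0 hN

lemma exists_max {G : Set E} {a : ℝ} (ha : 0 ≤ a) (hG : G ⊆ closedBall 0 a) :
    ∃ P : Finset E, Sep 2 P ∧ (P : Set E) ⊆ G ∧
      ∀ Q : Finset E, Sep 2 Q → (Q : Set E) ⊆ G → Q.card ≤ P.card := by
  set S : Set ℕ := {m | ∃ P : Finset E, Sep 2 P ∧ (P : Set E) ⊆ G ∧ P.card = m} with hS
  have hne : S.Nonempty := ⟨0, ∅, by intro x hx; simp at hx, by simp, by simp⟩
  have hbd : BddAbove S := by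
    refine ⟨⌈(a + 1) ^ Module.finrank ℝ E⌉₊, ?_⟩
    rintro m ⟨P, hP, hPG, rfl⟩
    have := card_le hP (c := 0) ha (fun x hx => mem_closedBall.1 (hG (hPG hx)))
    exact_mod_cast this.trans (Nat.le_ceil _)
  obtain ⟨P, hP, hPG, hPc⟩ := Nat.sSup_mem hne hbd
  refine ⟨P, hP, hPG, ?_⟩
  intro Q hQ hQG
  rw [hPc]
  exact le_csSup hbd ⟨Q, hQ, hQG, rfl⟩

/-- every bounded region contains a large separated set -/
lemma exists_large {G : Set E} (hGm : MeasurableSet G)
    {a : ℝ} (ha : 0 ≤ a) (hG : G ⊆ closedBall 0 a) (hG0 : 0 < volume.real G) :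
    ∃ P : Finset E, Sep 2 P ∧ (P : Set E) ⊆ G ∧
      optDensity E * volume.real G ≤ P.card * vb E := by
  obtain ⟨P, hP, hPG, hmax⟩ := exists_max ha hG
  refine ⟨P, hP, hPG, ?_⟩
  have := optDensity_le hGm ha hG hG0 (N := P.card) hmax
  rwa [le_div_iff₀ hG0] at this

/-- rapidly growing radii -/
noncomputable def rad (R0 : ℝ) : ℕ → ℝ
  | 0 => R0
  | (j + 1) => (j + 2) * (rad R0 j + 3)

lemma rad_ge {R0 : ℝ} (h0 : 1 ≤ R0) (j : ℕ) : R0 + j ≤ rad R0 j := by
  induction j with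
  | zero => simp [rad]
  | succ j ih =>
    simp only [rad]
    push_cast
    have hj : (0 : ℝ) ≤ j := Nat.cast_nonneg j
    nlinarith

lemma rad_step {R0 : ℝ} (h0 : 1 ≤ R0) (j : ℕ) : rad R0 j + 3 ≤ rad R0 (j + 1) := by
  have h := rad_ge h0 j
  have hj : (0 : ℝ) ≤ j := Nat.cast_nonneg j
  simp only [rad]
  nlinarith

lemma rad_mono {R0 : ℝ} (h0 : 1 ≤ R0) {i j : ℕ} (hij : i ≤ j) : rad R0 i ≤ rad R0 j := by
  induction hij with
  | refl => exact le_rfl
  | step _ ih => exact ih.trans (by have := rad_step h0; linarith [this ‹_›])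

/-- The gluing lemma: large separated sets in all large balls give a dense packing. -/
lemma glue [Nontrivial E] {a : ℝ} {R0 : ℝ}
    (h : ∀ R : ℝ, R0 ≤ R → ∃ P : Finset E, Sep 2 P ∧ (∀ x ∈ P, ‖x‖ ≤ R) ∧
      a * R ^ Module.finrank ℝ E ≤ P.card) :
    a ≤ optDensity E := by
  classical
  wlog hR0 : 1 ≤ R0 generalizing R0
  · exact this (R0 := max R0 1) (fun R hR => h R ((le_max_left _ _).trans hR)) (le_max_right _ _)
  set n := Module.finrank ℝ E with hn
  have hn0 : n ≠ 0 := Module.finrank_pos.ne'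
  choose! P hPs hPR hPc using h
  set ρ : ℕ → ℝ := rad R0 with hρ
  have hρ0 : ∀ j, R0 ≤ ρ j := fun j => by
    have := rad_ge hR0 j
    have hj : (0 : ℝ) ≤ j := Nat.cast_nonneg j
    linarith
  -- the packing
  set X : Set E := {x | ∃ j : ℕ, x ∈ P (ρ (j + 1)) ∧ ρ j + 2 < ‖x‖} with hX
  have hsep : ∀ x ∈ X, ∀ y ∈ X, x ≠ y → 2 ≤ dist x y := by
    have aux : ∀ i j : ℕ, i < j → ∀ x y : E, x ∈ P (ρ (i + 1)) → ρ j + 2 < ‖y‖ →
        2 ≤ dist x y := by
      intro i j hij x y hx hy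
      have h1 : ‖x‖ ≤ ρ (i + 1) := hPR _ (hρ0 _) x hx
      have h2 : ρ (i + 1) ≤ ρ j := rad_mono hR0 hij
      rw [dist_comm, dist_eq_norm]
      have := norm_sub_norm_le y x
      linarith
    rintro x ⟨i, hx, hx'⟩ y ⟨j, hy, hy'⟩ hxy
    rcases lt_trichotomy i j with hij | hij | hij
    · exact aux i j hij x y hx hy'
    · subst hij
      exact hPs _ (hρ0 _) x hx y hy hxy
    · rw [dist_comm]; exact aux j i hij y x hy hx'
  have hpack : IsPacking X 1 := ⟨one_pos, fun x hx y hy hxy => disj_of_sep (hsep x hx y hy hxy)⟩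
  refine le_trans ?_ (le_optDensity hpack)
  -- lower bound along the sequence `ρ (j+1) + 1`
  have key : ∀ j : ℕ, (a * ρ (j + 1) ^ n - (ρ j + 3) ^ n) / (ρ (j + 1) + 1) ^ n ≤
      volume.real (ball (0 : E) (ρ (j + 1) + 1) ∩ body X 1) /
        volume.real (ball (0 : E) (ρ (j + 1) + 1)) := by
    intro j
    have hpos : 0 < ρ (j + 1) + 1 := by have := hρ0 (j + 1); linarith
    set F := (P (ρ (j + 1))).filter (fun x => ρ j + 2 < ‖x‖) with hF
    have h1 := le_body hpack (T := ρ (j + 1)) (F := F)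
      (fun x hx => by
        simp only [hF, Finset.coe_filter, mem_ofPred_eq] at hx
        exact ⟨j, hx.1, hx.2⟩)
      (fun x hx => hPR _ (hρ0 _) x (Finset.mem_filter.1 hx).1)
    have h2 : ((P (ρ (j + 1))).filter (fun x => ¬ ρ j + 2 < ‖x‖)).card ≤ (ρ j + 3) ^ n := by
      have := card_le (c := (0 : E)) (R := ρ j + 2)
        ((hPs _ (hρ0 (j + 1))).mono (Finset.filter_subset (fun x => ¬ ρ j + 2 < ‖x‖) _))
        (by have := hρ0 j; linarith)
        (fun x hx => by
          rw [dist_zero_right]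
          exact not_lt.1 (Finset.mem_filter.1 hx).2)
      refine this.trans (le_of_eq ?_)
      ring
    have h3 : (F.card : ℝ) + ((P (ρ (j + 1))).filter (fun x => ¬ ρ j + 2 < ‖x‖)).card
        = (P (ρ (j + 1))).card := by
      exact_mod_cast Finset.card_filter_add_card_filter_not _
    have h4 := hPc _ (hρ0 (j + 1))
    rw [vol_ball 0 hpos, div_le_div_iff₀ (by positivity) (by have := vb_pos (E := E); positivity)]
    have h5 : a * ρ (j + 1) ^ n - (ρ j + 3) ^ n ≤ F.card := by linarith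
    calc (a * ρ (j + 1) ^ n - (ρ j + 3) ^ n) * ((ρ (j + 1) + 1) ^ n * vb E)
        ≤ F.card * ((ρ (j + 1) + 1) ^ n * vb E) :=
          mul_le_mul_of_nonneg_right h5 (by have := vb_pos (E := E); positivity)
      _ = (F.card * vb E) * (ρ (j + 1) + 1) ^ n := by ring
      _ ≤ _ := mul_le_mul_of_nonneg_right h1 (by positivity)
  -- the lower bounds tend to `a`
  have hρtop : Tendsto ρ atTop atTop := by
    apply tendsto_atTop_mono (fun j => ?_) (tendsto_natCast_atTop_atTop (R := ℝ))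
    have := rad_ge hR0 j
    have hj : (0 : ℝ) ≤ j := Nat.cast_nonneg j
    linarith
  have hlim : Tendsto (fun j : ℕ => (a * ρ (j + 1) ^ n - (ρ j + 3) ^ n) / (ρ (j + 1) + 1) ^ n)
      atTop (𝓝 a) := by
    have e1 : Tendsto (fun j : ℕ => ρ (j + 1) / (ρ (j + 1) + 1)) atTop (𝓝 1) := by
      have h1 : Tendsto (fun j : ℕ => 1 - 1 / (ρ (j + 1) + 1)) atTop (𝓝 (1 - 0)) := by
        apply tendsto_const_nhds.sub
        apply tendsto_const_nhds.div_atTop
        exact tendsto_atTop_add_const_right _ _ (hρtop.comp (tendsto_add_atTop_nat 1))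
      rw [sub_zero] at h1
      refine h1.congr (fun j => ?_)
      have : 0 < ρ (j + 1) + 1 := by have := hρ0 (j + 1); linarith
      field_simp
      ring
    have e2 : Tendsto (fun j : ℕ => (ρ j + 3) / (ρ (j + 1) + 1)) atTop (𝓝 0) := by
      have h1 : Tendsto (fun j : ℕ => (1 : ℝ) / (j + 1)) atTop (𝓝 0) :=
        tendsto_one_div_add_atTop_nhds_zero_nat
      refine squeeze_zero (fun j => ?_) (fun j => ?_) h1
      · have h1 := hρ0 j
        have h2 := hρ0 (j + 1)
        exact div_nonneg (by linarith) (by linarith)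
      · have h2 := hρ0 j; have := hρ0 (j + 1)
        have hj : (0 : ℝ) ≤ j := Nat.cast_nonneg j
        rw [div_le_div_iff₀ (by linarith) (by positivity)]
        have : ρ (j + 1) = (j + 2) * (ρ j + 3) := rfl
        rw [this]; nlinarith
    have e3 : Tendsto (fun j : ℕ => a * (ρ (j + 1) / (ρ (j + 1) + 1)) ^ n -
        ((ρ j + 3) / (ρ (j + 1) + 1)) ^ n) atTop (𝓝 (a * 1 ^ n - 0 ^ n)) :=
      ((e1.pow n).const_mul a).sub (e2.pow n)
    rw [one_pow, mul_one, zero_pow hn0, sub_zero] at e3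
    refine e3.congr (fun j => ?_)
    have : 0 < ρ (j + 1) + 1 := by have := hρ0 (j + 1); linarith
    rw [div_pow, div_pow, sub_div, mul_div_assoc]
  apply le_of_forall_lt
  intro c hc
  have h6 : ∀ᶠ j : ℕ in atTop, c < (a * ρ (j + 1) ^ n - (ρ j + 3) ^ n) / (ρ (j + 1) + 1) ^ n :=
    hlim.eventually (lt_mem_nhds hc)
  obtain ⟨c', hc', hc'a⟩ := exists_between hc
  have h7 : ∀ᶠ j : ℕ in atTop, c' < (a * ρ (j + 1) ^ n - (ρ j + 3) ^ n) / (ρ (j + 1) + 1) ^ n :=
    hlim.eventually (lt_mem_nhds hc'a)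
  refine lt_of_lt_of_le hc' ?_
  apply le_limsup_of_frequently_le _ (ratio_bdd X 1)
  have h8 : Tendsto (fun j : ℕ => ρ (j + 1) + 1) atTop atTop :=
    tendsto_atTop_add_const_right _ _ (hρtop.comp (tendsto_add_atTop_nat 1))
  apply h8.frequently
  apply Eventually.frequently
  filter_upwards [h7] with j hj
  exact hj.le.trans (key j)

end

end Pool.Agent.H818R2
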