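import Pool.Agent.H818R2.Rankin
import Pool.Agent.H818R2.Beta

open MeasureTheory Metric Filter Set
open scoped Topology

namespace Pool.Agent.H818R2

lemma sqrt_pow_eq {a : ℝ} (ha : 0 ≤ a) (k : ℕ) : √a ^ k = a ^ ((k : ℝ) / 2) := by
  rw [Real.sqrt_eq_rpow, ← Real.rpow_natCast, ← Real.rpow_mul ha]
  congr 1; ring

lemma sqrt_pow_le {q h : ℝ} (hq0 : 0 < q) (hq1 : q ≤ 1) (hh : 0 ≤ h) {k m : ℕ} (hk : 0 < k)
    (hm : q * m ≤ k) : √(q - h) ^ k ≤ √q ^ k * √(1 - h) ^ m := by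
  rcases le_or_gt q h with hqh | hqh
  · rw [Real.sqrt_eq_zero_of_nonpos (by linarith), zero_pow hk.ne']
    positivity
  · have h1 : 0 < 1 - h := by linarith
    have h2 : h / q < 1 := by rwa [div_lt_one hq0]
    have h3 : q - h = q * (1 - h / q) := by field_simp
    rw [h3, Real.sqrt_mul hq0.le, mul_pow]
    apply mul_le_mul_of_nonneg_left _ (by positivity)
    rw [sqrt_pow_eq (by linarith), sqrt_pow_eq h1.le]
    have h4 := one_add_mul_self_le_rpow_one_add (s := -h) (p := 1 / q) (by linarith)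
      (by rw [le_div_iff₀ hq0]; linarith)
    have h5 : 1 + 1 / q * -h = 1 - h / q := by ring
    rw [h5, ← sub_eq_add_neg] at h4
    calc (1 - h / q) ^ ((k : ℝ) / 2) ≤ ((1 - h) ^ (1 / q)) ^ ((k : ℝ) / 2) :=
          Real.rpow_le_rpow (by linarith) h4 (by positivity)
      _ = (1 - h) ^ (1 / q * ((k : ℝ) / 2)) := by rw [← Real.rpow_mul h1.le]
      _ ≤ (1 - h) ^ ((m : ℝ) / 2) := by
          apply Real.rpow_le_rpow_of_exponent_ge h1 (by linarith)
          rw [div_mul_div_comm, one_mul, div_le_div_iff₀ (by norm_num) (by positivity)]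
          nlinarith

section
variable {U V : Type*} [NormedAddCommGroup U] [InnerProductSpace ℝ U] [FiniteDimensional ℝ U]
  [MeasurableSpace U] [BorelSpace U]
  [NormedAddCommGroup V] [InnerProductSpace ℝ V] [FiniteDimensional ℝ V]
  [MeasurableSpace V] [BorelSpace V]

open Classical in
lemma conf_sum [Nontrivial V] {P : Finset (WithLp 2 (U × V))} (hP : Sep 2 P) {t D q : ℝ}
    (ht : 0 < t) (hq : t ^ 2 - (4 - D) / 4 = q) (hq0 : 0 < q) (hq1 : q ≤ 1)
    (hqk : q * ((Module.finrank ℝ (WithLp 2 (U × V)) + 3 : ℕ) : ℝ) ≤ Module.finrank ℝ V)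
    {p : WithLp 2 (U × V)} (hp : p ∈ P) :
    ∑ p' ∈ P.filter (fun p' => p ≠ p' ∧ dist p.fst p'.fst ^ 2 < D),
      volume.real (closedBall p.snd t ∩ closedBall p'.snd t) ≤
    √q ^ Module.finrank ℝ V * (√2 ^ (Module.finrank ℝ (WithLp 2 (U × V)) + 3) *
      (75 * (Module.finrank ℝ (WithLp 2 (U × V)) : ℝ) ^ 2)) * vb V := by
  set n := Module.finrank ℝ (WithLp 2 (U × V)) with hn
  set k := Module.finrank ℝ V with hk
  have hk0 : 0 < k := Module.finrank_pos
  have hv := vb_pos (E := V)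
  set A := P.filter (fun p' => p ≠ p' ∧ dist p.fst p'.fst ^ 2 < D) with hA
  have h1 : ∀ p' ∈ A, volume.real (closedBall p.snd t ∩ closedBall p'.snd t) ≤
      √q ^ k * √2 ^ (n + 3) * vb V * √(1 - ‖p' - p‖ ^ 2 / 8) ^ (n + 3) := by
    intro p' hp'
    obtain ⟨hp'P, hne, hlt⟩ := Finset.mem_filter.1 hp'
    have hds := dist_sq p p'
    have hge : 2 ≤ dist p p' := hP p hp p' hp'P hne
    have hnorm : ‖p' - p‖ = dist p p' := by rw [dist_comm, dist_eq_norm]
    refine (overlap p.snd p'.snd ht.le (q := t ^ 2 - dist p.snd p'.snd ^ 2 / 4) le_rfl).trans ?_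
    have h2 : √(t ^ 2 - dist p.snd p'.snd ^ 2 / 4) ^ k ≤
        √q ^ k * √(1 - (‖p' - p‖ ^ 2 / 4 - 1)) ^ (n + 3) := by
      refine le_trans ?_ (sqrt_pow_le hq0 hq1 (h := ‖p' - p‖ ^ 2 / 4 - 1) ?_ hk0 hqk)
      · apply pow_le_pow_left₀ (Real.sqrt_nonneg _)
        apply Real.sqrt_le_sqrt
        rw [hnorm]; linarith
      · rw [hnorm]; nlinarith
    have h3 : √(1 - (‖p' - p‖ ^ 2 / 4 - 1)) = √2 * √(1 - ‖p' - p‖ ^ 2 / 8) := by
      rw [← Real.sqrt_mul (by norm_num)]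
      congr 1; ring
    rw [h3, mul_pow] at h2
    calc √(t ^ 2 - dist p.snd p'.snd ^ 2 / 4) ^ k * vb V ≤ _ :=
          mul_le_mul_of_nonneg_right h2 hv.le
      _ = _ := by ring
  refine (Finset.sum_le_sum h1).trans ?_
  rw [← Finset.mul_sum]
  have h2 : ∑ p' ∈ A, √(1 - ‖p' - p‖ ^ 2 / 8) ^ (n + 3) =
      ∑ x ∈ A.image (fun p' => p' - p), √(1 - ‖x‖ ^ 2 / 8) ^ (n + 3) := by
    rw [Finset.sum_image]
    intro a _ b _ hab
    exact sub_left_injective hab
  have h3 : Sep 2 (A.image (fun p' => p' - p)) := by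
    intro x hx y hy hxy
    obtain ⟨a, ha, rfl⟩ := Finset.mem_image.1 hx
    obtain ⟨b, hb, rfl⟩ := Finset.mem_image.1 hy
    rw [dist_sub_right]
    exact hP a (Finset.mem_filter.1 ha).1 b (Finset.mem_filter.1 hb).1 (fun h => hxy (by rw [h]))
  have h4 : ∀ x ∈ A.image (fun p' => p' - p), 2 ≤ ‖x‖ := by
    intro x hx
    obtain ⟨a, ha, rfl⟩ := Finset.mem_image.1 hx
    obtain ⟨haP, hne, -⟩ := Finset.mem_filter.1 ha
    rw [← dist_eq_norm, dist_comm]
    exact hP p hp a haP hne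
  have h5 := rankin h3 h4
  rw [h2]
  calc √q ^ k * √2 ^ (n + 3) * vb V * ∑ x ∈ A.image (fun p' => p' - p), √(1 - ‖x‖ ^ 2 / 8) ^ (n + 3)
      ≤ √q ^ k * √2 ^ (n + 3) * vb V * (75 * (n : ℝ) ^ 2) :=
        mul_le_mul_of_nonneg_left h5 (by positivity)
    _ = _ := by ring

theorem drop [Nontrivial U] [Nontrivial V] {n d k : ℕ} (hd : Module.finrank ℝ U = d)
    (hk : Module.finrank ℝ V = k) (hnd : n = d + k) :
    optDensity (WithLp 2 (U × V)) ≤ (n + 2) *
      (1 - (512 * (n : ℝ) ^ 2 * 2 ^ ((n : ℝ) / 2)) ^ (-(2 : ℝ) / k)) ^ ((k : ℝ) / 2) *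
      optDensity U := by
  have hd0 : 0 < d := by rw [← hd]; exact Module.finrank_pos
  have hk0 : 0 < k := by rw [← hk]; exact Module.finrank_pos
  have hF : Module.finrank ℝ (WithLp 2 (U × V)) = n := by rw [finrank_withLp, hd, hk, hnd]
  have hd' : (0 : ℝ) < d := by exact_mod_cast hd0
  have hk' : (0 : ℝ) < k := by exact_mod_cast hk0
  have hn' : (0 : ℝ) < n := by rw [hnd]; push_cast; positivity
  have hn1 : (1 : ℝ) ≤ n := by
    have : 1 ≤ n := by omega
    exact_mod_cast this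
  have hkn : (k : ℝ) ≤ n := by rw [hnd]; push_cast; linarith
  have hdk : (n : ℝ) = d + k := by rw [hnd]; push_cast; ring
  set M : ℝ := 512 * (n : ℝ) ^ 2 * 2 ^ ((n : ℝ) / 2) with hM
  have hM0 : 0 < M := by positivity
  have hM1 : 1 ≤ M := by
    have h1 : (1 : ℝ) ≤ 2 ^ ((n : ℝ) / 2) := Real.one_le_rpow (by norm_num) (by positivity)
    have h2 : 1 ≤ 512 * (n : ℝ) ^ 2 := by nlinarith
    rw [hM]; nlinarith
  set x : ℝ := M ^ (-(2 : ℝ) / k) with hx
  have hx0 : 0 < x := Real.rpow_pos_of_pos hM0 _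
  have hxM : x ^ ((k : ℝ) / 2) = M⁻¹ := by
    rw [hx, ← Real.rpow_mul hM0.le, ← Real.rpow_neg_one]
    congr 1; field_simp
  -- upper bound for `x`
  have hxn : x * (2 * n + 3) ≤ n := by
    have h1 : x ≤ M ^ (-(2 : ℝ) / n) := by
      apply Real.rpow_le_rpow_of_exponent_le hM1
      rw [neg_div, neg_div, neg_le_neg_iff]
      exact div_le_div_of_nonneg_left (by norm_num) hk' hkn
    have h2 : M ^ (-(2 : ℝ) / n) = (512 * (n : ℝ) ^ 2) ^ (-(2 : ℝ) / n) * 2⁻¹ := by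
      rw [hM, Real.mul_rpow (by positivity) (by positivity), ← Real.rpow_mul (by norm_num)]
      congr 1
      rw [show (n : ℝ) / 2 * (-2 / n) = -1 by field_simp, Real.rpow_neg_one]
    have h3 : 1 + 3 / (2 * (n : ℝ)) ≤ (512 * (n : ℝ) ^ 2) ^ ((2 : ℝ) / n) := by
      rw [Real.rpow_def_of_pos (by positivity)]
      refine le_trans ?_ (Real.add_one_le_exp _)
      have h4 : 1 ≤ Real.log (512 * (n : ℝ) ^ 2) := by
        rw [Real.le_log_iff_exp_le (by positivity)]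
        have := Real.exp_one_lt_d9
        nlinarith
      have h5 : 3 / (2 * (n : ℝ)) = 3 / 4 * (2 / n) := by field_simp; norm_num
      rw [h5]
      have h6 : (0 : ℝ) < 2 / n := by positivity
      nlinarith
    have h4 : (512 * (n : ℝ) ^ 2) ^ (-(2 : ℝ) / n) = ((512 * (n : ℝ) ^ 2) ^ ((2 : ℝ) / n))⁻¹ := by
      rw [neg_div, Real.rpow_neg (by positivity)]
    have h5 : (512 * (n : ℝ) ^ 2) ^ (-(2 : ℝ) / n) * (2 * n + 3) ≤ 2 * n := by
      rw [h4, inv_mul_le_iff₀ (by positivity)]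
      have h6 : (2 * (n : ℝ) + 3) = (1 + 3 / (2 * (n : ℝ))) * (2 * n) := by field_simp
      rw [h6]
      exact mul_le_mul_of_nonneg_right h3 (by positivity)
    have h6 : x * (2 * n + 3) ≤ M ^ (-(2 : ℝ) / n) * (2 * n + 3) :=
      mul_le_mul_of_nonneg_right h1 (by positivity)
    rw [h2] at h6
    linarith
  have hx1 : x < 1 := by nlinarith
  set σ : ℝ := 1 - x with hσ
  have hσ0 : 0 < σ := by linarith
  set t : ℝ := √((k : ℝ) / n / σ) with ht
  have ht0 : 0 < t := Real.sqrt_pos.2 (by positivity)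
  have ht2 : t ^ 2 = (k : ℝ) / n / σ := Real.sq_sqrt (by positivity)
  set D : ℝ := 4 * ((d : ℝ) / n) with hD
  have hD0 : 0 < D := by positivity
  set q : ℝ := t ^ 2 * x with hq
  have hq0 : 0 < q := by positivity
  have hqeq : t ^ 2 - (4 - D) / 4 = q := by
    rw [hq, ht2, hD]
    have : (d : ℝ) = n - k := by linarith
    rw [this, show x = 1 - σ by rw [hσ]; ring]
    field_simp
    ring
  have hqk : q * ((n + 3 : ℕ) : ℝ) ≤ k := by
    rw [hq, ht2]
    push_cast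
    have h1 : x * (n + 3) ≤ n * σ := by rw [hσ]; linarith
    calc (k : ℝ) / n / σ * x * (n + 3) = (k : ℝ) / (n * σ) * (x * (n + 3)) := by field_simp
      _ ≤ (k : ℝ) / (n * σ) * (n * σ) := mul_le_mul_of_nonneg_left h1 (by positivity)
      _ = k := by field_simp
  have hq1 : q ≤ 1 := by
    push_cast at hqk
    nlinarith
  have hcs := fun (P : Finset (WithLp 2 (U × V))) (hP : Sep 2 P) p (hp : p ∈ P) =>
    conf_sum hP ht0 hqeq hq0 hq1 (by rw [hF, hk]; exact hqk) hp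
  rw [hF, hk] at hcs
  have hvU := vb_pos (E := U)
  have hvV := vb_pos (E := V)
  have hvF := vb_pos (E := WithLp 2 (U × V))
  have hcond : √q ^ k * (√2 ^ (n + 3) * (75 * (n : ℝ) ^ 2)) ≤ 1 / 2 * t ^ k := by
    have h1 : √q ^ k = t ^ k * M⁻¹ := by
      rw [hq, Real.sqrt_mul (by positivity), Real.sqrt_sq ht0.le, mul_pow, sqrt_pow_eq hx0.le, hxM]
    have h2 : √2 ^ (n + 3) = 2 ^ ((n : ℝ) / 2) * (2 * √2) := by
      rw [pow_add, sqrt_pow_eq (by norm_num)]
      congr 1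
      calc √2 ^ 3 = √2 ^ 2 * √2 := by ring
        _ = _ := by rw [Real.sq_sqrt (by norm_num)]
    have h3 : √2 ≤ 3 / 2 := by
      rw [Real.sqrt_le_left (by norm_num)]; norm_num
    rw [h1, h2]
    have h4 : (0 : ℝ) < 2 ^ ((n : ℝ) / 2) := by positivity
    have h5 : t ^ k * M⁻¹ * (2 ^ ((n : ℝ) / 2) * (2 * √2) * (75 * (n : ℝ) ^ 2)) =
        t ^ k * (150 * √2 / 512) := by
      rw [hM]; field_simp; ring
    rw [h5, mul_comm]
    apply mul_le_mul_of_nonneg_right _ (by positivity)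
    linarith
  have hs := slice (U := U) (V := V) ht0 hD0 (fun P hP p hp => (hcs P hP p hp).trans (by
    rw [hk]
    exact mul_le_mul_of_nonneg_right hcond hvV.le))
  rw [hd, hk] at hs
  have hr := vb_ratio (U := U) (V := V)
  rw [hd, hk, ← hdk] at hr
  have hsD : (√D / 2) ^ d = ((d : ℝ) / n) ^ ((d : ℝ) / 2) := by
    rw [← sqrt_pow_eq (by positivity)]
    congr 1
    rw [hD, Real.sqrt_mul (by norm_num), show (4 : ℝ) = 2 ^ 2 by norm_num,
      Real.sqrt_sq (by norm_num)]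
    ring
  have htk : t ^ k = ((k : ℝ) / n) ^ ((k : ℝ) / 2) / σ ^ ((k : ℝ) / 2) := by
    rw [ht, sqrt_pow_eq (by positivity), Real.div_rpow (by positivity) hσ0.le]
  rw [hsD, htk] at hs
  set Y := ((d : ℝ) / n) ^ ((d : ℝ) / 2) with hY
  set Z := ((k : ℝ) / n) ^ ((k : ℝ) / 2) with hZ
  set W := σ ^ ((k : ℝ) / 2) with hW
  have hY0 : 0 < Y := by positivity
  have hZ0 : 0 < Z := by positivity
  have hW0 : 0 < W := by positivity
  have hoF := optDensity_nonneg (E := WithLp 2 (U × V))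
  -- lower bound
  have h1 : 1 / ((n : ℝ) / 2 + 1) / (Y * Z) ≤ vb U * vb V / vb (WithLp 2 (U × V)) := by
    rw [div_div, div_le_div_iff₀ (by positivity) hvF, one_mul]
    calc _ ≤ _ := hr
      _ = _ := by ring
  have h2 : 1 / 2 * (Z / W) * Y * (1 / ((n : ℝ) / 2 + 1) / (Y * Z)) *
      optDensity (WithLp 2 (U × V)) ≤ optDensity U := by
    refine le_trans ?_ hs
    apply mul_le_mul_of_nonneg_right _ hoF
    exact mul_le_mul_of_nonneg_left h1 (by positivity)
  have h3 : 1 / 2 * (Z / W) * Y * (1 / ((n : ℝ) / 2 + 1) / (Y * Z)) = 1 / (((n : ℝ) + 2) * W) := by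
    field_simp
  rw [h3, one_div_mul_eq_div, div_le_iff₀ (by positivity)] at h2
  calc _ ≤ _ := h2
    _ = _ := by ring

end

end Pool.Agent.H818R2
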