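import Pool.Agent.H818R2.Sph2

/-! Rademacher sums: a fixed proportion of sign vectors has a sum of moderate size. -/

open Finset

namespace Pool.Agent.H818R2

/-- the sign `±1` of a Boolean -/
noncomputable def sg (b : Bool) : ℝ := if b then 1 else -1

lemma sg_sq (b : Bool) : sg b ^ 2 = 1 := by
  cases b <;> norm_num [sg]

/-- the Rademacher sum -/
noncomputable def rdm {N : ℕ} (ε : Fin N → Bool) (x : Fin N → ℝ) : ℝ := ∑ i, sg (ε i) * x i

lemma rdm_cons {N : ℕ} (b : Bool) (ε : Fin N → Bool) (x : Fin (N + 1) → ℝ) :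
    rdm (Fin.cons b ε) x = sg b * x 0 + rdm ε (fun i => x i.succ) := by
  unfold rdm
  rw [Fin.sum_univ_succ]
  simp only [Fin.cons_zero, Fin.cons_succ]

lemma sum_cons {N : ℕ} (F : (Fin (N + 1) → Bool) → ℝ) :
    ∑ ε, F ε = ∑ ε : Fin N → Bool, (F (Fin.cons true ε) + F (Fin.cons false ε)) := by
  rw [← (Fin.consEquiv (fun _ : Fin (N + 1) => Bool)).sum_comp F, Fintype.sum_prod_type]
  simp only [Fintype.sum_bool]
  rw [Finset.sum_add_distrib]
  rfl

lemma rdm_moment (N : ℕ) (x : Fin N → ℝ) :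
    ∑ ε : Fin N → Bool, rdm ε x ^ 2 = 2 ^ N * ∑ i, x i ^ 2 ∧
    ∑ ε : Fin N → Bool, rdm ε x ^ 4 ≤ 2 ^ N * (3 * (∑ i, x i ^ 2) ^ 2) := by
  induction N with
  | zero => simp [rdm]
  | succ N ih =>
    obtain ⟨h2, h4⟩ := ih (fun i => x i.succ)
    constructor
    · rw [sum_cons, Fin.sum_univ_succ]
      have : ∀ ε : Fin N → Bool, rdm (Fin.cons true ε : Fin (N + 1) → Bool) x ^ 2 +
          rdm (Fin.cons false ε : Fin (N + 1) → Bool) x ^ 2 =
          2 * x 0 ^ 2 + 2 * rdm ε (fun i => x i.succ) ^ 2 := by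
        intro ε
        rw [rdm_cons, rdm_cons]
        simp only [sg, if_true, Bool.false_eq_true, if_false]
        ring
      simp only [this]
      rw [Finset.sum_add_distrib, ← Finset.mul_sum Finset.univ
        (fun ε : Fin N → Bool => rdm ε (fun i => x i.succ) ^ 2) 2, h2, Finset.sum_const,
        Finset.card_univ,
        Fintype.card_fun, Fintype.card_bool, Fintype.card_fin, nsmul_eq_mul]
      push_cast
      ring
    · rw [sum_cons, Fin.sum_univ_succ]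
      have : ∀ ε : Fin N → Bool, rdm (Fin.cons true ε : Fin (N + 1) → Bool) x ^ 4 +
          rdm (Fin.cons false ε : Fin (N + 1) → Bool) x ^ 4 =
          2 * x 0 ^ 4 + 12 * x 0 ^ 2 * rdm ε (fun i => x i.succ) ^ 2 +
            2 * rdm ε (fun i => x i.succ) ^ 4 := by
        intro ε
        rw [rdm_cons, rdm_cons]
        simp only [sg, if_true, Bool.false_eq_true, if_false]
        ring
      simp only [this]
      rw [Finset.sum_add_distrib, Finset.sum_add_distrib, ← Finset.mul_sum Finset.univ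
        (fun ε : Fin N → Bool => rdm ε (fun i => x i.succ) ^ 2) (12 * x 0 ^ 2),
        ← Finset.mul_sum Finset.univ
        (fun ε : Fin N → Bool => rdm ε (fun i => x i.succ) ^ 4) 2, h2,
        Finset.sum_const, Finset.card_univ, Fintype.card_fun, Fintype.card_bool, Fintype.card_fin,
        nsmul_eq_mul]
      push_cast
      set σ := ∑ i : Fin N, x i.succ ^ 2 with hσ
      set p := (2 : ℝ) ^ N with hp
      have h0 : (0 : ℝ) ≤ p * x 0 ^ 4 := by positivity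
      have e2 : (2 : ℝ) ^ (N + 1) * (3 * (x 0 ^ 2 + σ) ^ 2) =
          6 * (p * x 0 ^ 4) + 12 * (p * (x 0 ^ 2 * σ)) + 6 * (p * σ ^ 2) := by
        rw [hp]
        ring
      rw [e2]
      have e3 : 12 * x 0 ^ 2 * (p * σ) = 12 * (p * (x 0 ^ 2 * σ)) := by ring
      have e4 : p * (3 * σ ^ 2) = 3 * (p * σ ^ 2) := by ring
      rw [e4] at h4
      rw [e3]
      linarith

lemma card_signs (N : ℕ) : ((Finset.univ : Finset (Fin N → Bool)).card : ℝ) = 2 ^ N := by
  rw [Finset.card_univ, Fintype.card_fun, Fintype.card_bool, Fintype.card_fin]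
  push_cast
  rfl

/-- at least a quarter of the sign vectors satisfy `0.1 ≤ (rdm ε x)^2 ≤ 4.9` -/
lemma rdm_good {N : ℕ} {x : Fin N → ℝ} (hx : ∑ i, x i ^ 2 = 1) :
    (2 : ℝ) ^ N / 4 ≤ ((Finset.univ : Finset (Fin N → Bool)).filter
      (fun ε => (1 / 10 : ℝ) ≤ rdm ε x ^ 2 ∧ rdm ε x ^ 2 ≤ 49 / 10)).card := by
  classical
  obtain ⟨h2, h4⟩ := rdm_moment N x
  rw [hx] at h2 h4
  rw [Finset.card_filter]
  push_cast
  have key : ∀ ε : Fin N → Bool,
      (625 / 3600 : ℝ) * ((rdm ε x ^ 2 - 1 / 10) * (49 / 10 - rdm ε x ^ 2)) ≤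
      if (1 / 10 : ℝ) ≤ rdm ε x ^ 2 ∧ rdm ε x ^ 2 ≤ 49 / 10 then 1 else 0 := by
    intro ε
    split_ifs with h
    · nlinarith [sq_nonneg (rdm ε x ^ 2 - 5 / 2)]
    · rw [not_and_or, not_le, not_le] at h
      rcases h with h | h
      · nlinarith [sq_nonneg (rdm ε x)]
      · nlinarith [sq_nonneg (rdm ε x)]
  refine le_trans ?_ (Finset.sum_le_sum fun ε _ => key ε)
  have e1 : ∀ ε : Fin N → Bool,
      (625 / 3600 : ℝ) * ((rdm ε x ^ 2 - 1 / 10) * (49 / 10 - rdm ε x ^ 2)) =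
      625 / 3600 * 5 * rdm ε x ^ 2 - 625 / 3600 * rdm ε x ^ 4 - 625 / 3600 * (49 / 100) := by
    intro ε
    ring
  simp only [e1]
  rw [Finset.sum_sub_distrib, Finset.sum_sub_distrib, ← Finset.mul_sum, ← Finset.mul_sum, h2,
    Finset.sum_const, nsmul_eq_mul, card_signs]
  nlinarith [pow_pos (show (0 : ℝ) < 2 by norm_num) N]

lemma rdm_not {N : ℕ} (ε : Fin N → Bool) (x : Fin N → ℝ) :
    rdm (fun i => !(ε i)) x = - rdm ε x := by
  unfold rdm
  rw [← Finset.sum_neg_distrib]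
  refine Finset.sum_congr rfl fun i _ => ?_
  rcases Bool.eq_false_or_eq_true (ε i) with h | h <;> simp [sg, h]

/-- at least an eighth of the sign vectors satisfy in addition `rdm ε x > 0` -/
lemma rdm_good_pos {N : ℕ} {x : Fin N → ℝ} (hx : ∑ i, x i ^ 2 = 1) :
    (2 : ℝ) ^ N / 8 ≤ ((Finset.univ : Finset (Fin N → Bool)).filter
      (fun ε => 0 < rdm ε x ∧ (1 / 10 : ℝ) ≤ rdm ε x ^ 2 ∧ rdm ε x ^ 2 ≤ 49 / 10)).card := by
  classical
  have h := rdm_good hx
  set A := (Finset.univ : Finset (Fin N → Bool)).filter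
      (fun ε => (1 / 10 : ℝ) ≤ rdm ε x ^ 2 ∧ rdm ε x ^ 2 ≤ 49 / 10) with hA
  set B := (Finset.univ : Finset (Fin N → Bool)).filter
      (fun ε => 0 < rdm ε x ∧ (1 / 10 : ℝ) ≤ rdm ε x ^ 2 ∧ rdm ε x ^ 2 ≤ 49 / 10) with hB
  have hsub : A ⊆ B ∪ B.image (fun ε i => !(ε i)) := by
    intro ε hε
    rw [hA, mem_filter] at hε
    obtain ⟨-, h1, h2⟩ := hε
    rw [mem_union]
    rcases lt_trichotomy (rdm ε x) 0 with h0 | h0 | h0
    · right
      rw [mem_image]
      refine ⟨fun i => !(ε i), ?_, by funext i; simp⟩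
      rw [hB, mem_filter, rdm_not]
      refine ⟨mem_univ _, by linarith, ?_, ?_⟩
      · rw [neg_sq]; exact h1
      · rw [neg_sq]; exact h2
    · rw [h0] at h1
      norm_num at h1
    · left
      rw [hB, mem_filter]
      exact ⟨mem_univ _, h0, h1, h2⟩
  have h1 : A.card ≤ B.card + B.card :=
    (card_le_card hsub).trans ((card_union_le _ _).trans
      (Nat.add_le_add_left (card_image_le (s := B) (f := fun (ε : Fin N → Bool) i => !(ε i))) _))
  have h2 : (A.card : ℝ) ≤ B.card + B.card := by exact_mod_cast h1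
  linarith

/-- averaging: one sign vector is good for an eighth of the points -/
lemma exists_signs {N : ℕ} (C : Finset (EuclideanSpace ℝ (Fin N))) (hC : ∀ x ∈ C, ‖x‖ = 1) :
    ∃ ε : Fin N → Bool, (C.card : ℝ) ≤ 8 * (C.filter (fun x => 0 < rdm ε x.ofLp ∧
      (1 / 10 : ℝ) ≤ rdm ε x.ofLp ^ 2 ∧ rdm ε x.ofLp ^ 2 ≤ 49 / 10)).card := by
  classical
  by_contra hcon
  push Not at hcon
  have h1 : ∑ ε : Fin N → Bool, (8 : ℝ) * (C.filter (fun x => 0 < rdm ε x.ofLp ∧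
      (1 / 10 : ℝ) ≤ rdm ε x.ofLp ^ 2 ∧ rdm ε x.ofLp ^ 2 ≤ 49 / 10)).card <
      ∑ ε : Fin N → Bool, (C.card : ℝ) := by
    apply Finset.sum_lt_sum_of_nonempty ⟨fun _ => true, mem_univ _⟩
    intro ε _
    exact hcon ε
  rw [Finset.sum_const, nsmul_eq_mul, card_signs, ← Finset.mul_sum] at h1
  have h2 : ∑ ε : Fin N → Bool, ((C.filter (fun x => 0 < rdm ε x.ofLp ∧
      (1 / 10 : ℝ) ≤ rdm ε x.ofLp ^ 2 ∧ rdm ε x.ofLp ^ 2 ≤ 49 / 10)).card : ℝ) =
      ∑ x ∈ C, (((Finset.univ : Finset (Fin N → Bool)).filter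
        (fun ε => 0 < rdm ε x.ofLp ∧ (1 / 10 : ℝ) ≤ rdm ε x.ofLp ^ 2 ∧
          rdm ε x.ofLp ^ 2 ≤ 49 / 10)).card : ℝ) := by
    simp only [Finset.card_filter]
    push_cast
    rw [Finset.sum_comm]
  rw [h2] at h1
  have h3 : ∑ x ∈ C, (2 : ℝ) ^ N / 8 ≤ ∑ x ∈ C, (((Finset.univ : Finset (Fin N → Bool)).filter
        (fun ε => 0 < rdm ε x.ofLp ∧ (1 / 10 : ℝ) ≤ rdm ε x.ofLp ^ 2 ∧
          rdm ε x.ofLp ^ 2 ≤ 49 / 10)).card : ℝ) := by
    apply Finset.sum_le_sum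
    intro x hx
    apply rdm_good_pos
    have := hC x hx
    rw [EuclideanSpace.norm_eq, Real.sqrt_eq_one] at this
    simpa [Real.norm_eq_abs, sq_abs] using this
  rw [Finset.sum_const, nsmul_eq_mul] at h3
  linarith

end Pool.Agent.H818R2
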