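import Pool.Agent.H818R2.Kiss1

/-! Spherical codes in a band project to the equator without decreasing the angles below `θ`. -/

open Finset
open scoped InnerProductSpace

namespace Pool.Agent.H818R2

lemma cosh_arcosh_inv {a : ℝ} (ha : 0 < a) (ha1 : a ≤ 1) :
    Real.cosh (Real.arcosh (1 / a)) = 1 / a :=
  Real.cosh_arcosh (by rw [le_div_iff₀ ha]; linarith)

lemma sinh_arcosh_inv {a : ℝ} (ha : 0 < a) (ha1 : a ≤ 1) :
    Real.sinh (Real.arcosh (1 / a)) = √(1 - a ^ 2) / a := by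
  rw [Real.sinh_arcosh (by rw [le_div_iff₀ ha]; linarith)]
  rw [show (1 / a) ^ 2 - 1 = (1 - a ^ 2) / a ^ 2 by field_simp, Real.sqrt_div' _ (by positivity),
    Real.sqrt_sq ha.le]

/-- the hyperbolic form of the band condition -/
lemma band_ineq {a b c : ℝ} (ha : 0 < a) (ha1 : a ≤ 1) (hb : 0 < b) (hb1 : b ≤ 1) (hc : 0 < c)
    (hc1 : c ≤ 1)
    (h : |Real.arcosh (1 / a) - Real.arcosh (1 / b)| ≤ Real.arcosh (1 / c)) :
    c - a * b ≤ c * (√(1 - a ^ 2) * √(1 - b ^ 2)) := by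
  have h1 : Real.cosh (Real.arcosh (1 / a) - Real.arcosh (1 / b)) ≤ 1 / c := by
    rw [← cosh_arcosh_inv hc hc1, Real.cosh_le_cosh]
    exact h.trans (le_abs_self _)
  rw [Real.cosh_sub, cosh_arcosh_inv ha ha1, cosh_arcosh_inv hb hb1, sinh_arcosh_inv ha ha1,
    sinh_arcosh_inv hb hb1] at h1
  have h2 : (1 - √(1 - a ^ 2) * √(1 - b ^ 2)) / (a * b) ≤ 1 / c := by
    refine le_trans (le_of_eq ?_) h1
    field_simp
  rw [div_le_div_iff₀ (by positivity) hc] at h2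
  linarith

/-- a code in a band of hyperbolic width `arcosh (1 / cos θ)` is no larger than a code one dimension
lower -/
lemma band_card {n : ℕ} [NeZero n] {θ : ℝ} (hs : 0 < Real.sin (θ / 2)) (hc : 0 < Real.cos θ)
    (P : Finset (EuclideanSpace ℝ (Fin (n + 1)))) (hP : IsSphCode (n + 1) θ P)
    (e : EuclideanSpace ℝ (Fin (n + 1))) (he : ‖e‖ = 1) (σ : ℝ)
    (h : ∀ x ∈ P, 0 < ⟪x, e⟫_ℝ ∧ ⟪x, e⟫_ℝ < 1 ∧ σ ≤ Real.arcosh (1 / ⟪x, e⟫_ℝ) ∧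
      Real.arcosh (1 / ⟪x, e⟫_ℝ) ≤ σ + Real.arcosh (1 / Real.cos θ)) :
    P.card ≤ sphMax n θ := by
  classical
  have he0 : e ≠ 0 := by
    intro h0
    rw [h0, norm_zero] at he
    exact zero_ne_one he
  have : Fact (Module.finrank ℝ (EuclideanSpace ℝ (Fin (n + 1))) = n + 1) :=
    ⟨finrank_euclideanSpace_fin⟩
  have hfr : Module.finrank ℝ ((ℝ ∙ e)ᗮ : Submodule ℝ (EuclideanSpace ℝ (Fin (n + 1)))) = n :=
    Submodule.finrank_orthogonal_span_singleton he0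
  set g : ((ℝ ∙ e)ᗮ : Submodule ℝ (EuclideanSpace ℝ (Fin (n + 1)))) ≃ₗᵢ[ℝ]
      EuclideanSpace ℝ (Fin n) :=
    ((stdOrthonormalBasis ℝ ((ℝ ∙ e)ᗮ : Submodule ℝ (EuclideanSpace ℝ (Fin (n + 1))))).reindex
      (finCongr hfr)).repr with hg
  -- the projection
  have hmem : ∀ x : EuclideanSpace ℝ (Fin (n + 1)),
      (1 / √(1 - ⟪x, e⟫_ℝ ^ 2)) • (x - ⟪x, e⟫_ℝ • e) ∈
        ((ℝ ∙ e)ᗮ : Submodule ℝ (EuclideanSpace ℝ (Fin (n + 1)))) := by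
    intro x
    apply Submodule.smul_mem
    rw [Submodule.mem_orthogonal_singleton_iff_inner_right, inner_sub_right, inner_smul_right,
      real_inner_self_eq_norm_sq, he, real_inner_comm]
    ring
  set p : EuclideanSpace ℝ (Fin (n + 1)) → EuclideanSpace ℝ (Fin n) :=
    fun x => g ⟨_, hmem x⟩ with hp
  have hinner : ∀ x y : EuclideanSpace ℝ (Fin (n + 1)), ⟪p x, p y⟫_ℝ =
      1 / √(1 - ⟪x, e⟫_ℝ ^ 2) * (1 / √(1 - ⟪y, e⟫_ℝ ^ 2)) * (⟪x, y⟫_ℝ - ⟪x, e⟫_ℝ * ⟪y, e⟫_ℝ) := by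
    intro x y
    rw [hp]
    simp only [LinearIsometryEquiv.inner_map_map, Submodule.coe_inner]
    rw [inner_smul_left, inner_smul_right, inner_sub_left, inner_sub_right, inner_sub_right,
      inner_smul_left, inner_smul_left, inner_smul_right, inner_smul_right,
      real_inner_self_eq_norm_sq, he, real_inner_comm y e]
    simp only [conj_trivial]
    ring
  have hpos : ∀ x ∈ P, 0 < 1 - ⟪x, e⟫_ℝ ^ 2 := by
    intro x hx
    obtain ⟨h1, h2, -, -⟩ := h x hx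
    nlinarith
  have hunit : ∀ x ∈ P, ‖p x‖ = 1 := by
    intro x hx
    have h1 := hpos x hx
    have h2 : ‖p x‖ ^ 2 = 1 := by
      rw [← real_inner_self_eq_norm_sq, hinner, real_inner_self_eq_norm_sq, hP.1 x hx]
      rw [show 1 / √(1 - ⟪x, e⟫_ℝ ^ 2) * (1 / √(1 - ⟪x, e⟫_ℝ ^ 2)) * (1 ^ 2 - ⟪x, e⟫_ℝ * ⟪x, e⟫_ℝ)
        = (1 - ⟪x, e⟫_ℝ ^ 2) / (√(1 - ⟪x, e⟫_ℝ ^ 2) * √(1 - ⟪x, e⟫_ℝ ^ 2)) by
          field_simp]
      rw [Real.mul_self_sqrt h1.le, div_self h1.ne']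
    nlinarith [norm_nonneg (p x)]
  have hle : ∀ x ∈ P, ∀ y ∈ P, x ≠ y → ⟪p x, p y⟫_ℝ ≤ Real.cos θ := by
    intro x hx y hy hxy
    obtain ⟨x1, x2, x3, x4⟩ := h x hx
    obtain ⟨y1, y2, y3, y4⟩ := h y hy
    have h1 := band_ineq x1 x2.le y1 y2.le hc (Real.cos_le_one θ) (by
      rw [abs_le]
      constructor <;> linarith)
    have h2 := hP.2 x hx y hy hxy
    have hx0 := Real.sqrt_pos.2 (hpos x hx)
    have hy0 := Real.sqrt_pos.2 (hpos y hy)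
    rw [hinner, show 1 / √(1 - ⟪x, e⟫_ℝ ^ 2) * (1 / √(1 - ⟪y, e⟫_ℝ ^ 2)) *
      (⟪x, y⟫_ℝ - ⟪x, e⟫_ℝ * ⟪y, e⟫_ℝ) = (⟪x, y⟫_ℝ - ⟪x, e⟫_ℝ * ⟪y, e⟫_ℝ) /
      (√(1 - ⟪x, e⟫_ℝ ^ 2) * √(1 - ⟪y, e⟫_ℝ ^ 2)) by field_simp, div_le_iff₀ (by positivity)]
    linarith
  have hlt : Real.cos θ < 1 := by
    rw [cos_eq]
    nlinarith
  have hinj : Set.InjOn p (P : Set (EuclideanSpace ℝ (Fin (n + 1)))) := by
    intro x hx y hy hxy
    by_contra hne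
    have h1 := hle x hx y hy hne
    rw [← hxy, real_inner_self_eq_norm_sq, hunit x hx] at h1
    linarith
  rw [← Finset.card_image_of_injOn hinj]
  apply le_sphMax hs
  constructor
  · intro u hu
    obtain ⟨x, hx, rfl⟩ := Finset.mem_image.1 hu
    exact hunit x hx
  · intro u hu v hv huv
    obtain ⟨x, hx, rfl⟩ := Finset.mem_image.1 hu
    obtain ⟨y, hy, rfl⟩ := Finset.mem_image.1 hv
    exact hle x hx y hy (fun hh => huv (by rw [hh]))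

end Pool.Agent.H818R2
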