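import Pool.Agent.H818R2.Kiss2

/-! Spherical codes: `A(n+1,θ) ≤ 8 m A(n,θ)` whenever `cosh (m arcosh (1/cos θ)) ≥ 7`. -/

open Finset
open scoped InnerProductSpace

namespace Pool.Agent.H818R2

lemma exists_window {L σ s : ℝ} : ∀ m : ℕ, 0 < m → σ ≤ s → s ≤ σ + m * L →
    ∃ j < m, σ + j * L ≤ s ∧ s ≤ σ + j * L + L := by
  intro m
  induction m with
  | zero => intro h; exact absurd h (lt_irrefl _)
  | succ m ih =>
    intro _ h1 h2
    by_cases h3 : s ≤ σ + m * L
    · rcases Nat.eq_zero_or_pos m with h0 | h0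
      · subst h0
        refine ⟨0, Nat.zero_lt_one, ?_, ?_⟩
        · simpa using h1
        · push_cast at h2 ⊢
          linarith
      · obtain ⟨j, hj, hj1, hj2⟩ := ih h0 h1 h3
        exact ⟨j, hj.trans (Nat.lt_succ_self m), hj1, hj2⟩
    · rw [not_le] at h3
      refine ⟨m, Nat.lt_succ_self m, h3.le, ?_⟩
      push_cast at h2
      linarith

/-- the normalised sign vector -/
noncomputable def sv {N : ℕ} (ε : Fin N → Bool) : EuclideanSpace ℝ (Fin N) :=
  WithLp.toLp 2 (fun i => sg (ε i) / √N)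

lemma inner_sv {N : ℕ} (ε : Fin N → Bool) (x : EuclideanSpace ℝ (Fin N)) :
    ⟪x, sv ε⟫_ℝ = rdm ε x.ofLp / √N := by
  rw [PiLp.inner_apply]
  unfold sv rdm
  rw [Finset.sum_div]
  refine Finset.sum_congr rfl fun i _ => ?_
  simp only [RCLike.inner_apply, conj_trivial]
  ring

lemma norm_sv {N : ℕ} (hN : 0 < N) (ε : Fin N → Bool) : ‖sv ε‖ = 1 := by
  rw [EuclideanSpace.norm_eq, Real.sqrt_eq_one]
  unfold sv
  simp only [Real.norm_eq_abs, sq_abs, div_pow, sg_sq]
  rw [Finset.sum_const, Finset.card_univ, Fintype.card_fin, nsmul_eq_mul,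
    Real.sq_sqrt (Nat.cast_nonneg N)]
  field_simp

/-- the ratio of the maximal sizes of spherical codes in consecutive dimensions is bounded -/
theorem sphMax_succ_le {θ : ℝ} (hθ : 0 < θ) (hθ2 : θ < Real.pi / 2) {m : ℕ} (hm : 0 < m)
    (h7 : 7 ≤ Real.cosh (m * Real.arcosh (1 / Real.cos θ))) {n : ℕ} (hn : 4 ≤ n) :
    sphMax (n + 1) θ ≤ 8 * m * sphMax n θ := by
  classical
  have : NeZero n := ⟨by omega⟩
  have hs : 0 < Real.sin (θ / 2) :=
    Real.sin_pos_of_pos_of_lt_pi (by linarith) (by linarith [Real.pi_pos])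
  have hc : 0 < Real.cos θ := Real.cos_pos_of_mem_Ioo ⟨by linarith, hθ2⟩
  obtain ⟨P, hP, hPc⟩ := Nat.sSup_mem (sph_nonempty (n + 1) θ) (sph_bdd hs)
  change P.card = sphMax (n + 1) θ at hPc
  obtain ⟨ε, hε⟩ := exists_signs P hP.1
  set Q := P.filter (fun x => 0 < rdm ε x.ofLp ∧
      (1 / 10 : ℝ) ≤ rdm ε x.ofLp ^ 2 ∧ rdm ε x.ofLp ^ 2 ≤ 49 / 10) with hQ
  set L := Real.arcosh (1 / Real.cos θ) with hL
  set N : ℝ := ((n + 1 : ℕ) : ℝ) with hN
  have hN5 : (5 : ℝ) ≤ N := by
    rw [hN]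
    exact_mod_cast (by omega : 5 ≤ n + 1)
  have hN0 : 0 < N := by linarith
  have hsN : 0 < √N := Real.sqrt_pos.2 hN0
  have hcon : 0 < √(49 / 10 : ℝ) := Real.sqrt_pos.2 (by norm_num)
  set z := √N / √(49 / 10 : ℝ) with hz
  have hz1 : 1 ≤ z := by
    rw [hz, le_div_iff₀ hcon, one_mul]
    exact Real.sqrt_le_sqrt (by linarith)
  set σ := Real.arcosh z with hσ
  have hmem : ∀ x ∈ Q, 0 < ⟪x, sv ε⟫_ℝ ∧ ⟪x, sv ε⟫_ℝ < 1 ∧ σ ≤ Real.arcosh (1 / ⟪x, sv ε⟫_ℝ) ∧
      Real.arcosh (1 / ⟪x, sv ε⟫_ℝ) ≤ σ + m * L := by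
    intro x hx
    rw [hQ, mem_filter] at hx
    obtain ⟨-, h0, h1, h2⟩ := hx
    rw [inner_sv]
    change 0 < rdm ε x.ofLp / √N ∧ rdm ε x.ofLp / √N < 1 ∧ _ ≤ Real.arcosh (1 / (rdm ε x.ofLp / √N))
      ∧ Real.arcosh (1 / (rdm ε x.ofLp / √N)) ≤ _
    set S := rdm ε x.ofLp with hS
    have e1 : 1 / (S / √N) = √N / S := by field_simp
    rw [e1]
    have hSle : S ≤ √(49 / 10 : ℝ) := Real.le_sqrt_of_sq_le h2
    have hSge : √(49 / 10 : ℝ) ≤ 7 * S := by
      apply Real.sqrt_le_iff.2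
      constructor
      · positivity
      · nlinarith
    have hzS : z ≤ √N / S := by
      rw [hz]
      exact div_le_div_of_nonneg_left hsN.le h0 hSle
    have hzS' : √N / S ≤ 7 * z := by
      rw [hz, div_le_iff₀ h0, show 7 * (√N / √(49 / 10 : ℝ)) * S =
        √N * (7 * S) / √(49 / 10 : ℝ) by ring, le_div_iff₀ hcon]
      exact mul_le_mul_of_nonneg_left hSge hsN.le
    refine ⟨by positivity, ?_, ?_, ?_⟩
    · rw [div_lt_one hsN]
      refine lt_of_le_of_lt hSle ?_
      exact Real.sqrt_lt_sqrt (by norm_num) (by linarith)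
    · rw [hσ, Real.arcosh_le_arcosh (by linarith) (by linarith)]
      exact hzS
    · have h3 : 0 ≤ σ + m * L := by
        have h4 : 0 ≤ σ := Real.arcosh_nonneg hz1
        have h5 : 0 ≤ L := Real.arcosh_nonneg (by
          rw [le_div_iff₀ hc, one_mul]
          exact Real.cos_le_one θ)
        positivity
      have h4 : √N / S ≤ Real.cosh (σ + m * L) := by
        rw [Real.cosh_add, hσ, Real.cosh_arcosh hz1]
        have h5 : 0 ≤ Real.sinh (Real.arcosh z) := Real.sinh_nonneg_iff.2 (Real.arcosh_nonneg hz1)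
        have h6 : 0 ≤ Real.sinh (m * L) := Real.sinh_nonneg_iff.2 (by
          have h5 : 0 ≤ L := Real.arcosh_nonneg (by
            rw [le_div_iff₀ hc, one_mul]
            exact Real.cos_le_one θ)
          positivity)
        nlinarith [mul_nonneg h5 h6, mul_le_mul_of_nonneg_left h7 (show 0 ≤ z by linarith)]
      rw [← Real.arcosh_cosh h3, Real.arcosh_le_arcosh (by linarith) (Real.cosh_pos _)]
      exact h4
  -- split into windows
  have hcov : Q ⊆ (Finset.range m).biUnion (fun j => Q.filter (fun x =>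
      σ + j * L ≤ Real.arcosh (1 / ⟪x, sv ε⟫_ℝ) ∧
      Real.arcosh (1 / ⟪x, sv ε⟫_ℝ) ≤ σ + j * L + L)) := by
    intro x hx
    obtain ⟨-, -, h3, h4⟩ := hmem x hx
    obtain ⟨j, hj, hj1, hj2⟩ := exists_window m hm h3 h4
    rw [mem_biUnion]
    exact ⟨j, mem_range.2 hj, mem_filter.2 ⟨hx, hj1, hj2⟩⟩
  have hQP : Q ⊆ P := filter_subset _ _
  have hcard : Q.card ≤ m * sphMax n θ := by
    refine (card_le_card hcov).trans (card_biUnion_le.trans ?_)
    calc ∑ j ∈ Finset.range m, _ ≤ ∑ j ∈ Finset.range m, sphMax n θ := by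
          apply Finset.sum_le_sum
          intro j _
          apply band_card hs hc _ _ (sv ε) (norm_sv (by omega) ε) (σ + j * L)
          · intro x hx
            rw [mem_filter] at hx
            obtain ⟨h1, h2, -, -⟩ := hmem x hx.1
            exact ⟨h1, h2, hx.2.1, hx.2.2⟩
          · constructor
            · intro x hx
              exact hP.1 x (hQP (mem_filter.1 hx).1)
            · intro x hx y hy
              exact hP.2 x (hQP (mem_filter.1 hx).1) y (hQP (mem_filter.1 hy).1)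
      _ = _ := by rw [Finset.sum_const, card_range, smul_eq_mul]
  rw [← hPc]
  have h1 : P.card ≤ 8 * Q.card := by exact_mod_cast hε
  calc P.card ≤ 8 * Q.card := h1
    _ ≤ 8 * (m * sphMax n θ) := Nat.mul_le_mul_left _ hcard
    _ = _ := by ring

/-- kissing numbers: `m = 2` -/
theorem kissing_succ_le {n : ℕ} (hn : 4 ≤ n) :
    sphMax (n + 1) (Real.pi / 3) ≤ 16 * sphMax n (Real.pi / 3) := by
  have h := sphMax_succ_le (θ := Real.pi / 3) (by positivity) (by linarith [Real.pi_pos])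
    (m := 2) (by norm_num) (by
      rw [Real.cos_pi_div_three]
      push_cast
      rw [Real.cosh_two_mul, Real.sinh_arcosh (by norm_num), Real.cosh_arcosh (by norm_num),
        Real.sq_sqrt (by norm_num)]
      norm_num) hn
  exact h

/-- monotonicity in the dimension -/
lemma sphMax_mono_succ {n : ℕ} [NeZero n] {θ : ℝ} (hs : 0 < Real.sin (θ / 2)) :
    sphMax n θ ≤ sphMax (n + 1) θ := by
  classical
  obtain ⟨P, hP, hPc⟩ := Nat.sSup_mem (sph_nonempty n θ) (sph_bdd hs)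
  change P.card = sphMax n θ at hPc
  set ι : EuclideanSpace ℝ (Fin n) → EuclideanSpace ℝ (Fin (n + 1)) :=
    fun x => WithLp.toLp 2 (Fin.cons 0 x.ofLp) with hι
  have hin : ∀ x y, ⟪ι x, ι y⟫_ℝ = ⟪x, y⟫_ℝ := by
    intro x y
    rw [PiLp.inner_apply, PiLp.inner_apply, Fin.sum_univ_succ]
    simp [hι]
  have hinj : Function.Injective ι := by
    intro x y hxy
    have h1 := congrArg (fun z => (WithLp.ofLp z)) hxy
    simp only [hι] at h1
    have h2 := Fin.cons_injective2 h1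
    exact (WithLp.ofLp_injective 2) h2.2
  rw [← hPc, ← Finset.card_image_of_injective P hinj]
  apply le_sphMax hs
  constructor
  · intro u hu
    obtain ⟨x, hx, rfl⟩ := Finset.mem_image.1 hu
    have h1 : ‖ι x‖ ^ 2 = 1 := by
      rw [← real_inner_self_eq_norm_sq, hin, real_inner_self_eq_norm_sq, hP.1 x hx]
      norm_num
    nlinarith [norm_nonneg (ι x)]
  · intro u hu v hv huv
    obtain ⟨x, hx, rfl⟩ := Finset.mem_image.1 hu
    obtain ⟨y, hy, rfl⟩ := Finset.mem_image.1 hv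
    rw [hin]
    exact hP.2 x hx y hy (fun hh => huv (by rw [hh]))

end Pool.Agent.H818R2
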