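import Pool.Agent.H818R2.RateDefs

/-! Exponents of spherical codes and kissing numbers (MP_b5f63d_co). -/

namespace Pool.Agent.H818R2

/-- `(1/d) log_2 A(d, θ)` -/
noncomputable def codeRate (θ : ℝ) (d : ℕ) : ℝ := Real.logb 2 (sphMax d θ) / d

/-- the kissing number `τ(d)`: the largest number of unit vectors of `ℝ^d` with pairwise angles at
least `π/3` (inner products at most `cos (π/3) = 1/2`) -/
noncomputable def kissing (d : ℕ) : ℕ := sphMax d (Real.pi / 3)

end Pool.Agent.H818R2
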