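import Pool.Agent.H818R2.Kiss3
import Pool.Agent.H818R2.KissDefs

/-! Limit points of the exponents of spherical codes. -/

open Filter Set Topology

namespace Pool.Agent.H818R2

lemma codeRate_nonneg (θ : ℝ) (d : ℕ) : 0 ≤ codeRate θ d := by
  unfold codeRate
  rcases Nat.eq_zero_or_pos d with h | h
  · subst h
    simp
  · rcases Nat.eq_zero_or_pos (sphMax d θ) with h0 | h0
    · rw [h0]; simp
    · exact div_nonneg (Real.logb_nonneg (by norm_num) (by exact_mod_cast h0)) (Nat.cast_nonneg d)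

lemma codeRate_le {θ : ℝ} (hs : 0 < Real.sin (θ / 2)) (d : ℕ) :
    codeRate θ d ≤ Real.logb 2 ((1 + 2 * Real.sin (θ / 2)) / Real.sin (θ / 2)) := by
  unfold codeRate
  have h2 : 1 ≤ (1 + 2 * Real.sin (θ / 2)) / Real.sin (θ / 2) := by
    rw [le_div_iff₀ hs]
    linarith
  have h3 : 0 ≤ Real.logb 2 ((1 + 2 * Real.sin (θ / 2)) / Real.sin (θ / 2)) :=
    Real.logb_nonneg (by norm_num) h2
  rcases Nat.eq_zero_or_pos d with h | h
  · subst h
    simpa using h3
  · have : NeZero d := ⟨by omega⟩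
    have hd : (0 : ℝ) < d := by exact_mod_cast h
    rw [div_le_iff₀ hd]
    rcases Nat.eq_zero_or_pos (sphMax d θ) with h0 | h0
    · rw [h0]
      simp only [Nat.cast_zero, Real.logb_zero]
      positivity
    · have h4 := sphMax_le (d := d) hs
      have h5 : (sphMax d θ : ℝ) ≤ ((1 + 2 * Real.sin (θ / 2)) / Real.sin (θ / 2)) ^ d := by
        refine h4.trans ?_
        have := rho_le_one d
        have h6 : 0 ≤ ((1 + 2 * Real.sin (θ / 2)) / Real.sin (θ / 2)) ^ d := by positivity
        nlinarith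
      have h6 := Real.logb_le_logb_of_le (b := 2) (by norm_num)
        (show (0 : ℝ) < sphMax d θ by exact_mod_cast h0) h5
      rw [Real.logb_pow] at h6
      linarith

/-- existence of an admissible number of windows -/
lemma exists_m {θ : ℝ} (hθ : 0 < θ) (hθ2 : θ < Real.pi / 2) :
    ∃ m : ℕ, 0 < m ∧ 7 ≤ Real.cosh (m * Real.arcosh (1 / Real.cos θ)) := by
  have hc : 0 < Real.cos θ := Real.cos_pos_of_mem_Ioo ⟨by linarith, hθ2⟩
  have hc1 : Real.cos θ < 1 := by
    rw [cos_eq]
    have := Real.sin_pos_of_pos_of_lt_pi (x := θ / 2) (by linarith) (by linarith [Real.pi_pos])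
    nlinarith
  have hL : 0 < Real.arcosh (1 / Real.cos θ) := Real.arcosh_pos (by
    rw [lt_div_iff₀ hc, one_mul]
    exact hc1)
  obtain ⟨m, hm⟩ := exists_nat_gt (Real.arcosh 7 / Real.arcosh (1 / Real.cos θ))
  rw [div_lt_iff₀ hL] at hm
  have h7 : (0 : ℝ) ≤ Real.arcosh 7 := Real.arcosh_nonneg (by norm_num)
  refine ⟨m, ?_, ?_⟩
  · rcases Nat.eq_zero_or_pos m with h0 | h0
    · rw [h0] at hm
      simp only [Nat.cast_zero, zero_mul] at hm
      linarith
    · exact h0
  · rw [← Real.cosh_arcosh (show (1 : ℝ) ≤ 7 by norm_num), Real.cosh_le_cosh,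
      abs_of_nonneg h7, abs_of_nonneg (by positivity)]
    exact hm.le

lemma codeRate_diff {θ : ℝ} (hθ : 0 < θ) (hθ2 : θ < Real.pi / 2) :
    Tendsto (fun n : ℕ => codeRate θ (n + 1) - codeRate θ n) atTop (𝓝 0) := by
  have hs : 0 < Real.sin (θ / 2) :=
    Real.sin_pos_of_pos_of_lt_pi (by linarith) (by linarith [Real.pi_pos])
  obtain ⟨m, hm, h7⟩ := exists_m hθ hθ2
  set K := Real.logb 2 ((1 + 2 * Real.sin (θ / 2)) / Real.sin (θ / 2)) with hK
  set C := Real.logb 2 (8 * (m : ℝ)) with hC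
  have hm1 : (1 : ℝ) ≤ m := by exact_mod_cast hm
  have hC0 : 0 ≤ C := Real.logb_nonneg (by norm_num) (by linarith)
  have hlim : Tendsto (fun n : ℕ => (C + K) / ((n : ℝ) + 1)) atTop (𝓝 0) := by
    have := tendsto_one_div_add_atTop_nhds_zero_nat (𝕜 := ℝ)
    have h2 := this.const_mul (C + K)
    rw [mul_zero] at h2
    refine h2.congr fun n => ?_
    ring
  rw [tendsto_zero_iff_abs_tendsto_zero]
  refine squeeze_zero' (Eventually.of_forall fun n => abs_nonneg _) ?_ hlim
  filter_upwards [eventually_ge_atTop 4] with n hn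
  have : NeZero n := ⟨by omega⟩
  have hn0 : (0 : ℝ) < n := by exact_mod_cast (by omega : 0 < n)
  have h1 : sphMax n θ ≤ sphMax (n + 1) θ := sphMax_mono_succ hs
  have h2 := sphMax_succ_le hθ hθ2 hm h7 hn
  have hpos : 0 < sphMax n θ := by
    have := sphMax_pos (d := n) (by omega) hs
    exact_mod_cast this
  have hposR : (0 : ℝ) < sphMax n θ := by exact_mod_cast hpos
  have l1 : Real.logb 2 (sphMax n θ) ≤ Real.logb 2 (sphMax (n + 1) θ) :=
    Real.logb_le_logb_of_le (by norm_num) hposR (by exact_mod_cast h1)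
  have l2 : Real.logb 2 (sphMax (n + 1) θ) ≤ C + Real.logb 2 (sphMax n θ) := by
    rw [hC, ← Real.logb_mul (by positivity) hposR.ne']
    apply Real.logb_le_logb_of_le (by norm_num)
    · exact_mod_cast lt_of_lt_of_le hpos h1
    · exact_mod_cast h2
  have hr0 := codeRate_nonneg θ n
  have hr1 := codeRate_le hs n
  have e0 : Real.logb 2 (sphMax n θ) = n * codeRate θ n := by
    unfold codeRate
    field_simp
  have e1 : Real.logb 2 (sphMax (n + 1) θ) = ((n : ℝ) + 1) * codeRate θ (n + 1) := by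
    unfold codeRate
    push_cast
    field_simp
  rw [e0, e1] at l1 l2
  have hn1 : (0 : ℝ) < (n : ℝ) + 1 := by positivity
  change |codeRate θ (n + 1) - codeRate θ n| ≤ _
  rw [abs_le]
  constructor
  · rw [← neg_div, div_le_iff₀ hn1]
    nlinarith
  · rw [le_div_iff₀ hn1]
    nlinarith

/-- limit points of the exponents -/
theorem codeRate_clusterPts {θ : ℝ} (hθ : 0 < θ) (hθ2 : θ < Real.pi / 2) :
    {x | MapClusterPt x atTop (codeRate θ)} =
      Icc (liminf (codeRate θ) atTop) (limsup (codeRate θ) atTop) := by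
  have hs : 0 < Real.sin (θ / 2) :=
    Real.sin_pos_of_pos_of_lt_pi (by linarith) (by linarith [Real.pi_pos])
  exact clusterPts_eq (codeRate_nonneg θ) (codeRate_le hs) (codeRate_diff hθ hθ2)

end Pool.Agent.H818R2
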