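import Pool.Agent.H818R2.Slice2

open MeasureTheory Metric Filter Set
open scoped Topology Pointwise InnerProductSpace

namespace Pool.Agent.H818R2

section
variable {E : Type*} [NormedAddCommGroup E] [InnerProductSpace ℝ E] [FiniteDimensional ℝ E]
  [MeasurableSpace E] [BorelSpace E]

lemma vb_isometry {F : Type*} [NormedAddCommGroup F] [InnerProductSpace ℝ F]
    [FiniteDimensional ℝ F] [MeasurableSpace F] [BorelSpace F] (g : E ≃ₗᵢ[ℝ] F) : vb E = vb F := by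
  unfold vb
  have h := g.measurePreserving.measure_preimage
    (measurableSet_ball (x := (0 : F)) (ε := 1)).nullMeasurableSet
  have h2 : g ⁻¹' (ball (0 : F) 1) = ball (0 : E) 1 := by
    rw [LinearIsometryEquiv.preimage_ball]; simp
  rw [h2] at h
  rw [measureReal_def, measureReal_def, h]

lemma vb_real : vb ℝ = 2 := by
  unfold vb
  rw [measureReal_def, Real.volume_ball]
  simp

lemma vb_prod_le {U V : Type*} [NormedAddCommGroup U] [InnerProductSpace ℝ U]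
    [FiniteDimensional ℝ U] [MeasurableSpace U] [BorelSpace U]
    [NormedAddCommGroup V] [InnerProductSpace ℝ V] [FiniteDimensional ℝ V]
    [MeasurableSpace V] [BorelSpace V] : vb (WithLp 2 (U × V)) ≤ vb U * vb V := by
  have h := box_vol (U := U) (V := V) (R := 1) zero_le_one
  rw [one_pow, one_pow, one_mul, one_mul] at h
  rw [← h]
  unfold vb
  apply measureReal_mono
  · intro p hp
    rw [mem_ball] at hp
    have h := dist_sq p 0
    rw [show (0 : WithLp 2 (U × V)).fst = 0 from rfl, show (0 : WithLp 2 (U × V)).snd = 0 from rfl,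
      dist_zero_right p.fst, dist_zero_right p.snd] at h
    have h3 := norm_nonneg p.fst
    have h4 := norm_nonneg p.snd
    have h5 : (0 : ℝ) ≤ dist p 0 := dist_nonneg
    constructor <;> nlinarith
  · exact ((measure_mono (box_sub zero_le_one)).trans_lt measure_closedBall_lt_top).ne

/-- volume of a cylinder -/
lemma cyl_vol {u : E} (hu : ‖u‖ = 1) {a b ρ : ℝ} (hab : a ≤ b) (hρ : 0 ≤ ρ) :
    (b - a) * ρ ^ (Module.finrank ℝ E - 1) * (vb E / 2) ≤
      volume.real {z : E | (a ≤ ⟪u, z⟫_ℝ ∧ ⟪u, z⟫_ℝ ≤ b) ∧ ‖z‖ ^ 2 - ⟪u, z⟫_ℝ ^ 2 ≤ ρ ^ 2} := by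
  set K : Submodule ℝ E := Submodule.span ℝ {u} with hK
  have hdim1 : Module.finrank ℝ K = 1 := finrank_span_singleton (by
    intro h; rw [h, norm_zero] at hu; norm_num at hu)
  have hdim2 : Module.finrank ℝ Kᗮ = Module.finrank ℝ E - 1 := by
    have := K.finrank_add_finrank_orthogonal
    omega
  have e : ℝ ≃ₗᵢ[ℝ] K := LinearIsometryEquiv.toSpanUnitSingleton u hu
  have hfc : Continuous (fun p : WithLp 2 (K × Kᗮ) => ⟪u, (p.fst : E)⟫_ℝ) :=
    continuous_const.inner (continuous_subtype_val.comp (WithLp.continuous_fst 2 K Kᗮ))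
  set S : Set (WithLp 2 (K × Kᗮ)) :=
    {p | (a ≤ ⟪u, (p.fst : E)⟫_ℝ ∧ ⟪u, (p.fst : E)⟫_ℝ ≤ b) ∧ ‖p.snd‖ ≤ ρ} with hS
  have hSm : MeasurableSet S := by
    apply IsClosed.measurableSet
    apply IsClosed.inter
    · apply IsClosed.inter
      · exact isClosed_le continuous_const hfc
      · exact isClosed_le hfc continuous_const
    · exact isClosed_le ((WithLp.continuous_snd _ _ _).norm) continuous_const
  have h1 : {z : E | (a ≤ ⟪u, z⟫_ℝ ∧ ⟪u, z⟫_ℝ ≤ b) ∧ ‖z‖ ^ 2 - ⟪u, z⟫_ℝ ^ 2 ≤ ρ ^ 2} =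
      K.orthogonalDecomposition ⁻¹' S := by
    ext z
    simp only [mem_ofPred_eq, mem_preimage, hS, Submodule.orthogonalDecomposition_apply]
    have e0 : ((K.orthogonalProjectionOnto z : K) : E) = ⟪u, z⟫_ℝ • u := by
      have := Submodule.starProjection_unit_singleton ℝ hu z
      rw [← this]; rfl
    have e1 : ⟪u, ((K.orthogonalProjectionOnto z : K) : E)⟫_ℝ = ⟪u, z⟫_ℝ := by
      rw [e0, inner_smul_right, real_inner_self_eq_norm_sq, hu]; ring
    have e2 : ‖Kᗮ.orthogonalProjectionOnto z‖ ^ 2 = ‖z‖ ^ 2 - ⟪u, z⟫_ℝ ^ 2 := by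
      have h := K.norm_sq_eq_add_norm_sq_projection z
      have h3 : ‖K.orthogonalProjectionOnto z‖ ^ 2 = ⟪u, z⟫_ℝ ^ 2 := by
        have : ‖K.orthogonalProjectionOnto z‖ = ‖((K.orthogonalProjectionOnto z : K) : E)‖ := rfl
        rw [this, e0, norm_smul, hu, mul_one, Real.norm_eq_abs, sq_abs]
      linarith
    change _ ↔ (a ≤ ⟪u, ((K.orthogonalProjectionOnto z : K) : E)⟫_ℝ ∧
      ⟪u, ((K.orthogonalProjectionOnto z : K) : E)⟫_ℝ ≤ b) ∧ ‖Kᗮ.orthogonalProjectionOnto z‖ ≤ ρ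
    rw [e1, ← e2]
    constructor
    · rintro ⟨h1, h2⟩
      exact ⟨h1, (sq_le_sq₀ (norm_nonneg _) hρ).1 h2⟩
    · rintro ⟨h1, h2⟩
      exact ⟨h1, (sq_le_sq₀ (norm_nonneg _) hρ).2 h2⟩
  -- the volume of `S`
  have e : ℝ ≃ₗᵢ[ℝ] K := LinearIsometryEquiv.toSpanUnitSingleton u hu
  have hvol1 : volume.real S = (b - a) * (ρ ^ (Module.finrank ℝ E - 1) * vb Kᗮ) := by
    have h2 : (WithLp.toLp 2) ⁻¹' S =
        {p : K | a ≤ ⟪u, (p : E)⟫_ℝ ∧ ⟪u, (p : E)⟫_ℝ ≤ b} ×ˢ (closedBall (0 : Kᗮ) ρ) := by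
      ext ⟨p, q⟩
      simp [S]
    have h3 := (WithLp.volume_preserving_toLp K Kᗮ).measure_preimage hSm.nullMeasurableSet
    rw [h2] at h3
    rw [measureReal_def, ← h3, Measure.volume_eq_prod, Measure.prod_prod, ENNReal.toReal_mul,
      ← measureReal_def, ← measureReal_def, vol_closedBall _ hρ, hdim2]
    congr 1
    have h4 := (LinearIsometryEquiv.toSpanUnitSingleton (𝕜 := ℝ) u hu).measurePreserving.measure_preimage
      (s := {p : K | a ≤ ⟪u, (p : E)⟫_ℝ ∧ ⟪u, (p : E)⟫_ℝ ≤ b}) (by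
        apply MeasurableSet.nullMeasurableSet
        apply IsClosed.measurableSet
        have hfc2 : Continuous (fun p : K => ⟪u, (p : E)⟫_ℝ) :=
          continuous_const.inner continuous_subtype_val
        apply IsClosed.inter
        · exact isClosed_le continuous_const hfc2
        · exact isClosed_le hfc2 continuous_const)
    have h5 : (LinearIsometryEquiv.toSpanUnitSingleton (𝕜 := ℝ) u hu) ⁻¹'
        {p : K | a ≤ ⟪u, (p : E)⟫_ℝ ∧ ⟪u, (p : E)⟫_ℝ ≤ b} = Icc a b := by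
      ext r
      simp only [mem_preimage, LinearIsometryEquiv.toSpanUnitSingleton_apply, mem_Icc]
      change a ≤ ⟪u, r • u⟫_ℝ ∧ ⟪u, r • u⟫_ℝ ≤ b ↔ _
      rw [inner_smul_right, real_inner_self_eq_norm_sq, hu]
      simp
    rw [h5, Real.volume_Icc] at h4
    rw [measureReal_def, ← h4, ENNReal.toReal_ofReal (by linarith)]
  have hvb : vb E ≤ 2 * vb Kᗮ := by
    have h2 := vb_prod_le (U := K) (V := Kᗮ)
    rw [← vb_isometry K.orthogonalDecomposition, ← vb_isometry e, vb_real] at h2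
    exact h2
  have h2 := K.orthogonalDecomposition.measurePreserving.measure_preimage hSm.nullMeasurableSet
  rw [h1, measureReal_def, h2, ← measureReal_def, hvol1]
  have : 0 ≤ (b - a) * ρ ^ (Module.finrank ℝ E - 1) := mul_nonneg (by linarith) (by positivity)
  nlinarith

omit [FiniteDimensional ℝ E] [MeasurableSpace E] [BorelSpace E] in
lemma norm_sum_le {A : Finset E} (hA : Sep 2 A) :
    ‖∑ x ∈ A, x‖ ≤ √2 * (∑ x ∈ A, ‖x‖ ^ 2 / 4) + 1 / √2 := by
  classical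
  set m : ℝ := (A.card : ℝ) with hm
  set T : ℝ := ∑ x ∈ A, ‖x‖ ^ 2 / 4 with hT
  have hT0 : 0 ≤ T := Finset.sum_nonneg (fun x _ => by positivity)
  have hT4 : ∑ x ∈ A, ‖x‖ ^ 2 = 4 * T := by
    rw [hT, Finset.mul_sum]
    apply Finset.sum_congr rfl
    intro x _; ring
  have h1 : ‖∑ x ∈ A, x‖ ^ 2 ≤ 4 * m * T - 2 * m ^ 2 + 2 * m := by
    rw [← real_inner_self_eq_norm_sq, sum_inner]
    have h2 : ∀ x ∈ A, ⟪x, ∑ y ∈ A, y⟫_ℝ ≤ m * ‖x‖ ^ 2 / 2 + 2 * T - 2 * m + 2 := by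
      intro x hx
      rw [inner_sum]
      have h3 : ∀ y ∈ A, ⟪x, y⟫_ℝ ≤ ‖x‖ ^ 2 / 2 + ‖y‖ ^ 2 / 2 - 2 + (if y = x then 2 else 0) := by
        intro y hy
        split_ifs with hxy
        · rw [hxy, real_inner_self_eq_norm_sq]; linarith
        · have h4 := hA x hx y hy (fun h => hxy h.symm)
          rw [dist_eq_norm] at h4
          have h5 := norm_sub_sq_real x y
          nlinarith
      calc ∑ y ∈ A, ⟪x, y⟫_ℝ ≤ ∑ y ∈ A, (‖x‖ ^ 2 / 2 + ‖y‖ ^ 2 / 2 - 2 +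
            (if y = x then 2 else 0)) := Finset.sum_le_sum h3
        _ = _ := by
            rw [Finset.sum_add_distrib, Finset.sum_sub_distrib, Finset.sum_add_distrib,
              Finset.sum_const, Finset.sum_const, Finset.sum_ite_eq' A x, if_pos hx,
              ← Finset.sum_div, hT4, nsmul_eq_mul, nsmul_eq_mul]
            ring
    calc ∑ x ∈ A, ⟪x, ∑ y ∈ A, y⟫_ℝ ≤ ∑ x ∈ A, (m * ‖x‖ ^ 2 / 2 + 2 * T - 2 * m + 2) :=
          Finset.sum_le_sum h2
      _ = _ := by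
          rw [Finset.sum_add_distrib, Finset.sum_sub_distrib, Finset.sum_add_distrib,
            Finset.sum_const, Finset.sum_const, Finset.sum_const, ← Finset.sum_div,
            ← Finset.mul_sum, hT4, nsmul_eq_mul, nsmul_eq_mul, nsmul_eq_mul]
          ring
  have h2 : (0 : ℝ) < √2 := by positivity
  have h3 : √2 ^ 2 = 2 := Real.sq_sqrt (by norm_num)
  apply le_of_sq_le_sq _ (by positivity)
  have h4 : (√2 * T + 1 / √2) ^ 2 = 2 * T ^ 2 + 2 * T + 1 / 2 := by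
    have : (√2 * T + 1 / √2) ^ 2 = √2 ^ 2 * T ^ 2 + 2 * T + 1 / √2 ^ 2 := by
      field_simp
      ring
    rw [this, h3]
  rw [h4]
  nlinarith [sq_nonneg (T - m + 1 / 2)]

/-- Rankin's inequality -/
lemma rankin_pt {X : Finset E} (hX : Sep 2 X) {z : E} (hz : ‖z‖ ≤ 1) :
    ∑ x ∈ X, max 0 (⟪x, z⟫_ℝ - √2 * (‖x‖ ^ 2 / 4)) ≤ 1 / √2 := by
  classical
  set A := X.filter (fun x => 0 ≤ ⟪x, z⟫_ℝ - √2 * (‖x‖ ^ 2 / 4)) with hA
  have h1 : ∑ x ∈ X, max 0 (⟪x, z⟫_ℝ - √2 * (‖x‖ ^ 2 / 4)) =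
      ∑ x ∈ A, (⟪x, z⟫_ℝ - √2 * (‖x‖ ^ 2 / 4)) := by
    rw [hA, Finset.sum_filter]
    apply Finset.sum_congr rfl
    intro x _
    split_ifs with h
    · exact max_eq_right h
    · exact max_eq_left (not_le.1 h).le
  rw [h1, Finset.sum_sub_distrib, ← sum_inner, ← Finset.mul_sum]
  have h2 := norm_sum_le (hX.mono (Finset.filter_subset _ _) : Sep 2 A)
  have h3 := real_inner_le_norm (∑ x ∈ A, x) z
  have h4 : ‖∑ x ∈ A, x‖ * ‖z‖ ≤ ‖∑ x ∈ A, x‖ * 1 :=
    mul_le_mul_of_nonneg_left hz (norm_nonneg _)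
  linarith

set_option maxHeartbeats 1000000 in
/-- the integral of a cap function -/
lemma rankin_int {x : E} (hx2 : 2 ≤ ‖x‖) :
    √(1 - ‖x‖ ^ 2 / 8) ^ (Module.finrank ℝ E + 3) * vb E ≤
      106 * (Module.finrank ℝ E : ℝ) ^ 2 *
      ∫ z in closedBall (0 : E) 1, max 0 (⟪x, z⟫_ℝ - √2 * (‖x‖ ^ 2 / 4)) := by
  have hne : Nontrivial E := by
    refine ⟨x, 0, ?_⟩
    intro h; rw [h, norm_zero] at hx2; norm_num at hx2
  have hn : 0 < Module.finrank ℝ E := Module.finrank_pos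
  obtain ⟨m, hm⟩ : ∃ m, Module.finrank ℝ E = m + 1 := ⟨Module.finrank ℝ E - 1, by omega⟩
  have hint0 : 0 ≤ ∫ z in closedBall (0 : E) 1, max 0 (⟪x, z⟫_ℝ - √2 * (‖x‖ ^ 2 / 4)) :=
    integral_nonneg (fun z => le_max_left _ _)
  by_cases hs : 1 - ‖x‖ ^ 2 / 8 ≤ 0
  · rw [Real.sqrt_eq_zero_of_nonpos hs, zero_pow (by omega), zero_mul]
    positivity
  rw [not_le] at hs
  set s := 1 - ‖x‖ ^ 2 / 8 with hsdef
  have hs2 : s ≤ 1 / 2 := by rw [hsdef]; nlinarith
  set N : ℝ := (Module.finrank ℝ E : ℝ) with hN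
  have hN1 : 1 ≤ N := by rw [hN]; exact_mod_cast hn
  have hNm : N = m + 1 := by rw [hN, hm]; push_cast; rfl
  set δ := s / (8 * N) with hδ
  have hδ0 : 0 < δ := by positivity
  set c := √(1 - s) with hc
  have hc2 : c ^ 2 = 1 - s := Real.sq_sqrt (by linarith)
  have hc0 : 0 ≤ c := Real.sqrt_nonneg _
  have hc1 : c ≤ 1 := by nlinarith
  have hx0 : 0 < ‖x‖ := by linarith
  set u := ‖x‖⁻¹ • x with hu
  have hu1 : ‖u‖ = 1 := by
    rw [hu, norm_smul, norm_inv, norm_norm, inv_mul_cancel₀ hx0.ne']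
  set ρ := √s * (1 - 25 / (64 * N)) with hρ
  have hρ1 : 0 ≤ 1 - 25 / (64 * N) := by
    have : 25 / (64 * N) ≤ 1 := by
      rw [div_le_one (by positivity)]; linarith
    linarith
  have hρ0 : 0 ≤ ρ := mul_nonneg (Real.sqrt_nonneg _) hρ1
  have hρ2 : ρ ^ 2 ≤ s * (1 - 17 / (32 * N)) := by
    rw [hρ, mul_pow, Real.sq_sqrt hs.le]
    apply mul_le_mul_of_nonneg_left _ hs.le
    have h1 : 1 / N ≤ 1 := by rw [div_le_one (by positivity)]; exact hN1
    have h0 : 0 ≤ 1 / N := by positivity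
    have e1 : 25 / (64 * N) = 25 / 64 * (1 / N) := by field_simp
    have e2 : 17 / (32 * N) = 17 / 32 * (1 / N) := by field_simp
    rw [e1, e2]
    nlinarith
  have hδs : 4 * δ + 4 * δ ^ 2 ≤ s * (17 / (32 * N)) := by
    have h1 : δ ≤ 1 / 16 := by
      rw [hδ, div_le_iff₀ (by positivity)]; linarith
    have h2 : s * (17 / (32 * N)) = 17 / 4 * δ := by rw [hδ]; field_simp; norm_num
    rw [h2]; nlinarith
  set C : Set E := {z : E | (c + δ ≤ ⟪u, z⟫_ℝ ∧ ⟪u, z⟫_ℝ ≤ c + 2 * δ) ∧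
    ‖z‖ ^ 2 - ⟪u, z⟫_ℝ ^ 2 ≤ ρ ^ 2} with hC
  have hCvol := cyl_vol hu1 (a := c + δ) (b := c + 2 * δ) (by linarith) hρ0
  rw [← hC] at hCvol
  have hCball : C ⊆ closedBall 0 1 := by
    rintro z ⟨⟨h1, h2⟩, h3⟩
    rw [mem_closedBall_zero_iff]
    have h4 : ‖z‖ ^ 2 ≤ 1 := by
      have h5 : 0 ≤ ⟪u, z⟫_ℝ := by linarith
      have h6 : ⟪u, z⟫_ℝ ^ 2 ≤ (c + 2 * δ) ^ 2 := by nlinarith
      nlinarith
    nlinarith [norm_nonneg z]
  have hfc : Continuous (fun z : E => ⟪u, z⟫_ℝ) := continuous_const.inner continuous_id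
  have hCm : MeasurableSet C := by
    apply IsClosed.measurableSet
    apply IsClosed.inter
    · apply IsClosed.inter
      · exact isClosed_le continuous_const hfc
      · exact isClosed_le hfc continuous_const
    · exact isClosed_le ((continuous_norm.pow 2).sub (hfc.pow 2)) continuous_const
  have hgc : Continuous (fun z : E => max 0 (⟪x, z⟫_ℝ - √2 * (‖x‖ ^ 2 / 4))) := by
    apply continuous_const.max
    exact (continuous_const.inner continuous_id).sub continuous_const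
  have hgi : IntegrableOn (fun z : E => max 0 (⟪x, z⟫_ℝ - √2 * (‖x‖ ^ 2 / 4)))
      (closedBall (0 : E) 1) := hgc.continuousOn.integrableOn_compact (isCompact_closedBall _ _)
  have hlow : ∀ z ∈ C, 2 * δ ≤ max 0 (⟪x, z⟫_ℝ - √2 * (‖x‖ ^ 2 / 4)) := by
    rintro z ⟨⟨h1, h2⟩, h3⟩
    refine le_trans ?_ (le_max_right _ _)
    have hxu : ⟪x, z⟫_ℝ = ‖x‖ * ⟪u, z⟫_ℝ := by
      rw [hu, real_inner_smul_left, ← mul_assoc, mul_inv_cancel₀ hx0.ne', one_mul]
    have h4 : √2 * (‖x‖ ^ 2 / 4) = ‖x‖ * c := by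
      have h5 : c = √2 * ‖x‖ / 4 := by
        rw [hc, Real.sqrt_eq_iff_mul_self_eq (by linarith) (by positivity)]
        have : √2 * √2 = 2 := Real.mul_self_sqrt (by norm_num)
        calc 1 - s = 2 * ‖x‖ ^ 2 / 16 := by rw [hsdef]; ring
          _ = (√2 * √2) * ‖x‖ ^ 2 / 16 := by rw [this]
          _ = _ := by ring
      rw [h5]; ring
    rw [hxu, h4]
    have h7 := mul_nonneg (sub_nonneg.2 hx2) (show 0 ≤ ⟪u, z⟫_ℝ - c by linarith)
    have h8 : (‖x‖ - 2) * (⟪u, z⟫_ℝ - c) = ‖x‖ * ⟪u, z⟫_ℝ - ‖x‖ * c - 2 * (⟪u, z⟫_ℝ - c) := by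
      ring
    rw [h8] at h7
    linarith
  have hI : 2 * δ * volume.real C ≤
      ∫ z in closedBall (0 : E) 1, max 0 (⟪x, z⟫_ℝ - √2 * (‖x‖ ^ 2 / 4)) := by
    have hCfin : volume C ≠ ⊤ :=
      ((measure_mono hCball).trans_lt measure_closedBall_lt_top).ne
    refine le_trans ?_ (setIntegral_mono_set hgi (Eventually.of_forall (fun z => le_max_left _ _))
      hCball.eventuallyLE)
    exact setIntegral_ge_of_const_le_real hCm hCfin hlow (hgi.mono_set hCball)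
  have hpow : √s ^ m * (39 / 64) ≤ ρ ^ m := by
    rw [hρ, mul_pow]
    apply mul_le_mul_of_nonneg_left _ (by positivity)
    have h1 := one_add_mul_le_pow (a := - (25 / (64 * N))) (by linarith) m
    have h2 : 39 / 64 ≤ 1 + (m : ℝ) * (-(25 / (64 * N))) := by
      have h3 : (m : ℝ) * (25 / (64 * N)) ≤ 25 / 64 := by
        rw [mul_div_assoc', div_le_div_iff₀ (by positivity) (by norm_num)]
        nlinarith
      linarith
    calc (39 : ℝ) / 64 ≤ _ := h2.trans h1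
      _ = _ := by ring
  rw [hm, Nat.add_sub_cancel] at hCvol
  rw [hm]
  have hv := vb_pos (E := E)
  have hsq : √s ^ (m + 1 + 3) = √s ^ m * s ^ 2 := by
    have : √s ^ 2 = s := Real.sq_sqrt hs.le
    calc √s ^ (m + 1 + 3) = √s ^ m * (√s ^ 2) ^ 2 := by ring
      _ = _ := by rw [this]
  rw [hsq]
  have h1 : δ ^ 2 * (√s ^ m * (39 / 64)) * vb E ≤ 2 * δ * volume.real C := by
    calc δ ^ 2 * (√s ^ m * (39 / 64)) * vb E ≤ δ ^ 2 * ρ ^ m * vb E := by
          apply mul_le_mul_of_nonneg_right _ hv.le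
          exact mul_le_mul_of_nonneg_left hpow (by positivity)
      _ = 2 * δ * ((c + 2 * δ - (c + δ)) * ρ ^ m * (vb E / 2)) := by ring
      _ ≤ _ := mul_le_mul_of_nonneg_left hCvol (by positivity)
  have h2 := h1.trans hI
  have h3 : δ ^ 2 * (√s ^ m * (39 / 64)) * vb E * (64 * 64 / 39 * N ^ 2) =
      √s ^ m * s ^ 2 * vb E := by
    rw [hδ]; field_simp; norm_num
  rw [← h3]
  calc δ ^ 2 * (√s ^ m * (39 / 64)) * vb E * (64 * 64 / 39 * N ^ 2) ≤
      (∫ z in closedBall (0 : E) 1, max 0 (⟪x, z⟫_ℝ - √2 * (‖x‖ ^ 2 / 4))) *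
        (106 * N ^ 2) := by
        apply mul_le_mul h2 _ (by positivity) hint0
        apply mul_le_mul_of_nonneg_right (by norm_num) (by positivity)
    _ = _ := by ring

/-- **Weighted Rankin inequality.** -/
lemma rankin {X : Finset E} (hX : Sep 2 X) (hX2 : ∀ x ∈ X, 2 ≤ ‖x‖) :
    ∑ x ∈ X, √(1 - ‖x‖ ^ 2 / 8) ^ (Module.finrank ℝ E + 3) ≤
      75 * (Module.finrank ℝ E : ℝ) ^ 2 := by
  have hv := vb_pos (E := E)
  have hgi : ∀ x : E, IntegrableOn (fun z : E => max 0 (⟪x, z⟫_ℝ - √2 * (‖x‖ ^ 2 / 4)))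
      (closedBall (0 : E) 1) := by
    intro x
    have hgc : Continuous (fun z : E => max 0 (⟪x, z⟫_ℝ - √2 * (‖x‖ ^ 2 / 4))) := by
      apply continuous_const.max
      exact (continuous_const.inner continuous_id).sub continuous_const
    exact hgc.continuousOn.integrableOn_compact (isCompact_closedBall _ _)
  have h1 : ∑ x ∈ X, √(1 - ‖x‖ ^ 2 / 8) ^ (Module.finrank ℝ E + 3) * vb E ≤
      106 * (Module.finrank ℝ E : ℝ) ^ 2 * ∫ z in closedBall (0 : E) 1,
        ∑ x ∈ X, max 0 (⟪x, z⟫_ℝ - √2 * (‖x‖ ^ 2 / 4)) := by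
    rw [integral_finsetSum _ (fun x _ => hgi x), Finset.mul_sum]
    exact Finset.sum_le_sum (fun x hx => rankin_int (hX2 x hx))
  have h2 : ∫ z in closedBall (0 : E) 1, ∑ x ∈ X, max 0 (⟪x, z⟫_ℝ - √2 * (‖x‖ ^ 2 / 4)) ≤
      1 / √2 * vb E := by
    calc ∫ z in closedBall (0 : E) 1, ∑ x ∈ X, max 0 (⟪x, z⟫_ℝ - √2 * (‖x‖ ^ 2 / 4))
        ≤ ∫ z in closedBall (0 : E) 1, 1 / √2 := by
          apply setIntegral_mono_on
          · exact integrable_finsetSum _ (fun x _ => hgi x)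
          · exact integrableOn_const measure_closedBall_lt_top.ne
          · exact measurableSet_closedBall
          · intro z hz
            exact rankin_pt hX (mem_closedBall_zero_iff.1 hz)
      _ = _ := by
          rw [setIntegral_const, vol_closedBall _ zero_le_one, smul_eq_mul]; ring
  rw [← Finset.sum_mul] at h1
  have h3 : 106 * (Module.finrank ℝ E : ℝ) ^ 2 * (1 / √2 * vb E) ≤
      75 * (Module.finrank ℝ E : ℝ) ^ 2 * vb E := by
    have h4 : 106 * (1 / √2) ≤ 75 := by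
      rw [mul_one_div, div_le_iff₀ (by positivity)]
      have : (1.4142 : ℝ) ≤ √2 := Real.le_sqrt_of_sq_le (by norm_num)
      linarith
    have h5 : 0 ≤ (Module.finrank ℝ E : ℝ) ^ 2 * vb E := by positivity
    nlinarith
  have h4 := h1.trans ((mul_le_mul_of_nonneg_left h2 (by positivity)).trans h3)
  exact le_of_mul_le_mul_right h4 hv

end

end Pool.Agent.H818R2
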