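import Pool.Agent.H818R2.Base2

open MeasureTheory Metric Filter Set
open scoped Topology Pointwise

namespace Pool.Agent.H818R2

section overlap
variable {V : Type*} [NormedAddCommGroup V] [InnerProductSpace ℝ V] [FiniteDimensional ℝ V]
  [MeasurableSpace V] [BorelSpace V]

lemma inter_sub (u u' : V) {t q : ℝ} (ht : 0 ≤ t) (hq : t ^ 2 - dist u u' ^ 2 / 4 ≤ q) :
    closedBall u t ∩ closedBall u' t ⊆ closedBall ((1 / 2 : ℝ) • (u + u')) (√q) := by
  rintro z ⟨hz, hz'⟩
  rw [mem_closedBall, dist_eq_norm] at hz hz' ⊢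
  apply Real.le_sqrt_of_sq_le
  have h1 := parallelogram_law_with_norm ℝ (z - u) (z - u')
  have h2 : z - u + (z - u') = (2 : ℝ) • (z - (1 / 2 : ℝ) • (u + u')) := by
    rw [smul_sub, smul_smul, two_smul]; norm_num; abel
  have h3 : z - u - (z - u') = u' - u := by abel
  rw [h2, h3, norm_smul, Real.norm_of_nonneg (by norm_num : (0 : ℝ) ≤ 2), ← dist_eq_norm u' u,
    dist_comm u' u] at h1
  have h4 : ‖z - u‖ * ‖z - u‖ ≤ t * t := mul_self_le_mul_self (norm_nonneg _) hz
  have h5 : ‖z - u'‖ * ‖z - u'‖ ≤ t * t := mul_self_le_mul_self (norm_nonneg _) hz'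
  nlinarith

lemma overlap (u u' : V) {t q : ℝ} (ht : 0 ≤ t) (hq : t ^ 2 - dist u u' ^ 2 / 4 ≤ q) :
    volume.real (closedBall u t ∩ closedBall u' t) ≤ √q ^ Module.finrank ℝ V * vb V := by
  rw [← vol_closedBall ((1 / 2 : ℝ) • (u + u')) (Real.sqrt_nonneg q)]
  exact measureReal_mono (inter_sub u u' ht hq) measure_closedBall_lt_top.ne

end overlap

section
variable {U V : Type*} [NormedAddCommGroup U] [InnerProductSpace ℝ U] [FiniteDimensional ℝ U]
  [MeasurableSpace U] [BorelSpace U]
  [NormedAddCommGroup V] [InnerProductSpace ℝ V] [FiniteDimensional ℝ V]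
  [MeasurableSpace V] [BorelSpace V]

lemma dist_sq (p p' : WithLp 2 (U × V)) :
    dist p p' ^ 2 = dist p.fst p'.fst ^ 2 + dist p.snd p'.snd ^ 2 := by
  rw [WithLp.prod_dist_eq_of_L2, Real.sq_sqrt (by positivity)]

open Classical in
lemma alteration {P : Finset (WithLp 2 (U × V))} {R : ℝ} (hR : 0 ≤ R)
    (hU : ∀ p ∈ P, ‖p.fst‖ ≤ R) (hV : ∀ p ∈ P, ‖p.snd‖ ≤ R) {t : ℝ} (ht : 0 < t)
    {D : ℝ} (hD0 : 0 < D)
    (hconf : ∀ p ∈ P, ∑ p' ∈ P.filter (fun p' => p ≠ p' ∧ dist p.fst p'.fst ^ 2 < D),
      volume.real (closedBall p.snd t ∩ closedBall p'.snd t) ≤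
      1 / 2 * t ^ Module.finrank ℝ V * vb V) :
    ∃ Q : Finset U, Sep (√D) Q ∧ (∀ x ∈ Q, ‖x‖ ≤ R) ∧
      1 / 2 * P.card * t ^ Module.finrank ℝ V ≤ Q.card * (R + t) ^ Module.finrank ℝ V := by
  set k := Module.finrank ℝ V with hk
  set conf : WithLp 2 (U × V) → WithLp 2 (U × V) → Prop :=
    fun p p' => p ≠ p' ∧ dist p.fst p'.fst ^ 2 < D with hconfdef
  set S : V → Finset (WithLp 2 (U × V)) := fun y => P.filter (fun p => y ∈ closedBall p.snd t)
    with hS
  set Qy : V → Finset (WithLp 2 (U × V)) := fun y =>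
    (S y).filter (fun p => ∀ p' ∈ S y, ¬ conf p p') with hQy
  set g : V → ℝ := fun y => ∑ p ∈ P, (indicator (closedBall p.snd t) (fun _ => (1 : ℝ)) y -
    ∑ p' ∈ P.filter (conf p), indicator (closedBall p.snd t ∩ closedBall p'.snd t)
      (fun _ => (1 : ℝ)) y) with hg
  -- lower bound of the number of retained points
  have hgQ : ∀ y, g y ≤ (Qy y).card := by
    intro y
    have e1 : ∑ p ∈ P, indicator (closedBall p.snd t) (fun _ => (1 : ℝ)) y = (S y).card := by
      rw [hS, Finset.card_filter, Nat.cast_sum]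
      apply Finset.sum_congr rfl
      intro p _
      by_cases h : y ∈ closedBall p.snd t <;> simp [indicator, h]
    have e2 : ∑ p ∈ P, ∑ p' ∈ P.filter (conf p),
        indicator (closedBall p.snd t ∩ closedBall p'.snd t) (fun _ => (1 : ℝ)) y
        = ∑ p ∈ S y, (((S y).filter (conf p)).card : ℝ) := by
      rw [hS, Finset.sum_filter]
      apply Finset.sum_congr rfl
      intro p _
      by_cases h : y ∈ closedBall p.snd t
      · rw [if_pos h, Finset.card_filter, Nat.cast_sum, Finset.sum_filter, Finset.sum_filter]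
        apply Finset.sum_congr rfl
        intro p' _
        by_cases h' : y ∈ closedBall p'.snd t <;> by_cases h'' : conf p p' <;>
          simp [indicator, h, h', h'', -mem_closedBall]
      · rw [if_neg h]
        apply Finset.sum_eq_zero
        intro p' _
        simp [indicator, h, -mem_closedBall]
    have e3 : g y = (S y).card - ∑ p ∈ S y, (((S y).filter (conf p)).card : ℝ) := by
      rw [hg]; simp only [Finset.sum_sub_distrib]
      rw [e1, e2]
    rw [e3]
    have e4 : ((S y).card : ℝ) = (Qy y).card +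
        ((S y).filter (fun p => ¬ ∀ p' ∈ S y, ¬ conf p p')).card := by
      rw [hQy]
      exact_mod_cast (Finset.card_filter_add_card_filter_not (s := S y)
        (fun p => ∀ p' ∈ S y, ¬ conf p p')).symm
    have e5 : (((S y).filter (fun p => ¬ ∀ p' ∈ S y, ¬ conf p p')).card : ℝ) ≤
        ∑ p ∈ S y, (((S y).filter (conf p)).card : ℝ) := by
      rw [Finset.card_filter, Nat.cast_sum]
      apply Finset.sum_le_sum
      intro p _
      by_cases h : ∀ p' ∈ S y, ¬ conf p p'
      · rw [if_neg (not_not.2 h)]; simp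
      · rw [if_pos h]
        have h' : ∃ p' ∈ S y, conf p p' := by
          by_contra hcon
          exact h (fun p' hp' hc => hcon ⟨p', hp', hc⟩)
        obtain ⟨p', hp', hc⟩ := h'
        have : 0 < ((S y).filter (conf p)).card :=
          Finset.card_pos.2 ⟨p', Finset.mem_filter.2 ⟨hp', hc⟩⟩
        exact_mod_cast this
    linarith
  -- the integral of `g`
  set B : Set V := closedBall (0 : V) (R + t) with hB
  have hBvol : volume.real B = (R + t) ^ k * vb V := vol_closedBall _ (by linarith)
  have hBpos : 0 < volume.real B := by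
    rw [hBvol]; have := vb_pos (E := V); positivity
  have hint1 : ∀ A : Set V, MeasurableSet A →
      IntegrableOn (indicator A (fun _ => (1 : ℝ))) B volume := by
    intro A hA
    apply Integrable.indicator _ hA
    exact integrableOn_const measure_closedBall_lt_top.ne
  have hint2 : ∀ p ∈ P, IntegrableOn (fun y => ∑ p' ∈ P.filter (conf p),
      indicator (closedBall p.snd t ∩ closedBall p'.snd t) (fun _ => (1 : ℝ)) y) B volume := by
    intro p _
    apply integrable_finsetSum
    intro p' _
    exact hint1 _ (measurableSet_closedBall.inter measurableSet_closedBall)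
  have hgint : IntegrableOn g B volume := by
    apply integrable_finsetSum
    intro p hp
    exact (hint1 _ measurableSet_closedBall).sub (hint2 p hp)
  have hI1 : ∀ p ∈ P, ∫ y in B, indicator (closedBall p.snd t) (fun _ => (1 : ℝ)) y
      = t ^ k * vb V := by
    intro p hp
    rw [integral_indicator_const (1 : ℝ) measurableSet_closedBall, smul_eq_mul, mul_one,
      measureReal_restrict_apply measurableSet_closedBall, inter_eq_left.2, vol_closedBall _ ht.le]
    apply closedBall_subset_closedBall'
    rw [dist_zero_right]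
    linarith [hV p hp]
  have hI2 : ∀ p ∈ P, ∫ y in B, (∑ p' ∈ P.filter (conf p),
      indicator (closedBall p.snd t ∩ closedBall p'.snd t) (fun _ => (1 : ℝ)) y)
      ≤ 1 / 2 * t ^ k * vb V := by
    intro p hp
    rw [integral_finsetSum _ (fun p' _ =>
      hint1 _ (measurableSet_closedBall.inter measurableSet_closedBall))]
    refine le_trans (Finset.sum_le_sum fun p' _ => ?_) (hconf p hp)
    rw [integral_indicator_const (1 : ℝ) (measurableSet_closedBall.inter
        measurableSet_closedBall), smul_eq_mul, mul_one, measureReal_restrict_apply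
        (measurableSet_closedBall.inter measurableSet_closedBall)]
    exact measureReal_mono inter_subset_left
            ((measure_mono inter_subset_left).trans_lt measure_closedBall_lt_top).ne
  have hI : 1 / 2 * P.card * t ^ k * vb V ≤ ∫ y in B, g y := by
    have e1 : ∫ y in B, g y = ∑ p ∈ P, ((∫ y in B, indicator (closedBall p.snd t)
        (fun _ => (1 : ℝ)) y) - ∫ y in B, (∑ p' ∈ P.filter (conf p),
        indicator (closedBall p.snd t ∩ closedBall p'.snd t) (fun _ => (1 : ℝ)) y)) := by
      rw [hg, integral_finsetSum]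
      · apply Finset.sum_congr rfl
        intro p hp
        exact integral_sub (hint1 _ measurableSet_closedBall) (hint2 p hp)
      · intro p hp
        exact (hint1 _ measurableSet_closedBall).sub (hint2 p hp)
    rw [e1]
    have e2 : ∀ p ∈ P, 1 / 2 * t ^ k * vb V ≤ ((∫ y in B, indicator (closedBall p.snd t)
        (fun _ => (1 : ℝ)) y) - ∫ y in B, (∑ p' ∈ P.filter (conf p),
        indicator (closedBall p.snd t ∩ closedBall p'.snd t) (fun _ => (1 : ℝ)) y)) := by
      intro p hp
      have h1 := hI1 p hp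
      have h2 := hI2 p hp
      rw [h1]
      linarith
    calc 1 / 2 * P.card * t ^ k * vb V = ∑ p ∈ P, 1 / 2 * t ^ k * vb V := by
          rw [Finset.sum_const, nsmul_eq_mul]; ring
      _ ≤ _ := Finset.sum_le_sum e2
  -- choose a good slice
  have hB0 : volume B ≠ 0 := by
    intro h; rw [measureReal_def, h] at hBpos; simp at hBpos
  obtain ⟨y, -, hy⟩ := exists_setAverage_le hB0 measure_closedBall_lt_top.ne hgint
  rw [setAverage_eq, smul_eq_mul] at hy
  have hy2 : 1 / 2 * P.card * t ^ k ≤ (Qy y).card * (R + t) ^ k := by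
    have h1 : ∫ y in B, g y ≤ volume.real B * g y := by
      rw [inv_mul_le_iff₀ hBpos] at hy
      exact hy
    have h2 : volume.real B * g y ≤ volume.real B * (Qy y).card :=
      mul_le_mul_of_nonneg_left (hgQ y) hBpos.le
    rw [hBvol] at h1 h2
    have h3 : 1 / 2 * P.card * t ^ k * vb V ≤ ((Qy y).card * (R + t) ^ k) * vb V := by
      calc _ ≤ _ := hI.trans (h1.trans h2)
        _ = _ := by ring
    exact le_of_mul_le_mul_right h3 vb_pos
  -- project
  have hinj : Set.InjOn (fun p : WithLp 2 (U × V) => p.fst) (Qy y) := by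
    intro p hp p' hp' hpp
    by_contra hne
    have hp1 := (Finset.mem_filter.1 hp)
    have hp2 := (Finset.mem_filter.1 hp').1
    apply hp1.2 p' hp2
    refine ⟨hne, ?_⟩
    simp only at hpp
    rw [hpp, dist_self]; simpa using hD0
  refine ⟨(Qy y).image (fun p => p.fst), ?_, ?_, ?_⟩
  · intro x hx x' hx' hxx
    obtain ⟨p, hp, rfl⟩ := Finset.mem_image.1 hx
    obtain ⟨p', hp', rfl⟩ := Finset.mem_image.1 hx'
    have hp1 := (Finset.mem_filter.1 hp)
    have hp2 := (Finset.mem_filter.1 hp').1
    have h3 := hp1.2 p' hp2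
    have hne : p ≠ p' := fun h => hxx (by rw [h])
    have h4 : D ≤ dist p.fst p'.fst ^ 2 := by
      by_contra hcon
      exact h3 ⟨hne, not_le.1 hcon⟩
    exact Real.sqrt_le_iff.2 ⟨dist_nonneg, h4⟩
  · intro x hx
    obtain ⟨p, hp, rfl⟩ := Finset.mem_image.1 hx
    exact hU p (Finset.mem_filter.1 (Finset.mem_filter.1 hp).1).1
  · rw [Finset.card_image_of_injOn hinj]
    exact hy2

end

end Pool.Agent.H818R2
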