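import Pool.Agent.H818R2.Slice

open MeasureTheory Metric Filter Set
open scoped Topology Pointwise

namespace Pool.Agent.H818R2

section
variable {U V : Type*} [NormedAddCommGroup U] [InnerProductSpace ℝ U] [FiniteDimensional ℝ U]
  [MeasurableSpace U] [BorelSpace U]
  [NormedAddCommGroup V] [InnerProductSpace ℝ V] [FiniteDimensional ℝ V]
  [MeasurableSpace V] [BorelSpace V]

/-- the product of two balls of radius `R` -/
def box (U V : Type*) [NormedAddCommGroup U] [NormedAddCommGroup V] (R : ℝ) :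
    Set (WithLp 2 (U × V)) := {p | ‖p.fst‖ ≤ R ∧ ‖p.snd‖ ≤ R}

lemma box_meas (R : ℝ) : MeasurableSet (box U V R) := by
  apply IsClosed.measurableSet
  unfold box
  apply IsClosed.inter
  · exact isClosed_le ((WithLp.continuous_fst _ _ _).norm) continuous_const
  · exact isClosed_le ((WithLp.continuous_snd _ _ _).norm) continuous_const

lemma box_sub {R : ℝ} (hR : 0 ≤ R) : box U V R ⊆ closedBall 0 (2 * R) := by
  rintro p ⟨h1, h2⟩
  rw [mem_closedBall]
  have h := dist_sq p 0
  rw [show (0 : WithLp 2 (U × V)).fst = 0 from rfl, show (0 : WithLp 2 (U × V)).snd = 0 from rfl,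
    dist_zero_right p.fst, dist_zero_right p.snd] at h
  have h3 := norm_nonneg p.fst
  have h4 := norm_nonneg p.snd
  have h5 : (0 : ℝ) ≤ dist p 0 := dist_nonneg
  nlinarith

lemma box_vol {R : ℝ} (hR : 0 ≤ R) : volume.real (box U V R) =
    (R ^ Module.finrank ℝ U * vb U) * (R ^ Module.finrank ℝ V * vb V) := by
  have h1 : (WithLp.toLp 2) ⁻¹' (box U V R) = (closedBall (0 : U) R) ×ˢ (closedBall (0 : V) R) := by
    ext ⟨u, v⟩
    simp [box]
  have h2 := (WithLp.volume_preserving_toLp U V).measure_preimage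
    (box_meas (U := U) (V := V) R).nullMeasurableSet
  rw [h1] at h2
  rw [measureReal_def, ← h2, Measure.volume_eq_prod, Measure.prod_prod, ENNReal.toReal_mul,
    ← measureReal_def, ← measureReal_def, vol_closedBall _ hR, vol_closedBall _ hR]

lemma finrank_withLp : Module.finrank ℝ (WithLp 2 (U × V)) =
    Module.finrank ℝ U + Module.finrank ℝ V := by
  rw [(WithLp.linearEquiv 2 ℝ (U × V)).finrank_eq, Module.finrank_prod]

open Classical in
/-- **Slicing with alteration.** -/
theorem slice [Nontrivial U] {t : ℝ} (ht : 0 < t)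
    {D : ℝ} (hD0 : 0 < D)
    (hconf : ∀ P : Finset (WithLp 2 (U × V)), Sep 2 P → ∀ p ∈ P,
      ∑ p' ∈ P.filter (fun p' => p ≠ p' ∧ dist p.fst p'.fst ^ 2 < D),
      volume.real (closedBall p.snd t ∩ closedBall p'.snd t) ≤
      1 / 2 * t ^ Module.finrank ℝ V * vb V) :
    1 / 2 * t ^ Module.finrank ℝ V * (√D / 2) ^ Module.finrank ℝ U *
      (vb U * vb V / vb (WithLp 2 (U × V))) * optDensity (WithLp 2 (U × V)) ≤ optDensity U := by
  set k := Module.finrank ℝ V with hk
  set d := Module.finrank ℝ U with hd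
  set A := 1 / 2 * t ^ k * (√D / 2) ^ d * (vb U * vb V / vb (WithLp 2 (U × V))) *
    optDensity (WithLp 2 (U × V)) with hA
  have hvU := vb_pos (E := U)
  have hvV := vb_pos (E := V)
  have hvF := vb_pos (E := WithLp 2 (U × V))
  have hsD : 0 < √D := Real.sqrt_pos.2 hD0
  have hA0 : 0 ≤ A := by
    have := optDensity_nonneg (E := WithLp 2 (U × V))
    positivity
  -- separated sets of `U`
  have key : ∀ R : ℝ, 0 < R → ∃ Q : Finset U, Sep 2 Q ∧ (∀ x ∈ Q, ‖x‖ ≤ 2 / √D * R) ∧
      A * (2 / √D * R) ^ d * (R / (R + t)) ^ k ≤ Q.card := by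
    intro R hR
    have hbv := box_vol (U := U) (V := V) hR.le
    have hbpos : 0 < volume.real (box U V R) := by rw [hbv]; positivity
    obtain ⟨P, hPs, hPb, hPc⟩ := exists_large (box_meas R) (a := 2 * R) (by linarith)
      (box_sub hR.le) hbpos
    obtain ⟨Q, hQs, hQR, hQc⟩ := alteration hR.le (fun p hp => (hPb hp).1)
      (fun p hp => (hPb hp).2) ht hD0 (hconf P hPs)
    refine ⟨Q.image (fun x => (2 / √D) • x), ?_, ?_, ?_⟩
    · intro x hx y hy hxy
      obtain ⟨u, hu, rfl⟩ := Finset.mem_image.1 hx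
      obtain ⟨v, hv, rfl⟩ := Finset.mem_image.1 hy
      have huv : u ≠ v := fun h => hxy (by rw [h])
      rw [dist_smul₀, Real.norm_of_nonneg (by positivity)]
      have := hQs u hu v hv huv
      calc (2 : ℝ) = 2 / √D * √D := by field_simp
        _ ≤ _ := mul_le_mul_of_nonneg_left this (by positivity)
    · intro x hx
      obtain ⟨u, hu, rfl⟩ := Finset.mem_image.1 hx
      rw [norm_smul, Real.norm_of_nonneg (by positivity)]
      exact mul_le_mul_of_nonneg_left (hQR u hu) (by positivity)
    · rw [Finset.card_image_of_injective _ (smul_right_injective U (by positivity))]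
      rw [hbv] at hPc
      have h1 : optDensity (WithLp 2 (U × V)) * (R ^ d * vb U * (R ^ k * vb V)) /
          vb (WithLp 2 (U × V)) ≤ P.card := by
        rw [div_le_iff₀ hvF]; exact hPc
      have h2 : 1 / 2 * P.card * t ^ k / (R + t) ^ k ≤ Q.card := by
        rw [div_le_iff₀ (by positivity)]; exact hQc
      refine le_trans (le_of_eq ?_) ((div_le_div_of_nonneg_right (mul_le_mul_of_nonneg_right
        (mul_le_mul_of_nonneg_left h1 (by norm_num)) (by positivity)) (by positivity)).trans h2)
      rw [hA, div_pow, mul_pow, div_pow, div_pow]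
      field_simp
  -- glue
  apply le_of_forall_lt_imp_le_of_dense
  intro c hc
  have hlim : Tendsto (fun R : ℝ => A * (R / (R + t)) ^ k) atTop (𝓝 (A * 1 ^ k)) := by
    apply Tendsto.const_mul
    apply Tendsto.pow
    have h1 : Tendsto (fun R : ℝ => 1 - t / (R + t)) atTop (𝓝 (1 - 0)) := by
      apply tendsto_const_nhds.sub
      apply tendsto_const_nhds.div_atTop
      exact tendsto_atTop_add_const_right _ _ tendsto_id
    rw [sub_zero] at h1
    refine h1.congr' ?_
    filter_upwards [eventually_gt_atTop 0] with R hR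
    have : R + t ≠ 0 := by positivity
    field_simp
    ring
  rw [one_pow, mul_one] at hlim
  have hev := hlim.eventually (lt_mem_nhds hc)
  obtain ⟨R1, hR1⟩ := eventually_atTop.1 hev
  apply glue (R0 := 2 / √D * max R1 1)
  intro R hR
  have hRpos : 0 < 2 / √D * max R1 1 := by
    have : (0 : ℝ) < max R1 1 := lt_of_lt_of_le one_pos (le_max_right _ _)
    positivity
  have hR' : max R1 1 ≤ √D / 2 * R := by
    calc max R1 1 = √D / 2 * (2 / √D * max R1 1) := by field_simp
      _ ≤ _ := mul_le_mul_of_nonneg_left hR (by positivity)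
  have hR'' : 0 < √D / 2 * R := lt_of_lt_of_le (lt_of_lt_of_le one_pos (le_max_right _ _)) hR'
  obtain ⟨Q, hQs, hQR, hQc⟩ := key (√D / 2 * R) hR''
  have e1 : 2 / √D * (√D / 2 * R) = R := by field_simp
  rw [e1] at hQR hQc
  refine ⟨Q, hQs, hQR, ?_⟩
  have h3 := (hR1 (√D / 2 * R) ((le_max_left _ _).trans hR')).le
  calc c * R ^ d ≤ A * (√D / 2 * R / (√D / 2 * R + t)) ^ k * R ^ d :=
        mul_le_mul_of_nonneg_right h3 (by have : 0 ≤ R := hRpos.le.trans hR; positivity)
    _ = A * R ^ d * (√D / 2 * R / (√D / 2 * R + t)) ^ k := by ring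
    _ ≤ _ := hQc

end

end Pool.Agent.H818R2
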