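import Pool.Agent.H818R2.Limit

open MeasureTheory Metric Filter Set
open scoped Topology InnerProductSpace

namespace Pool.Agent.H818R2

section
variable {E : Type*} [NormedAddCommGroup E] [InnerProductSpace ℝ E] [FiniteDimensional ℝ E]
  [MeasurableSpace E] [BorelSpace E]

open Classical in
/-- local replacement: a separated set in a ball of radius `R` has at most `ρ (R+2)^d` points -/
lemma replace [Nontrivial E] {X : Finset E} (hX : Sep 2 X) {R : ℝ} (hR : 0 ≤ R)
    (hXR : ∀ x ∈ X, ‖x‖ ≤ R) :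
    X.card / (R + 2) ^ Module.finrank ℝ E ≤ optDensity E := by
  set n := Module.finrank ℝ E with hn
  have hv := vb_pos (E := E)
  -- maximal separated sets have many points
  have key : ∀ T : ℝ, R ≤ T → ∃ P : Finset E, Sep 2 P ∧ (∀ x ∈ P, ‖x‖ ≤ T) ∧
      X.card * (T - R) ^ n ≤ P.card * (R + 2) ^ n := by
    intro T hT
    obtain ⟨P, hP, hPG, hmax⟩ := exists_max (E := E) (G := closedBall 0 T) (hR.trans hT) subset_rfl
    refine ⟨P, hP, fun x hx => mem_closedBall_zero_iff.1 (hPG hx), ?_⟩
    have h1 : ∀ y ∈ closedBall (0 : E) (T - R),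
        (X.card : ℝ) ≤ ∑ p ∈ P, indicator (closedBall p (R + 2)) (fun _ => (1 : ℝ)) y := by
      intro y hy
      rw [mem_closedBall_zero_iff] at hy
      set P1 := P.filter (fun p => y ∈ closedBall p (R + 2)) with hP1
      set P2 := P.filter (fun p => ¬ y ∈ closedBall p (R + 2)) with hP2
      have hsum : ∑ p ∈ P, indicator (closedBall p (R + 2)) (fun _ => (1 : ℝ)) y = P1.card := by
        rw [hP1, Finset.card_filter, Nat.cast_sum]
        apply Finset.sum_congr rfl
        intro p _
        by_cases h : y ∈ closedBall p (R + 2) <;> simp [indicator, h, -mem_closedBall]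
      rw [hsum]
      set Y := X.image (fun x => y + x) with hY
      have hYc : Y.card = X.card := Finset.card_image_of_injective _ (add_right_injective y)
      have hYd : ∀ u ∈ Y, dist u y ≤ R := by
        intro u hu
        obtain ⟨x, hx, rfl⟩ := Finset.mem_image.1 hu
        rw [dist_eq_norm, add_sub_cancel_left]
        exact hXR x hx
      have hfar : ∀ u ∈ Y, ∀ p ∈ P2, 2 < dist u p := by
        intro u hu p hp
        have h2 := (Finset.mem_filter.1 hp).2
        rw [mem_closedBall, not_le] at h2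
        have h3 := hYd u hu
        have h4 := dist_triangle y u p
        rw [dist_comm y u] at h4
        linarith
      have hdisj : Disjoint Y P2 := by
        rw [Finset.disjoint_left]
        intro u hu hu2
        have := hfar u hu u hu2
        rw [dist_self] at this
        linarith
      have h2 := hmax (Y ∪ P2) ?_ ?_
      · rw [Finset.card_union_of_disjoint hdisj, hYc] at h2
        have h3 : P1.card + P2.card = P.card := Finset.card_filter_add_card_filter_not _
        have h4 : X.card ≤ P1.card := by omega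
        exact_mod_cast h4
      · intro u hu v hv huv
        rw [Finset.mem_union] at hu hv
        rcases hu with hu | hu <;> rcases hv with hv | hv
        · obtain ⟨x, hx, rfl⟩ := Finset.mem_image.1 hu
          obtain ⟨x', hx', rfl⟩ := Finset.mem_image.1 hv
          rw [dist_add_left]
          exact hX x hx x' hx' (fun h => huv (by rw [h]))
        · exact (hfar u hu v hv).le
        · rw [dist_comm]; exact (hfar v hv u hu).le
        · exact hP u (Finset.mem_filter.1 hu).1 v (Finset.mem_filter.1 hv).1 huv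
      · intro u hu
        rw [Finset.mem_coe, Finset.mem_union] at hu
        rcases hu with hu | hu
        · have h3 := hYd u hu
          rw [mem_closedBall_zero_iff]
          rw [dist_eq_norm] at h3
          calc ‖u‖ = ‖(u - y) + y‖ := by rw [sub_add_cancel]
            _ ≤ ‖u - y‖ + ‖y‖ := norm_add_le _ _
            _ ≤ T := by linarith
        · exact hPG (Finset.mem_filter.1 hu).1
    have hint : ∀ p ∈ P, Integrable (indicator (closedBall p (R + 2)) (fun _ => (1 : ℝ))) volume := by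
      intro p _
      apply IntegrableOn.integrable_indicator _ measurableSet_closedBall
      exact integrableOn_const measure_closedBall_lt_top.ne
    have h2 : ∫ y in closedBall (0 : E) (T - R), (X.card : ℝ) ≤
        ∫ y in closedBall (0 : E) (T - R),
          ∑ p ∈ P, indicator (closedBall p (R + 2)) (fun _ => (1 : ℝ)) y := by
      apply setIntegral_mono_on
      · exact integrableOn_const measure_closedBall_lt_top.ne
      · exact (integrable_finsetSum _ hint).integrableOn
      · exact measurableSet_closedBall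
      · exact h1
    have h3 : ∫ y in closedBall (0 : E) (T - R),
          ∑ p ∈ P, indicator (closedBall p (R + 2)) (fun _ => (1 : ℝ)) y ≤
        ∫ y, ∑ p ∈ P, indicator (closedBall p (R + 2)) (fun _ => (1 : ℝ)) y := by
      apply setIntegral_le_integral (integrable_finsetSum _ hint)
      apply Eventually.of_forall
      intro y
      apply Finset.sum_nonneg
      intro p _
      apply indicator_nonneg
      intro _ _; norm_num
    have h4 : ∫ y, ∑ p ∈ P, indicator (closedBall p (R + 2)) (fun _ => (1 : ℝ)) y =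
        P.card * ((R + 2) ^ n * vb E) := by
      rw [integral_finsetSum _ hint]
      have : ∀ p ∈ P, ∫ y, indicator (closedBall p (R + 2)) (fun _ => (1 : ℝ)) y =
          (R + 2) ^ n * vb E := by
        intro p _
        rw [integral_indicator_const _ measurableSet_closedBall, smul_eq_mul, mul_one,
          vol_closedBall _ (by linarith)]
      rw [Finset.sum_congr rfl this, Finset.sum_const, nsmul_eq_mul]
    rw [setIntegral_const, vol_closedBall _ (by linarith), smul_eq_mul] at h2
    have h5 := h2.trans (h3.trans h4.le)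
    have h6 : X.card * (T - R) ^ n * vb E ≤ P.card * (R + 2) ^ n * vb E := by
      calc _ = (T - R) ^ Module.finrank ℝ E * vb E * X.card := by ring
        _ ≤ _ := h5
        _ = _ := by ring
    exact le_of_mul_le_mul_right h6 hv
  -- glue
  apply le_of_forall_lt_imp_le_of_dense
  intro c hc
  have hlim : Tendsto (fun T : ℝ => X.card / (R + 2) ^ n * ((T - R) / T) ^ n) atTop
      (𝓝 (X.card / (R + 2) ^ n * 1 ^ n)) := by
    apply Tendsto.const_mul
    apply Tendsto.pow
    have h1 : Tendsto (fun T : ℝ => 1 - R / T) atTop (𝓝 (1 - 0)) :=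
      tendsto_const_nhds.sub (tendsto_const_nhds.div_atTop tendsto_id)
    rw [sub_zero] at h1
    refine h1.congr' ?_
    filter_upwards [eventually_gt_atTop 0] with T hT
    field_simp
  rw [one_pow, mul_one] at hlim
  obtain ⟨T1, hT1⟩ := eventually_atTop.1 (hlim.eventually (lt_mem_nhds hc))
  apply glue (R0 := max (max T1 R) 1)
  intro T hT
  have hT1' : T1 ≤ T := ((le_max_left _ _).trans (le_max_left _ _)).trans hT
  have hTR : R ≤ T := ((le_max_right _ _).trans (le_max_left _ _)).trans hT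
  have hT0 : 0 < T := lt_of_lt_of_le one_pos ((le_max_right _ _).trans hT)
  obtain ⟨P, hP, hPT, hPc⟩ := key T hTR
  refine ⟨P, hP, hPT, ?_⟩
  have h1 := (hT1 T hT1').le
  calc c * T ^ n ≤ X.card / (R + 2) ^ n * ((T - R) / T) ^ n * T ^ n :=
        mul_le_mul_of_nonneg_right h1 (by positivity)
    _ = X.card * (T - R) ^ n / (R + 2) ^ n := by rw [div_pow]; field_simp
    _ ≤ P.card := by rw [div_le_iff₀ (by positivity)]; exact hPc

end

lemma cos_eq (θ : ℝ) : Real.cos θ = 1 - 2 * Real.sin (θ / 2) ^ 2 := by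
  have := Real.cos_two_mul (θ / 2)
  rw [show 2 * (θ / 2) = θ by ring] at this
  rw [this]
  nlinarith [Real.sin_sq_add_cos_sq (θ / 2)]

lemma sph_scale {d : ℕ} {θ : ℝ} (hs : 0 < Real.sin (θ / 2))
    {P : Finset (EuclideanSpace ℝ (Fin d))} (hP : IsSphCode d θ P) :
    Sep 2 (P.image (fun x => (1 / Real.sin (θ / 2)) • x)) ∧
    ∀ x ∈ P.image (fun x => (1 / Real.sin (θ / 2)) • x), ‖x‖ ≤ 1 / Real.sin (θ / 2) := by
  classical
  set s := Real.sin (θ / 2) with hsdef
  constructor
  · intro x hx y hy hxy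
    obtain ⟨u, hu, rfl⟩ := Finset.mem_image.1 hx
    obtain ⟨v, hv, rfl⟩ := Finset.mem_image.1 hy
    have huv : u ≠ v := fun h => hxy (by rw [h])
    have h1 := hP.2 u hu v hv huv
    rw [cos_eq] at h1
    have h2 := norm_sub_sq_real u v
    rw [hP.1 u hu, hP.1 v hv] at h2
    have h3 : 2 * s ≤ ‖u - v‖ := by
      apply le_of_sq_le_sq _ (norm_nonneg _)
      nlinarith
    rw [dist_smul₀, Real.norm_of_nonneg (by positivity), dist_eq_norm]
    calc (2 : ℝ) = 1 / s * (2 * s) := by field_simp
      _ ≤ _ := mul_le_mul_of_nonneg_left h3 (by positivity)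
  · intro x hx
    obtain ⟨u, hu, rfl⟩ := Finset.mem_image.1 hx
    rw [norm_smul, hP.1 u hu, Real.norm_of_nonneg (by positivity), mul_one]

lemma sph_card_le {d : ℕ} [NeZero d] {θ : ℝ} (hs : 0 < Real.sin (θ / 2))
    {P : Finset (EuclideanSpace ℝ (Fin d))} (hP : IsSphCode d θ P) :
    (P.card : ℝ) ≤ rho d * ((1 + 2 * Real.sin (θ / 2)) / Real.sin (θ / 2)) ^ d := by
  classical
  set s := Real.sin (θ / 2) with hsdef
  obtain ⟨h1, h2⟩ := sph_scale hs hP
  have h3 := replace h1 (R := 1 / s) (by positivity) h2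
  rw [Finset.card_image_of_injective _ (smul_right_injective _ (by positivity)),
    finrank_euclideanSpace_fin, div_le_iff₀ (by positivity)] at h3
  refine h3.trans (le_of_eq ?_)
  unfold rho
  congr 2
  field_simp

lemma sph_bdd {d : ℕ} [NeZero d] {θ : ℝ} (hs : 0 < Real.sin (θ / 2)) :
    BddAbove {m | ∃ P : Finset (EuclideanSpace ℝ (Fin d)), IsSphCode d θ P ∧ P.card = m} := by
  refine ⟨⌈rho d * ((1 + 2 * Real.sin (θ / 2)) / Real.sin (θ / 2)) ^ d⌉₊, ?_⟩
  rintro m ⟨P, hP, rfl⟩
  exact_mod_cast (sph_card_le hs hP).trans (Nat.le_ceil _)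

lemma sph_nonempty (d : ℕ) (θ : ℝ) :
    {m | ∃ P : Finset (EuclideanSpace ℝ (Fin d)), IsSphCode d θ P ∧ P.card = m}.Nonempty :=
  ⟨0, ∅, ⟨by simp, by simp⟩, by simp⟩

lemma le_sphMax {d : ℕ} [NeZero d] {θ : ℝ} (hs : 0 < Real.sin (θ / 2))
    {P : Finset (EuclideanSpace ℝ (Fin d))} (hP : IsSphCode d θ P) : P.card ≤ sphMax d θ :=
  le_csSup (sph_bdd hs) ⟨P, hP, rfl⟩

/-- `A(d,θ) ≤ ρ_d ((1+2s)/s)^d`, `s = sin(θ/2)`. -/
lemma sphMax_le {d : ℕ} [NeZero d] {θ : ℝ} (hs : 0 < Real.sin (θ / 2)) :
    (sphMax d θ : ℝ) ≤ rho d * ((1 + 2 * Real.sin (θ / 2)) / Real.sin (θ / 2)) ^ d := by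
  obtain ⟨P, hP, hPc⟩ := Nat.sSup_mem (sph_nonempty d θ) (sph_bdd hs)
  change P.card = sphMax d θ at hPc
  rw [← hPc]
  exact sph_card_le hs hP

/-- `ρ_d ≤ s^d A(d+1,θ)`. -/
lemma rho_le_sphMax {d : ℕ} [NeZero d] {θ : ℝ} (hs : 0 < Real.sin (θ / 2)) :
    rho d ≤ Real.sin (θ / 2) ^ d * sphMax (d + 1) θ := by
  classical
  set s := Real.sin (θ / 2) with hsdef
  obtain ⟨P, hP, hPG, hPc⟩ := exists_large (E := EuclideanSpace ℝ (Fin d))
    (G := closedBall 0 (1 / s)) measurableSet_closedBall (a := 1 / s) (by positivity) subset_rfl (by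
      rw [vol_closedBall _ (by positivity)]
      have := vb_pos (E := EuclideanSpace ℝ (Fin d))
      positivity)
  rw [vol_closedBall _ (by positivity), ← mul_assoc] at hPc
  have hPc := le_of_mul_le_mul_right hPc vb_pos
  rw [finrank_euclideanSpace_fin, one_div, inv_pow, ← div_eq_mul_inv,
    div_le_iff₀ (by positivity)] at hPc
  set g : WithLp 2 (EuclideanSpace ℝ (Fin d) × ℝ) ≃ₗᵢ[ℝ] EuclideanSpace ℝ (Fin (d + 1)) :=
    ((stdOrthonormalBasis ℝ (WithLp 2 (EuclideanSpace ℝ (Fin d) × ℝ))).reindex (finCongr (by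
      rw [finrank_withLp, finrank_euclideanSpace_fin, Module.finrank_self]))).repr with hg
  set lift : EuclideanSpace ℝ (Fin d) → EuclideanSpace ℝ (Fin (d + 1)) :=
    fun x => g (WithLp.toLp 2 (s • x, √(1 - ‖s • x‖ ^ 2))) with hlift
  have hinj : Function.Injective lift := by
    intro x y hxy
    have h1 := g.injective hxy
    have h2 : s • x = s • y := congrArg (fun p => p.fst) h1
    exact smul_right_injective _ hs.ne' h2
  have hunit : ∀ x ∈ P, ‖lift x‖ = 1 := by
    intro x hx
    have h1 : ‖s • x‖ ≤ 1 := by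
      have := mem_closedBall_zero_iff.1 (hPG hx)
      rw [norm_smul, Real.norm_of_nonneg hs.le]
      calc s * ‖x‖ ≤ s * (1 / s) := mul_le_mul_of_nonneg_left this hs.le
        _ = 1 := by field_simp
    have h2 : 0 ≤ 1 - ‖s • x‖ ^ 2 := by nlinarith [norm_nonneg (s • x)]
    rw [hlift]
    simp only [LinearIsometryEquiv.norm_map]
    have h3 := WithLp.prod_norm_sq_eq_of_L2 (WithLp.toLp 2 (s • x, √(1 - ‖s • x‖ ^ 2)))
    have h4 : ‖WithLp.toLp 2 (s • x, √(1 - ‖s • x‖ ^ 2))‖ ^ 2 =
        ‖s • x‖ ^ 2 + ‖√(1 - ‖s • x‖ ^ 2)‖ ^ 2 := h3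
    rw [Real.norm_eq_abs, sq_abs, Real.sq_sqrt h2] at h4
    have h5 : ‖WithLp.toLp 2 (s • x, √(1 - ‖s • x‖ ^ 2))‖ ^ 2 = 1 := by rw [h4]; ring
    nlinarith [norm_nonneg (WithLp.toLp 2 (s • x, √(1 - ‖s • x‖ ^ 2)))]
  have hcode : IsSphCode (d + 1) θ (P.image lift) := by
    constructor
    · intro u hu
      obtain ⟨x, hx, rfl⟩ := Finset.mem_image.1 hu
      exact hunit x hx
    · intro u hu v hv huv
      obtain ⟨x, hx, rfl⟩ := Finset.mem_image.1 hu
      obtain ⟨y, hy, rfl⟩ := Finset.mem_image.1 hv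
      have hxy : x ≠ y := fun h => huv (by rw [h])
      have h1 := norm_sub_sq_real (lift x) (lift y)
      rw [hunit x hx, hunit y hy, ← dist_eq_norm, hlift] at h1
      simp only [LinearIsometryEquiv.dist_map] at h1
      have h2 : dist (WithLp.toLp 2 (s • x, √(1 - ‖s • x‖ ^ 2)))
          (WithLp.toLp 2 (s • y, √(1 - ‖s • y‖ ^ 2))) ^ 2 =
          dist (s • x) (s • y) ^ 2 + dist (√(1 - ‖s • x‖ ^ 2)) (√(1 - ‖s • y‖ ^ 2)) ^ 2 :=
        dist_sq (WithLp.toLp 2 (s • x, √(1 - ‖s • x‖ ^ 2)))
          (WithLp.toLp 2 (s • y, √(1 - ‖s • y‖ ^ 2)))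
      have h3 : dist (s • x) (s • y) = s * dist x y := by
        rw [dist_smul₀, Real.norm_of_nonneg hs.le]
      have h4 := hP x hx y hy hxy
      have h5 : (2 * s) ^ 2 ≤ (s * dist x y) ^ 2 := by
        apply pow_le_pow_left₀ (by positivity)
        nlinarith
      rw [cos_eq, ← hsdef]
      rw [h2, h3] at h1
      change ⟪g _, g _⟫_ℝ ≤ _
      nlinarith [sq_nonneg (dist (√(1 - ‖s • x‖ ^ 2)) (√(1 - ‖s • y‖ ^ 2)))]
  have h1 := le_sphMax hs hcode
  rw [Finset.card_image_of_injective _ hinj] at h1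
  have h1' : (P.card : ℝ) ≤ sphMax (d + 1) θ := by exact_mod_cast h1
  unfold rho
  calc optDensity (EuclideanSpace ℝ (Fin d)) ≤ _ := hPc
    _ ≤ sphMax (d + 1) θ * s ^ d := mul_le_mul_of_nonneg_right h1' (by positivity)
    _ = _ := by ring

end Pool.Agent.H818R2
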