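import Pool.Agent.H818R2.Sph

open MeasureTheory Metric Filter Set
open scoped Topology InnerProductSpace

namespace Pool.Agent.H818R2

lemma sphMax_pos {d : ℕ} (hd : 2 ≤ d) {θ : ℝ} (hs : 0 < Real.sin (θ / 2)) :
    (0 : ℝ) < sphMax d θ := by
  obtain ⟨e, rfl⟩ : ∃ e, d = e + 1 := ⟨d - 1, by omega⟩
  have : NeZero e := ⟨by omega⟩
  have h1 := rho_le_sphMax (d := e) hs
  have h2 := rho_pos (n := e) (by omega)
  by_contra hcon
  rw [not_lt] at hcon
  have h3 : (0 : ℝ) ≤ sphMax (e + 1) θ := Nat.cast_nonneg _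
  have h4 : (sphMax (e + 1) θ : ℝ) = 0 := le_antisymm hcon h3
  rw [h4, mul_zero] at h1
  linarith

lemma rate_le_sphRate {d : ℕ} (hd : 2 ≤ d) {θ : ℝ} (hs : 0 < Real.sin (θ / 2)) :
    rate d - Real.logb 2 (1 + 2 * Real.sin (θ / 2)) ≤ sphRate θ d := by
  have : NeZero d := ⟨by omega⟩
  set s := Real.sin (θ / 2) with hsdef
  have hd' : (0 : ℝ) < d := by
    have : 0 < d := by omega
    exact_mod_cast this
  have h1 := sphMax_le (d := d) hs
  rw [← hsdef] at h1
  have h2 := sphMax_pos hd hs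
  have h3 : s ^ d * sphMax d θ ≤ rho d * (1 + 2 * s) ^ d := by
    calc s ^ d * sphMax d θ ≤ s ^ d * (rho d * ((1 + 2 * s) / s) ^ d) :=
          mul_le_mul_of_nonneg_left h1 (by positivity)
      _ = _ := by rw [div_pow]; field_simp
  have h4 := Real.logb_le_logb_of_le (b := 2) (by norm_num) (by positivity) h3
  rw [Real.logb_mul (rho_pos (by omega)).ne' (by positivity), Real.logb_pow] at h4
  unfold sphRate
  rw [le_div_iff₀ hd', ← hsdef, sub_mul]
  have h5 := rate_mul (n := d) (by omega)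
  linarith

lemma sphRate_le_rate {d : ℕ} (hd : 1 ≤ d) {θ : ℝ} (hs : 0 < Real.sin (θ / 2)) :
    sphRate θ (d + 1) ≤ rate d + Real.logb 2 (1 / Real.sin (θ / 2)) / d := by
  have : NeZero d := ⟨by omega⟩
  set s := Real.sin (θ / 2) with hsdef
  have hs1 : s ≤ 1 := Real.sin_le_one _
  have hd' : (0 : ℝ) < d := by exact_mod_cast hd
  have h1 := rho_le_sphMax (d := d) hs
  rw [← hsdef] at h1
  have h2 := sphMax_pos (d := d + 1) (by omega) hs
  have h0 := rho_pos (n := d) (by omega)
  have h3 : s * rho d ≤ s ^ (d + 1) * sphMax (d + 1) θ := by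
    calc s * rho d ≤ s * (s ^ d * sphMax (d + 1) θ) := mul_le_mul_of_nonneg_left h1 hs.le
      _ = _ := by ring
  have h4 := Real.logb_le_logb_of_le (b := 2) (by norm_num) (by positivity) h3
  rw [Real.logb_mul hs.ne' h0.ne'] at h4
  have h5 := rate_mul (n := d) (by omega)
  have h6 : Real.logb 2 (1 / s) = - Real.logb 2 s := by rw [one_div, Real.logb_inv]
  have h7 : 0 ≤ Real.logb 2 (1 / s) := Real.logb_nonneg (by norm_num) (by
    rw [le_div_iff₀ hs]; linarith)
  have h8 := rate_nonneg d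
  unfold sphRate
  rw [← hsdef]
  have hd1 : (0 : ℝ) < ((d + 1 : ℕ) : ℝ) := by positivity
  rw [div_le_iff₀ hd1]
  have h9 : Real.logb 2 (1 / s) / d * d = Real.logb 2 (1 / s) := by field_simp
  have h10 : 0 ≤ Real.logb 2 (1 / s) / d := by positivity
  push_cast
  nlinarith

lemma sphRate_bdd {θ : ℝ} (hs : 0 < Real.sin (θ / 2)) :
    IsBoundedUnder (· ≤ ·) atTop (sphRate θ) := by
  refine ⟨1 + Real.logb 2 (1 / Real.sin (θ / 2)), ?_⟩
  rw [eventually_map, eventually_atTop]
  refine ⟨2, fun d hd => ?_⟩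
  obtain ⟨e, rfl⟩ : ∃ e, d = e + 1 := ⟨d - 1, by omega⟩
  have h1 := sphRate_le_rate (d := e) (by omega) hs
  have h2 := rate_le_one e
  have hs1 : Real.sin (θ / 2) ≤ 1 := Real.sin_le_one _
  have h7 : 0 ≤ Real.logb 2 (1 / Real.sin (θ / 2)) := Real.logb_nonneg (by norm_num) (by
    rw [le_div_iff₀ hs]; linarith)
  have h3 : Real.logb 2 (1 / Real.sin (θ / 2)) / e ≤ Real.logb 2 (1 / Real.sin (θ / 2)) := by
    apply div_le_self h7
    have : 1 ≤ e := by omega
    exact_mod_cast this
  linarith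

lemma sphRate_bdd' {θ : ℝ} (hs : 0 < Real.sin (θ / 2)) :
    IsBoundedUnder (· ≥ ·) atTop (sphRate θ) := by
  refine ⟨- Real.logb 2 (1 + 2 * Real.sin (θ / 2)), ?_⟩
  rw [eventually_map, eventually_atTop]
  refine ⟨2, fun d hd => ?_⟩
  have h1 := rate_le_sphRate hd hs
  have h2 := rate_nonneg d
  simp only [ge_iff_le]
  linarith

lemma upper_aux {θ : ℝ} : Tendsto (fun d : ℕ => Real.logb 2 (1 / Real.sin (θ / 2)) / (d : ℝ))
    atTop (𝓝 0) :=
  tendsto_const_div_atTop_nhds_zero_nat _

theorem limsup_sph {θ : ℝ} (hs : 0 < Real.sin (θ / 2)) :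
    limsup rate atTop - Real.logb 2 (1 + 2 * Real.sin (θ / 2)) ≤ limsup (sphRate θ) atTop ∧
    limsup (sphRate θ) atTop ≤ limsup rate atTop := by
  constructor
  · rw [sub_le_iff_le_add]
    apply le_of_forall_pos_le_add
    intro ε hε
    have h1 := eventually_lt_of_limsup_lt (show limsup (sphRate θ) atTop <
      limsup (sphRate θ) atTop + ε by linarith) (sphRate_bdd hs)
    apply limsup_le_of_le (rate_bdd' _).isCoboundedUnder_le
    filter_upwards [h1, eventually_ge_atTop 2] with d hd hd2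
    have := rate_le_sphRate hd2 hs
    linarith
  · apply le_of_forall_pos_le_add
    intro ε hε
    have h1 := eventually_lt_of_limsup_lt (show limsup rate atTop < limsup rate atTop + ε / 2 by
      linarith) (rate_bdd _)
    have h2 := (upper_aux (θ := θ)).eventually (gt_mem_nhds (show 0 < ε / 2 by positivity))
    apply limsup_le_of_le (sphRate_bdd' hs).isCoboundedUnder_le
    have h3 : ∀ᶠ d in atTop, sphRate θ (d + 1) ≤ limsup rate atTop + ε := by
      filter_upwards [h1, h2, eventually_ge_atTop 1] with d hd1 hd2 hd3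
      have := sphRate_le_rate hd3 hs
      linarith
    obtain ⟨D, hD⟩ := eventually_atTop.1 h3
    rw [eventually_atTop]
    refine ⟨D + 1, fun d hd => ?_⟩
    obtain ⟨e, rfl⟩ : ∃ e, d = e + 1 := ⟨d - 1, by omega⟩
    exact hD e (by omega)

theorem liminf_sph {θ : ℝ} (hs : 0 < Real.sin (θ / 2)) :
    liminf rate atTop - Real.logb 2 (1 + 2 * Real.sin (θ / 2)) ≤ liminf (sphRate θ) atTop ∧
    liminf (sphRate θ) atTop ≤ liminf rate atTop := by
  constructor
  · apply le_of_forall_pos_le_add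
    intro ε hε
    rw [← sub_le_iff_le_add]
    have h1 := eventually_lt_of_lt_liminf (show liminf rate atTop - ε < liminf rate atTop by
      linarith) (rate_bdd' _)
    apply le_liminf_of_le (sphRate_bdd hs).isCoboundedUnder_ge
    filter_upwards [h1, eventually_ge_atTop 2] with d hd hd2
    have := rate_le_sphRate hd2 hs
    linarith
  · apply le_of_forall_pos_le_add
    intro ε hε
    rw [← sub_le_iff_le_add]
    have h1 := eventually_lt_of_lt_liminf (show liminf (sphRate θ) atTop - ε / 2 <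
      liminf (sphRate θ) atTop by linarith) (sphRate_bdd' hs)
    have h1' := (tendsto_add_atTop_nat 1).eventually h1
    have h2 := (upper_aux (θ := θ)).eventually (gt_mem_nhds (show 0 < ε / 2 by positivity))
    apply le_liminf_of_le (rate_bdd _).isCoboundedUnder_ge
    filter_upwards [h1', h2, eventually_ge_atTop 1] with d hd1 hd2 hd3
    have := sphRate_le_rate hd3 hs
    linarith

lemma tendsto_aux (a : ℝ) : Tendsto (fun θ : ℝ => a - Real.logb 2 (1 + 2 * Real.sin (θ / 2)))
    (𝓝[>] 0) (𝓝 a) := by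
  have h1 : ContinuousAt (fun θ : ℝ => a - Real.logb 2 (1 + 2 * Real.sin (θ / 2))) 0 := by
    apply ContinuousAt.sub continuousAt_const
    unfold Real.logb
    apply ContinuousAt.div_const
    apply ContinuousAt.log
    · fun_prop
    · simp
  have h2 := h1.tendsto
  simp only [zero_div, Real.sin_zero, mul_zero, add_zero, Real.logb_one, sub_zero] at h2
  exact h2.mono_left nhdsWithin_le_nhds

lemma ev_sin : ∀ᶠ θ : ℝ in 𝓝[>] 0, 0 < Real.sin (θ / 2) := by
  filter_upwards [Ioo_mem_nhdsGT Real.pi_pos] with θ hθ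
  exact Real.sin_pos_of_pos_of_lt_pi (by linarith [hθ.1]) (by linarith [hθ.2, Real.pi_pos])

theorem tendsto_limsup_sph : Tendsto (fun θ : ℝ => limsup (sphRate θ) atTop) (𝓝[>] 0)
    (𝓝 (limsup rate atTop)) := by
  apply tendsto_of_tendsto_of_tendsto_of_le_of_le' (tendsto_aux _) tendsto_const_nhds
  · filter_upwards [ev_sin] with θ hθ using (limsup_sph hθ).1
  · filter_upwards [ev_sin] with θ hθ using (limsup_sph hθ).2

theorem tendsto_liminf_sph : Tendsto (fun θ : ℝ => liminf (sphRate θ) atTop) (𝓝[>] 0)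
    (𝓝 (liminf rate atTop)) := by
  apply tendsto_of_tendsto_of_tendsto_of_le_of_le' (tendsto_aux _) tendsto_const_nhds
  · filter_upwards [ev_sin] with θ hθ using (liminf_sph hθ).1
  · filter_upwards [ev_sin] with θ hθ using (liminf_sph hθ).2

end Pool.Agent.H818R2
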